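import Mathlib
import Pool.Agent.Helper186.Flow
import Pool.Agent.Helper10.Asy.JB

/-! Flows of time dependent vector fields of linear growth. -/

set_option autoImplicit false
set_option maxSynthPendingDepth 3
set_option linter.unusedSectionVars false
set_option linter.deprecated false

open MeasureTheory Set Filter Topology
open scoped ContDiff Manifold

namespace Pool.Agent.W585

/-- smoothness and group law of complete flows on a vector space -/
theorem flow_smooth {F : Type} [NormedAddCommGroup F] [NormedSpace ℝ F] [FiniteDimensional ℝ F]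
    {V : F → F} (hV : ContDiff ℝ ∞ V) {φ : F → ℝ → F} (h0 : ∀ p, φ p 0 = p)
    (h1 : ∀ p t, HasDerivAt (φ p) (V (φ p t)) t) :
    ContDiff ℝ ∞ (fun z : F × ℝ => φ z.1 z.2) ∧ ∀ p s t, φ p (s + t) = φ (φ p s) t := by
  have hcomp : CompleteSpace F := FiniteDimensional.complete ℝ F
  have hV' : ContMDiff 𝓘(ℝ, F) 𝓘(ℝ, F).tangent ∞
      (fun x => (⟨x, V x⟩ : TangentBundle 𝓘(ℝ, F) F)) := by
    exact contMDiff_vectorSpace_iff_contDiff.2 hV
  have hI : ∀ p, IsMIntegralCurve (I := 𝓘(ℝ, F)) (φ p) V := by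
    intro p t
    have h := (h1 p t).hasFDerivAt.hasMFDerivAt
    exact h
  constructor
  · have h2 := Pool.Agent.Helper186.contMDiff_flow hV' h0 hI
    rw [← modelWithCornersSelf_prod, chartedSpaceSelf_prod] at h2
    exact contMDiff_iff_contDiff.1 h2
  · exact fun p s t => Pool.Agent.Helper186.flow_add hV' h0 hI p s t

variable {E : Type} [NormedAddCommGroup E] [InnerProductSpace ℝ E] [FiniteDimensional ℝ E]

/-- Gronwall bound -/
theorem norm_growth {γ : ℝ → E} {γ' : ℝ → E} {C : ℝ}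
    (hd : ∀ t, HasDerivAt γ (γ' t) t) (hb : ∀ t, |inner ℝ (γ t) (γ' t)| ≤ C * ‖γ t‖ ^ 2) (t : ℝ) :
    ‖γ t‖ ≤ ‖γ 0‖ * Real.exp (C * |t|) := by
  -- f = ‖γ‖^2, |f'| ≤ 2 C f
  have hf : ∀ t, HasDerivAt (fun t => ‖γ t‖ ^ 2) (2 * inner ℝ (γ t) (γ' t)) t := by
    intro t
    have := (hd t).norm_sq
    exact this
  -- g₁ = f e^{-2Ct} is antitone, g₂ = f e^{2Ct} monotone
  have h1 : Antitone (fun t => ‖γ t‖ ^ 2 * Real.exp (-(2 * C * t))) := by
    apply antitone_of_hasDerivAt_nonpos (f' := fun t =>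
      (2 * inner ℝ (γ t) (γ' t) - 2 * C * ‖γ t‖ ^ 2) * Real.exp (-(2 * C * t)))
    · intro t
      have h2 : HasDerivAt (fun t => Real.exp (-(2 * C * t)))
          (Real.exp (-(2 * C * t)) * (-(2 * C * 1))) t :=
        (((hasDerivAt_id t).const_mul (2 * C)).neg).exp
      refine ((hf t).mul h2).congr_deriv ?_
      ring
    · intro t
      have := (abs_le.1 (hb t)).2
      have h3 := Real.exp_pos (-(2 * C * t))
      have h4 : 2 * inner ℝ (γ t) (γ' t) - 2 * C * ‖γ t‖ ^ 2 ≤ 0 := by nlinarith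
      exact mul_nonpos_of_nonpos_of_nonneg h4 h3.le
  have h2 : Monotone (fun t => ‖γ t‖ ^ 2 * Real.exp (2 * C * t)) := by
    apply monotone_of_hasDerivAt_nonneg (f' := fun t =>
      (2 * inner ℝ (γ t) (γ' t) + 2 * C * ‖γ t‖ ^ 2) * Real.exp (2 * C * t))
    · intro t
      have h2 : HasDerivAt (fun t => Real.exp (2 * C * t))
          (Real.exp (2 * C * t) * (2 * C * 1)) t :=
        ((hasDerivAt_id t).const_mul (2 * C)).exp
      refine ((hf t).mul h2).congr_deriv ?_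
      ring
    · intro t
      have := (abs_le.1 (hb t)).1
      have h3 := Real.exp_pos (2 * C * t)
      have h4 : 0 ≤ 2 * inner ℝ (γ t) (γ' t) + 2 * C * ‖γ t‖ ^ 2 := by nlinarith
      exact mul_nonneg h4 h3.le
  have key : ‖γ t‖ ^ 2 ≤ (‖γ 0‖ * Real.exp (C * |t|)) ^ 2 := by
    have e : (‖γ 0‖ * Real.exp (C * |t|)) ^ 2 = ‖γ 0‖ ^ 2 * Real.exp (2 * C * |t|) := by
      rw [mul_pow, ← Real.exp_nat_mul]; congr 2; push_cast; ring
    rw [e]
    rcases le_total 0 t with ht | ht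
    · rw [abs_of_nonneg ht]
      have h3 := h1 ht
      simp only [mul_zero, neg_zero, Real.exp_zero, mul_one] at h3
      have h4 := mul_le_mul_of_nonneg_right h3 (Real.exp_pos (2 * C * t)).le
      rw [mul_assoc, ← Real.exp_add] at h4
      simpa using h4
    · rw [abs_of_nonpos ht]
      have h3 := h2 ht
      simp only [mul_zero, Real.exp_zero, mul_one] at h3
      have h4 := mul_le_mul_of_nonneg_right h3 (Real.exp_pos (2 * C * (-t))).le
      rw [mul_assoc, ← Real.exp_add] at h4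
      simpa using h4
  exact (sq_le_sq₀ (norm_nonneg _) (by positivity)).1 key

/-- **Complete flows** of time dependent vector fields of linear growth. -/
theorem exists_td_flow {Y : E × ℝ → E} (hY : ContDiff ℝ ∞ Y) {C : ℝ} (hC : 0 ≤ C)
    (hb : ∀ x s, |inner ℝ x (Y (x, s))| ≤ C * ‖x‖ ^ 2) :
    ∃ Q : E → ℝ → ℝ → E, ContDiff ℝ ∞ (fun p : (E × ℝ) × ℝ => Q p.1.1 p.1.2 p.2) ∧
      (∀ x a, Q x a 0 = x) ∧
      (∀ x a t, HasDerivAt (fun t => Q x a t) (Y (Q x a t, a + t)) t) ∧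
      (∀ x a t s, Q (Q x a t) (a + t) s = Q x a (t + s)) := by
  set V : E × ℝ → E × ℝ := fun p => (Y p, 1) with hV
  have hVs : ContDiff ℝ ∞ V := hY.prodMk contDiff_const
  have hmono : ∀ R R' T T' : ℝ, 0 ≤ R → R ≤ R' → 0 ≤ T → T ≤ T' →
      R * Real.exp (C * T) + (R + T) ≤ R' * Real.exp (C * T') + (R' + T') := by
    intro R R' T T' hR hRR hT hTT
    have h2 : Real.exp (C * T) ≤ Real.exp (C * T') :=
      Real.exp_le_exp.2 (mul_le_mul_of_nonneg_left hTT hC)
    have h3 : R * Real.exp (C * T) ≤ R' * Real.exp (C * T') :=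
      mul_le_mul hRR h2 (Real.exp_pos _).le (hR.trans hRR)
    linarith
  have hBd : ∀ (χ : E × ℝ → ℝ), (∀ p, 0 ≤ χ p ∧ χ p ≤ 1) → ∀ γ : ℝ → E × ℝ,
      (∀ τ, HasDerivAt γ (χ (γ τ) • V (γ τ)) τ) → ∀ τ,
      ‖γ τ‖ ≤ ‖γ 0‖ * Real.exp (C * |τ|) + (‖γ 0‖ + |τ|) := by
    intro χ hχ γ hγ τ
    have hx : ∀ t, HasDerivAt (fun t => (γ t).1) (χ (γ t) • Y (γ t)) t := fun t =>
      (ContinuousLinearMap.fst ℝ E ℝ).hasFDerivAt.comp_hasDerivAt t (hγ t)
    have hs : ∀ t, HasDerivAt (fun t => (γ t).2) (χ (γ t) • 1) t := fun t =>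
      (ContinuousLinearMap.snd ℝ E ℝ).hasFDerivAt.comp_hasDerivAt t (hγ t)
    have b1 := norm_growth (C := C) hx (fun t => by
      rw [inner_smul_right, abs_mul, abs_of_nonneg (hχ _).1]
      have h2 := hb (γ t).1 (γ t).2
      have h3 := (hχ (γ t)).2
      have h4 := (hχ (γ t)).1
      have h5 := abs_nonneg (inner ℝ (γ t).1 (Y (γ t)))
      calc _ ≤ 1 * |inner ℝ (γ t).1 (Y (γ t))| := mul_le_mul_of_nonneg_right h3 h5
        _ ≤ _ := by rw [one_mul]; exact h2) τ
    have b2 : |(γ τ).2 - (γ 0).2| ≤ |τ| := by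
      have h := convex_univ.norm_image_sub_le_of_norm_hasDerivWithin_le (s := (univ : Set ℝ))
        (f := fun t => (γ t).2) (C := 1) (x := 0) (y := τ)
        (fun x _ => (hs x).hasDerivWithinAt) (fun x _ => by
          rw [Real.norm_eq_abs, smul_eq_mul, mul_one, abs_of_nonneg (hχ _).1]
          exact (hχ _).2) (mem_univ _) (mem_univ _)
      simpa using h
    have hn1 : ‖(γ 0).1‖ ≤ ‖γ 0‖ := norm_fst_le _
    have hn2 : ‖(γ 0).2‖ ≤ ‖γ 0‖ := norm_snd_le _
    have hex : 0 < Real.exp (C * |τ|) := Real.exp_pos _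
    have h0 : 0 ≤ ‖γ 0‖ := norm_nonneg _
    rw [Prod.norm_def]
    refine max_le ?_ ?_
    · have : ‖(γ 0).1‖ * Real.exp (C * |τ|) ≤ ‖γ 0‖ * Real.exp (C * |τ|) :=
        mul_le_mul_of_nonneg_right hn1 hex.le
      have := abs_nonneg τ
      linarith
    · have h3 : ‖(γ τ).2‖ ≤ ‖(γ 0).2‖ + |τ| := by
        rw [Real.norm_eq_abs, Real.norm_eq_abs]
        have := abs_sub_abs_le_abs_sub (γ τ).2 (γ 0).2
        linarith
      have : 0 ≤ ‖γ 0‖ * Real.exp (C * |τ|) := by positivity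
      linarith
  obtain ⟨φ, h0, h1, -⟩ := Pool.Agent.Helper10.Asy.JB.global_flow (V := V) hVs
    (fun R T => R * Real.exp (C * T) + (R + T)) hmono hBd
  have h1' : ∀ p t, HasDerivAt (fun t => φ t p) (V (φ t p)) t := h1
  obtain ⟨hs, hadd⟩ := flow_smooth (φ := fun p t => φ t p) hVs h0 h1'
  have hsnd : ∀ p t, (φ t p).2 = p.2 + t := by
    intro p t
    have hd : ∀ t, HasDerivAt (fun t => (φ t p).2 - (p.2 + t)) 0 t := by
      intro t
      have h2 : HasDerivAt (fun t => (φ t p).2) 1 t :=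
        (ContinuousLinearMap.snd ℝ E ℝ).hasFDerivAt.comp_hasDerivAt t (h1' p t)
      have h3 : HasDerivAt (fun t => p.2 + t) 1 t := by
        simpa using (hasDerivAt_id t).const_add p.2
      exact (h2.fun_sub h3).congr_deriv (by simp)
    have h4 := is_const_of_deriv_eq_zero (fun t => (hd t).differentiableAt)
      (fun t => (hd t).deriv) t 0
    simp only [h0, add_zero, sub_self] at h4
    linarith
  have hsplit : ∀ p t, φ t p = ((φ t p).1, p.2 + t) := fun p t => Prod.ext rfl (hsnd p t)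
  refine ⟨fun x a t => (φ t (x, a)).1, ?_, ?_, ?_, ?_⟩
  · exact contDiff_fst.comp hs
  · intro x a; simp [h0]
  · intro x a t
    have h2 : HasDerivAt (fun t => (φ t (x, a)).1) (V (φ t (x, a))).1 t :=
      (ContinuousLinearMap.fst ℝ E ℝ).hasFDerivAt.comp_hasDerivAt t (h1' (x, a) t)
    rw [hsplit (x, a) t] at h2
    exact h2
  · intro x a t s
    have h2 := hadd (x, a) t s
    rw [hsplit (x, a) t] at h2
    simp only at h2 ⊢
    rw [h2]

end Pool.Agent.W585
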