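import Mathlib

/-! Smoothness of parameter integrals. -/

set_option autoImplicit false

open MeasureTheory Set Filter Topology
open scoped ContDiff

namespace Pool.Agent.W585

theorem contDiff_param_nat {E : Type} [NormedAddCommGroup E] [NormedSpace ℝ E]
    [FiniteDimensional ℝ E] (a b : ℝ) (m : ℕ) : ∀ (G : Type) [NormedAddCommGroup G]
    [NormedSpace ℝ G] [CompleteSpace G] (F : E → ℝ → G),
    ContDiff ℝ m (fun p : E × ℝ => F p.1 p.2) → ContDiff ℝ m (fun x => ∫ t in a..b, F x t) := by
  have hproper : ProperSpace E := FiniteDimensional.proper_real E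
  induction m with
  | zero =>
    intro G _ _ _ F hF
    have h0 : Continuous (Function.uncurry F) := hF.continuous
    have h1 := intervalIntegral.continuous_parametric_intervalIntegral_of_continuous'
      (μ := volume) h0 a b
    exact contDiff_zero.mpr h1
  | succ m ih =>
    intro G _ _ _ F hF
    have hF' : ContDiff ℝ ((m : WithTop ℕ∞) + 1) (fun p : E × ℝ => F p.1 p.2) := by
      exact_mod_cast hF
    have hcF : Continuous (fun p : E × ℝ => F p.1 p.2) := hF'.continuous
    set D : E → ℝ → (E →L[ℝ] G) := fun x t =>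
      (fderiv ℝ (fun p : E × ℝ => F p.1 p.2) (x, t)).comp (ContinuousLinearMap.inl ℝ E ℝ) with hD
    have hDc : ContDiff ℝ m (fun p : E × ℝ => D p.1 p.2) := by
      have h1 : ContDiff ℝ m (fderiv ℝ (fun p : E × ℝ => F p.1 p.2)) :=
        hF'.fderiv_right le_rfl
      exact h1.clm_comp contDiff_const
    have hDcont : Continuous (fun p : E × ℝ => D p.1 p.2) := hDc.continuous
    have hder : ∀ x t, HasFDerivAt (fun x => F x t) (D x t) x := by
      intro x t
      have h1 : HasFDerivAt (fun p : E × ℝ => F p.1 p.2)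
          (fderiv ℝ (fun p : E × ℝ => F p.1 p.2) (x, t)) (x, t) :=
        (hF'.differentiable (by simp) (x, t)).hasFDerivAt
      have h2 : HasFDerivAt (𝕜 := ℝ) (fun e : E => (e, t)) (ContinuousLinearMap.inl ℝ E ℝ) x :=
        hasFDerivAt_prodMk_left x t
      exact HasFDerivAt.comp (g := fun p : E × ℝ => F p.1 p.2) (f := fun e : E => (e, t)) x h1 h2
    have key : ContDiff ℝ ((m : WithTop ℕ∞) + 1) (fun x => ∫ t in a..b, F x t) := by
      rw [contDiff_succ_iff_hasFDerivAt]
      refine ⟨fun x => ∫ t in a..b, D x t, ih (E →L[ℝ] G) D hDc, fun x => ?_⟩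
      obtain ⟨C, hC⟩ := ((isCompact_closedBall x 1).prod (isCompact_uIcc (a := a) (b := b))
        ).exists_bound_of_continuousOn hDcont.continuousOn
      refine intervalIntegral.hasFDerivAt_integral_of_dominated_of_fderiv_le
        (s := Metric.closedBall x 1) (bound := fun _ => C)
        (Metric.closedBall_mem_nhds x one_pos) ?_ ?_ ?_ ?_ ?_ ?_
      · refine Eventually.of_forall fun y => ?_
        exact (hcF.comp (continuous_const.prodMk continuous_id)).aestronglyMeasurable
      · exact (hcF.comp (continuous_const.prodMk continuous_id)).intervalIntegrable _ _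
      · exact (hDcont.comp (continuous_const.prodMk continuous_id)).aestronglyMeasurable
      · refine Eventually.of_forall fun t ht y hy => ?_
        exact hC (y, t) ⟨hy, uIoc_subset_uIcc ht⟩
      · exact intervalIntegrable_const
      · exact Eventually.of_forall fun t _ y _ => hder y t
    exact_mod_cast key

/-- smoothness of parameter integrals -/
theorem contDiff_param {E : Type} [NormedAddCommGroup E] [NormedSpace ℝ E] [FiniteDimensional ℝ E]
    {G : Type} [NormedAddCommGroup G] [NormedSpace ℝ G] [CompleteSpace G]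
    {F : E → ℝ → G} (hF : ContDiff ℝ ∞ (fun p : E × ℝ => F p.1 p.2)) (a b : ℝ) :
    ContDiff ℝ ∞ (fun x => ∫ t in a..b, F x t) :=
  contDiff_infty.2 fun m => contDiff_param_nat a b m G F (contDiff_infty.1 hF m)

/-- derivative of parameter integrals -/
theorem hasFDerivAt_param {E : Type} [NormedAddCommGroup E] [NormedSpace ℝ E]
    [FiniteDimensional ℝ E] {G : Type} [NormedAddCommGroup G] [NormedSpace ℝ G] [CompleteSpace G]
    {F : E → ℝ → G} (hF : ContDiff ℝ 1 (fun p : E × ℝ => F p.1 p.2)) (a b : ℝ) (x : E) :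
    HasFDerivAt (fun x => ∫ t in a..b, F x t) (∫ t in a..b, fderiv ℝ (fun y => F y t) x) x := by
  have hproper : ProperSpace E := FiniteDimensional.proper_real E
  have hcF : Continuous (fun p : E × ℝ => F p.1 p.2) := hF.continuous
  set D : E → ℝ → (E →L[ℝ] G) := fun x t =>
    (fderiv ℝ (fun p : E × ℝ => F p.1 p.2) (x, t)).comp (ContinuousLinearMap.inl ℝ E ℝ) with hD
  have hDcont : Continuous (fun p : E × ℝ => D p.1 p.2) :=
    ((hF.continuous_fderiv (by norm_num))).clm_comp continuous_const
  have hder : ∀ x t, HasFDerivAt (fun x => F x t) (D x t) x := by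
    intro x t
    have h1 : HasFDerivAt (fun p : E × ℝ => F p.1 p.2)
        (fderiv ℝ (fun p : E × ℝ => F p.1 p.2) (x, t)) (x, t) :=
      (hF.differentiable (by simp) (x, t)).hasFDerivAt
    have h2 : HasFDerivAt (𝕜 := ℝ) (fun e : E => (e, t)) (ContinuousLinearMap.inl ℝ E ℝ) x :=
      hasFDerivAt_prodMk_left x t
    exact HasFDerivAt.comp (g := fun p : E × ℝ => F p.1 p.2) (f := fun e : E => (e, t)) x h1 h2
  have e : ∀ x t, fderiv ℝ (fun y => F y t) x = D x t := fun x t => (hder x t).fderiv
  simp only [e]
  obtain ⟨C, hC⟩ := ((isCompact_closedBall x 1).prod (isCompact_uIcc (a := a) (b := b))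
    ).exists_bound_of_continuousOn hDcont.continuousOn
  refine intervalIntegral.hasFDerivAt_integral_of_dominated_of_fderiv_le
    (s := Metric.closedBall x 1) (bound := fun _ => C)
    (Metric.closedBall_mem_nhds x one_pos) ?_ ?_ ?_ ?_ ?_ ?_
  · refine Eventually.of_forall fun y => ?_
    exact (hcF.comp (continuous_const.prodMk continuous_id)).aestronglyMeasurable
  · exact (hcF.comp (continuous_const.prodMk continuous_id)).intervalIntegrable _ _
  · exact (hDcont.comp (continuous_const.prodMk continuous_id)).aestronglyMeasurable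
  · refine Eventually.of_forall fun t ht y hy => ?_
    exact hC (y, t) ⟨hy, uIoc_subset_uIcc ht⟩
  · exact intervalIntegrable_const
  · exact Eventually.of_forall fun t _ y _ => hder y t

theorem continuous_fderiv_param {E : Type} [NormedAddCommGroup E] [NormedSpace ℝ E]
    {G : Type} [NormedAddCommGroup G] [NormedSpace ℝ G]
    {F : E → ℝ → G} (hF : ContDiff ℝ 1 (fun p : E × ℝ => F p.1 p.2)) (x : E) :
    Continuous fun t : ℝ => fderiv ℝ (fun y => F y t) x := by
  have e : (fun t : ℝ => fderiv ℝ (fun y => F y t) x) = fun t =>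
      (fderiv ℝ (fun p : E × ℝ => F p.1 p.2) (x, t)).comp
        (ContinuousLinearMap.inl ℝ E ℝ) := by
    funext t
    have h1 : HasFDerivAt (fun p : E × ℝ => F p.1 p.2)
        (fderiv ℝ (fun p : E × ℝ => F p.1 p.2) (x, t)) (x, t) :=
      (hF.differentiable (by simp) (x, t)).hasFDerivAt
    have h2 : HasFDerivAt (𝕜 := ℝ) (fun e : E => (e, t)) (ContinuousLinearMap.inl ℝ E ℝ) x :=
      hasFDerivAt_prodMk_left x t
    exact (HasFDerivAt.comp (g := fun p : E × ℝ => F p.1 p.2) (f := fun e : E => (e, t))
      x h1 h2).fderiv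
  rw [e]
  have h3 : Continuous (fderiv ℝ (fun p : E × ℝ => F p.1 p.2)) :=
    hF.continuous_fderiv (by simp)
  exact (h3.comp (by fun_prop : Continuous fun t : ℝ => (x, t))).clm_comp continuous_const

theorem fderiv_param_apply {E : Type} [NormedAddCommGroup E] [NormedSpace ℝ E]
    [FiniteDimensional ℝ E] {G : Type} [NormedAddCommGroup G] [NormedSpace ℝ G] [CompleteSpace G]
    {F : E → ℝ → G} (hF : ContDiff ℝ 1 (fun p : E × ℝ => F p.1 p.2)) (a b : ℝ) (x u : E) :
    fderiv ℝ (fun x => ∫ t in a..b, F x t) x u = ∫ t in a..b, fderiv ℝ (fun y => F y t) x u := by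
  rw [(hasFDerivAt_param hF a b x).fderiv, ContinuousLinearMap.intervalIntegral_apply]
  exact (continuous_fderiv_param hF x).intervalIntegrable _ _

end Pool.Agent.W585
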