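import Pool.Agent.W886.AM.Stm0

/-! The counting lemma: some table is good against all messages. -/

set_option autoImplicit false

namespace Pool.Agent.W585.AMC

open Finset

variable {W U Ω : Type} [Fintype W] [Fintype U] [Fintype Ω]

open Classical in
/-- the pairs which are hit often -/
noncomputable def Sset (h : (W → Option U) → Ω → Finset (W × U)) (t : W → Option U) :
    Finset (W × U) :=
  univ.filter (fun x => Fintype.card Ω <
    6 * Fintype.card W * (univ.filter (fun ω : Ω => x ∈ h t ω)).card)

theorem card_Sset (h : (W → Option U) → Ω → Finset (W × U)) (q : ℕ)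
    (hq : ∀ t ω, (h t ω).card ≤ q) (t : W → Option U) :
    (Sset h t).card ≤ 6 * q * Fintype.card W := by
  classical
  rcases Nat.eq_zero_or_pos (Fintype.card Ω) with h0 | h0
  · have he : IsEmpty Ω := Fintype.card_eq_zero_iff.1 h0
    have : Sset h t = ∅ := by
      rw [Finset.eq_empty_iff_forall_notMem]
      intro x hx
      unfold Sset at hx
      rw [Finset.mem_filter] at hx
      have h1 : (univ.filter (fun ω : Ω => x ∈ h t ω)).card = 0 := by
        rw [Finset.card_eq_zero, Finset.eq_empty_iff_forall_notMem]
        intro ω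
        exact he.elim ω
      rw [h1, h0] at hx
      simp at hx
    rw [this]; simp
  · have h1 : (Sset h t).card * Fintype.card Ω ≤
        ∑ x ∈ Sset h t, 6 * Fintype.card W * (univ.filter (fun ω : Ω => x ∈ h t ω)).card := by
      rw [← smul_eq_mul, ← Finset.sum_const]
      apply Finset.sum_le_sum
      intro x hx
      unfold Sset at hx
      rw [Finset.mem_filter] at hx
      convert hx.2.le
    have h2 : ∑ x ∈ Sset h t, (univ.filter (fun ω : Ω => x ∈ h t ω)).card ≤
        q * Fintype.card Ω := by
      calc ∑ x ∈ Sset h t, (univ.filter (fun ω : Ω => x ∈ h t ω)).card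
          ≤ ∑ x : W × U, (univ.filter (fun ω : Ω => x ∈ h t ω)).card :=
            Finset.sum_le_sum_of_subset (Finset.subset_univ _)
        _ = ∑ x : W × U, ∑ ω : Ω, (if x ∈ h t ω then 1 else 0) := by
            refine Finset.sum_congr rfl fun x _ => ?_
            rw [Finset.card_filter]
        _ = ∑ ω : Ω, ∑ x : W × U, (if x ∈ h t ω then 1 else 0) := Finset.sum_comm
        _ = ∑ ω : Ω, (h t ω).card := by
            refine Finset.sum_congr rfl fun ω _ => ?_
            rw [← Finset.card_filter]
            congr 1
            ext x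
            simp
        _ ≤ ∑ _ω : Ω, q := Finset.sum_le_sum fun ω _ => hq t ω
        _ = q * Fintype.card Ω := by
            rw [Finset.sum_const, Finset.card_univ, smul_eq_mul, mul_comm]
    rw [← Finset.mul_sum] at h1
    have h3 : (Sset h t).card * Fintype.card Ω ≤ (6 * q * Fintype.card W) * Fintype.card Ω := by
      refine h1.trans ((Nat.mul_le_mul_left _ h2).trans (le_of_eq ?_))
      ring
    exact Nat.le_of_mul_le_mul_right h3 h0

open Classical in
/-- the partial table can be extended by `k` steps -/
def Steps (S : (W → Option U) → Finset (W × U)) : ℕ → (W → Option U) → (W → U) → Prop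
  | 0, _, _ => True
  | k + 1, t, s => ∃ w, t w = none ∧ (w, s w) ∈ S t ∧
      Steps S k (Function.update t w (some (s w))) s

open Classical in
/-- the tables that extend a partial table -/
noncomputable def exts (t : W → Option U) : Finset (W → U) :=
  univ.filter (fun s => ∀ w u, t w = some u → s w = u)

open Classical in
/-- the free arguments -/
noncomputable def free (t : W → Option U) : Finset W := univ.filter (fun w => t w = none)

theorem card_exts (t : W → Option U) :
    (exts t).card ≤ Fintype.card U ^ (free t).card := by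
  classical
  have h1 : exts t ⊆ Fintype.piFinset (fun w => if t w = none then univ else
      univ.filter (fun u => t w = some u)) := by
    intro s hs
    unfold exts at hs
    rw [Finset.mem_filter] at hs
    rw [Fintype.mem_piFinset]
    intro w
    split_ifs with h
    · exact Finset.mem_univ _
    · obtain ⟨u, hu⟩ := Option.ne_none_iff_exists'.1 h
      rw [Finset.mem_filter]
      refine ⟨Finset.mem_univ _, ?_⟩
      rw [hu, hs.2 w u hu]
  refine (Finset.card_le_card h1).trans ?_
  rw [Fintype.card_piFinset]
  have h2 : ∀ w : W, (if t w = none then (univ : Finset U) else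
      univ.filter (fun u => t w = some u)).card ≤ if t w = none then Fintype.card U else 1 := by
    intro w
    split_ifs with h
    · rw [Finset.card_univ]
    · rw [Finset.card_le_one]
      intro a ha b hb
      rw [Finset.mem_filter] at ha hb
      have := ha.2.symm.trans hb.2
      exact Option.some_injective _ this
  refine (Finset.prod_le_prod' fun w _ => h2 w).trans ?_
  rw [Finset.prod_ite, Finset.prod_const, Finset.prod_const_one, mul_one]
  apply le_of_eq
  congr 2

theorem card_steps (S : (W → Option U) → Finset (W × U)) (B : ℕ) (hB : ∀ t, (S t).card ≤ B)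
    (k : ℕ) : ∀ t : W → Option U, k ≤ (free t).card →
    Set.ncard {s : W → U | s ∈ exts t ∧ Steps S k t s} ≤
      B ^ k * Fintype.card U ^ ((free t).card - k) := by
  classical
  induction k with
  | zero =>
    intro t _
    rw [pow_zero, one_mul, Nat.sub_zero]
    refine le_trans ?_ (card_exts t)
    rw [← Set.ncard_coe_finset]
    apply Set.ncard_le_ncard _ (Finset.finite_toSet _)
    intro s hs
    exact hs.1
  | succ k ih =>
    intro t hk
    have h1 : {s : W → U | s ∈ exts t ∧ Steps S (k + 1) t s} ⊆
        ⋃ x ∈ (S t).filter (fun x => t x.1 = none),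
          {s : W → U | s ∈ exts (Function.update t x.1 (some x.2)) ∧
            Steps S k (Function.update t x.1 (some x.2)) s} := by
      rintro s ⟨hs1, w, hw1, hw2, hw3⟩
      rw [Set.mem_iUnion₂]
      refine ⟨(w, s w), by rw [Finset.mem_filter]; exact ⟨hw2, hw1⟩, ?_, ?_⟩
      · unfold exts at hs1 ⊢
        rw [Finset.mem_filter] at hs1 ⊢
        refine ⟨Finset.mem_univ _, fun w' u hu => ?_⟩
        by_cases hw' : w' = w
        · rw [hw', Function.update_self] at hu
          rw [hw']
          exact Option.some_injective _ hu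
        · rw [Function.update_of_ne hw'] at hu
          exact hs1.2 w' u hu
      · convert hw3
    have hfin : (⋃ x ∈ (S t).filter (fun x => t x.1 = none),
          {s : W → U | s ∈ exts (Function.update t x.1 (some x.2)) ∧
            Steps S k (Function.update t x.1 (some x.2)) s}).Finite := Set.toFinite _
    refine (Set.ncard_le_ncard h1 hfin).trans ?_
    refine (Finset.set_ncard_biUnion_le _ _).trans ?_
    have h2 : ∀ x ∈ (S t).filter (fun x => t x.1 = none),
        Set.ncard {s : W → U | s ∈ exts (Function.update t x.1 (some x.2)) ∧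
            Steps S k (Function.update t x.1 (some x.2)) s} ≤
          B ^ k * Fintype.card U ^ ((free t).card - (k + 1)) := by
      intro x hx
      rw [Finset.mem_filter] at hx
      have h3 : free (Function.update t x.1 (some x.2)) = (free t).erase x.1 := by
        ext w
        unfold free
        rw [Finset.mem_filter, Finset.mem_erase, Finset.mem_filter]
        by_cases hw : w = x.1
        · rw [hw, Function.update_self]; simp
        · rw [Function.update_of_ne hw]; simp [hw]
      have h4 : x.1 ∈ free t := by
        unfold free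
        rw [Finset.mem_filter]
        exact ⟨Finset.mem_univ _, hx.2⟩
      have h5 : (free (Function.update t x.1 (some x.2))).card = (free t).card - 1 := by
        rw [h3, Finset.card_erase_of_mem h4]
      have h6 := ih (Function.update t x.1 (some x.2)) (by rw [h5]; omega)
      rw [h5, Nat.sub_sub, Nat.add_comm 1 k] at h6
      exact h6
    refine (Finset.sum_le_card_nsmul _ _ _ h2).trans ?_
    rw [smul_eq_mul, pow_succ, mul_comm (B ^ k) B, mul_assoc]
    apply Nat.mul_le_mul_right
    exact (Finset.card_filter_le _ _).trans (hB t)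

open Classical in
omit [Fintype W] [Fintype U] in
theorem steps_of_bad (S : (W → Option U) → Finset (W × U)) (s : W → U) (m : ℕ)
    (hbad : ∀ D : Finset W, 3 * D.card ≤ m →
      ∃ w, w ∉ D ∧ (w, s w) ∈ S (fun w => if w ∈ D then some (s w) else none)) (k : ℕ) :
    ∀ D : Finset W, D.card + k ≤ m / 3 + 1 →
      Steps S k (fun w => if w ∈ D then some (s w) else none) s := by
  induction k with
  | zero => intro D _; trivial
  | succ k ih =>
    intro D hD
    obtain ⟨w, hw1, hw2⟩ := hbad D (by omega)
    refine ⟨w, if_neg hw1, hw2, ?_⟩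
    have h1 := ih (insert w D) (by rw [Finset.card_insert_of_notMem hw1]; omega)
    have h2 : Function.update (fun w => if w ∈ D then some (s w) else none) w (some (s w)) =
        fun w' => if w' ∈ insert w D then some (s w') else none := by
      funext w'
      by_cases h : w' = w
      · rw [h, Function.update_self, if_pos (Finset.mem_insert_self _ _)]
      · rw [Function.update_of_ne h]
        simp [Finset.mem_insert, h]
    rw [h2]
    exact h1

open Classical in
theorem core {Y : Type} [Fintype Y] (hits : Y → (W → Option U) → Ω → Finset (W × U)) (q p : ℕ)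
    (hq : ∀ y t ω, (hits y t ω).card ≤ q) (hY : Fintype.card Y ≤ 2 ^ p)
    (hN : 12 * q * Fintype.card W ≤ Fintype.card U) (hU : 0 < Fintype.card U)
    (hp : 3 * (p + 1) ≤ Fintype.card W) :
    ∃ s : W → U, ∀ y, ∃ D : Finset W, 3 * D.card ≤ Fintype.card W ∧
      6 * (univ.filter (fun ω : Ω => ∃ w ∉ D,
        (w, s w) ∈ hits y (fun w => if w ∈ D then some (s w) else none) ω)).card ≤
        Fintype.card Ω := by
  obtain ⟨m, hm⟩ : ∃ m, m = Fintype.card W := ⟨_, rfl⟩
  obtain ⟨N, hNN⟩ : ∃ N, N = Fintype.card U := ⟨_, rfl⟩
  obtain ⟨K, hK⟩ : ∃ K, K = m / 3 + 1 := ⟨_, rfl⟩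
  -- a table for which no procedure makes K steps
  have hex : ∃ s : W → U, ∀ y, ¬ Steps (Sset (hits y)) K (fun _ => none) s := by
    by_contra hcon
    push Not at hcon
    have h1 : (Set.univ : Set (W → U)) ⊆ ⋃ y ∈ (univ : Finset Y),
        {s : W → U | s ∈ exts (fun _ => none) ∧ Steps (Sset (hits y)) K (fun _ => none) s} := by
      intro s _
      obtain ⟨y, hy⟩ := hcon s
      rw [Set.mem_iUnion₂]
      refine ⟨y, Finset.mem_univ _, ?_, hy⟩
      unfold exts
      rw [Finset.mem_filter]
      refine ⟨Finset.mem_univ _, fun w u hu => ?_⟩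
      simp at hu
    have h2 := Set.ncard_le_ncard h1 (Set.toFinite _)
    rw [Set.ncard_univ, Nat.card_eq_fintype_card, Fintype.card_fun, ← hm, ← hNN] at h2
    have h3 := h2.trans (Finset.set_ncard_biUnion_le _ _)
    have hfree : (free (fun _ => none : W → Option U)).card = m := by
      unfold free
      rw [hm, ← Finset.card_univ]
      congr 1
      simp
    have h4 : ∀ y ∈ (univ : Finset Y), Set.ncard {s : W → U | s ∈ exts (fun _ => none) ∧
        Steps (Sset (hits y)) K (fun _ => none) s} ≤ (6 * q * m) ^ K * N ^ (m - K) := by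
      intro y _
      have h5 := card_steps (Sset (hits y)) (6 * q * m)
        (fun t => by rw [hm]; exact card_Sset (hits y) q (hq y) t) K (fun _ => none)
        (by rw [hfree]; omega)
      rwa [hfree, ← hNN] at h5
    have h5 := h3.trans (Finset.sum_le_card_nsmul _ _ _ h4)
    rw [smul_eq_mul, Finset.card_univ] at h5
    have hN0 : 0 < N := by rw [hNN]; exact hU
    have h6 : Fintype.card Y * ((6 * q * m) ^ K * N ^ (m - K)) ≤
        2 ^ p * (6 * q * m) ^ K * N ^ (m - K) := by
      have h61 := Nat.mul_le_mul_right ((6 * q * m) ^ K * N ^ (m - K)) hY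
      rwa [← mul_assoc (2 ^ p)] at h61
    have h7 : 2 * (2 ^ p * (6 * q * m) ^ K) ≤ N ^ K := by
      calc 2 * (2 ^ p * (6 * q * m) ^ K) = 2 ^ (p + 1) * (6 * q * m) ^ K := by ring
        _ ≤ 2 ^ K * (6 * q * m) ^ K :=
            Nat.mul_le_mul_right _ (Nat.pow_le_pow_right (by norm_num) (by omega))
        _ = (12 * q * m) ^ K := by rw [← mul_pow]; ring
        _ ≤ N ^ K := Nat.pow_le_pow_left (by rw [hm, hNN]; exact hN) K
    have h8 : N ^ m = N ^ K * N ^ (m - K) := by
      rw [← pow_add]; congr 1; omega
    have h9 : 0 < N ^ K := Nat.pow_pos hN0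
    have h10 : 0 < N ^ (m - K) := Nat.pow_pos hN0
    have h11 : 2 ^ p * (6 * q * m) ^ K < N ^ K := by omega
    have h12 := Nat.mul_lt_mul_of_pos_right h11 h10
    rw [h8] at h5
    exact absurd (h5.trans h6) (not_le.2 h12)
  obtain ⟨s, hs⟩ := hex
  refine ⟨s, fun y => ?_⟩
  have hD : ∃ D : Finset W, 3 * D.card ≤ m ∧ ∀ w, w ∉ D →
      (w, s w) ∉ Sset (hits y) (fun w => if w ∈ D then some (s w) else none) := by
    by_contra hcon
    push Not at hcon
    apply hs y
    have h1 := steps_of_bad (Sset (hits y)) s m hcon K ∅ (by rw [hK]; simp)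
    simpa using h1
  obtain ⟨D, hD1, hD2⟩ := hD
  refine ⟨D, by rw [← hm]; exact hD1, ?_⟩
  obtain ⟨t, ht⟩ : ∃ t : W → Option U, t = fun w => if w ∈ D then some (s w) else none := ⟨_, rfl⟩
  rw [← ht] at hD2 ⊢
  have hm0 : 0 < m := by omega
  have h1 : (univ.filter (fun ω : Ω => ∃ w ∉ D, (w, s w) ∈ hits y t ω)).card ≤
      ∑ w ∈ univ.filter (fun w => w ∉ D), (univ.filter (fun ω : Ω => (w, s w) ∈ hits y t ω)).card := by
    refine (Finset.card_le_card ?_).trans Finset.card_biUnion_le
    intro ω hω
    rw [Finset.mem_filter] at hω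
    obtain ⟨_, w, hw1, hw2⟩ := hω
    rw [Finset.mem_biUnion]
    exact ⟨w, by simpa using hw1, by simpa using hw2⟩
  have h2 : m * (6 * (univ.filter (fun ω : Ω => ∃ w ∉ D, (w, s w) ∈ hits y t ω)).card) ≤
      m * Fintype.card Ω := by
    calc m * (6 * (univ.filter (fun ω : Ω => ∃ w ∉ D, (w, s w) ∈ hits y t ω)).card)
        ≤ m * (6 * ∑ w ∈ univ.filter (fun w => w ∉ D),
          (univ.filter (fun ω : Ω => (w, s w) ∈ hits y t ω)).card) :=
          Nat.mul_le_mul_left _ (Nat.mul_le_mul_left _ h1)
      _ = ∑ w ∈ univ.filter (fun w => w ∉ D),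
          6 * m * (univ.filter (fun ω : Ω => (w, s w) ∈ hits y t ω)).card := by
          rw [← Finset.mul_sum]; ring
      _ ≤ ∑ _w ∈ univ.filter (fun w => w ∉ D), Fintype.card Ω := by
          apply Finset.sum_le_sum
          intro w hw
          rw [Finset.mem_filter] at hw
          have h3 := hD2 w hw.2
          unfold Sset at h3
          rw [Finset.mem_filter] at h3
          push Not at h3
          have h4 := h3 (Finset.mem_univ _)
          rw [hm]
          convert h4
      _ ≤ m * Fintype.card Ω := by
          rw [Finset.sum_const, smul_eq_mul]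
          apply Nat.mul_le_mul_right
          rw [hm, ← Finset.card_univ]
          exact Finset.card_filter_le _ _
  exact Nat.le_of_mul_le_mul_left h2 hm0


theorem task : Pool.Agent.W886.AM.S_CORE := by
  intro r n q p Ω Y _ _ hits hq hY hN hp
  have hW : Fintype.card (Fin r → Bool) = 2 ^ r := by simp
  have hU : Fintype.card (Fin n → Bool) = 2 ^ n := by simp
  obtain ⟨s, hs⟩ := core (W := Fin r → Bool) (U := Fin n → Bool) (Ω := Ω) hits q p hq hY
    (by rw [hW, hU]; exact hN) (by rw [hU]; positivity) (by rw [hW]; exact hp)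
  refine ⟨s, fun y => ?_⟩
  obtain ⟨D, hD1, hD2⟩ := hs y
  refine ⟨D, by rw [← hW]; exact hD1, ?_⟩
  convert hD2

end Pool.Agent.W585.AMC
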