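import Mathlib
import Pool.Agent.H660R4.Dev
import Pool.Agent.Helper186.LocalFlow

/-! Smooth dependence of framed geodesics on parameters. -/

set_option autoImplicit false
set_option maxSynthPendingDepth 3
set_option linter.unusedSectionVars false
set_option linter.deprecated false

open Set Filter Topology Metric
open scoped ContDiff Manifold

namespace Pool.Agent.W585

open Pool.Agent.H660R4

variable {E : Type} [NormedAddCommGroup E] [NormedSpace ℝ E] [FiniteDimensional ℝ E]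
  {M : Type*} [TopologicalSpace M] [ChartedSpace E M] [IsManifold 𝓘(ℝ, E) ∞ M]
  {W : Type} [NormedAddCommGroup W] [NormedSpace ℝ W] [FiniteDimensional ℝ W]
  {Q : Type} [NormedAddCommGroup Q] [NormedSpace ℝ Q]
  (c : LC E M)

/-- smooth dependence at a fixed time -/
def SmAt (n : ℕ) (U : Q → M × (W →L[ℝ] E)) (q₀ : Q) : Prop :=
  ContinuousAt (fun q => (U q).1) q₀ ∧
    ∀ a, (U q₀).1 ∈ (chartAt E a).source → ContDiffAt ℝ n (fun q => co a (U q)) q₀

theorem smAt_of {n : ℕ} {U : Q → M × (W →L[ℝ] E)} {q₀ : Q} (hc : ContinuousAt (fun q => (U q).1) q₀)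
    {b : M} (hb : (U q₀).1 ∈ (chartAt E b).source)
    (h : ContDiffAt ℝ n (fun q => co b (U q)) q₀) : SmAt n U q₀ := by
  refine ⟨hc, fun a ha => ?_⟩
  have hev : (fun q => co a (U q)) =ᶠ[𝓝 q₀]
      fun q => (tr b a (co b (U q)).1, (Jc b a (co b (U q)).1).comp (co b (U q)).2) := by
    filter_upwards [hc.eventually_mem ((chartAt E b).open_source.mem_nhds hb),
      hc.eventually_mem ((chartAt E a).open_source.mem_nhds ha)] with q h1 h2
    exact co_change h1 h2
  refine ContDiffAt.congr_of_eventuallyEq ?_ hev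
  have htr : ContDiffAt ℝ ∞ (tr b a) (co b (U q₀)).1 := tr_contDiffAt hb ha
  have hJ : ContDiffAt ℝ ∞ (Jc b a) (co b (U q₀)).1 := htr.fderiv_right (by norm_num)
  have h1 : ContDiffAt ℝ n (fun q => (co b (U q)).1) q₀ := h.fst
  have h2 : ContDiffAt ℝ n (fun q => (co b (U q)).2) q₀ := h.snd
  have h3 : ContDiffAt ℝ n (fun q => tr b a (co b (U q)).1) q₀ :=
    ContDiffAt.comp (g := tr b a) q₀ (htr.of_le (by exact_mod_cast le_top)) h1
  have h4 : ContDiffAt ℝ n (fun q => Jc b a (co b (U q)).1) q₀ :=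
    ContDiffAt.comp (g := Jc b a) q₀ (hJ.of_le (by exact_mod_cast le_top)) h1
  exact h3.prodMk (h4.clm_comp h2)

theorem smooth_dep [T2Space M] {n : ℕ} (hn : n ≠ 0) {U : Q → ℝ → M × (W →L[ℝ] E)} {y : Q → W}
    {q₀ : Q} (hU : ∀ q, FG c (y q) (U q) univ) (hy : ContDiffAt ℝ n y q₀)
    (h0 : SmAt n (fun q => U q 0) q₀) : ∀ t ∈ Icc (0:ℝ) 1, SmAt n (fun q => U q t) q₀ := by
  refine forward_ind (N := fun t => SmAt n (fun q => U q t) q₀) h0 fun ts hts => ?_
  set a := (U q₀ ts).1 with ha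
  have has : (U q₀ ts).1 ∈ (chartAt E a).source := mem_chart_source E _
  set zs : (E × (W →L[ℝ] E)) × W := (co a (U q₀ ts), y q₀) with hzs
  set dom : Set ((E × (W →L[ℝ] E)) × W) := {z | z.1.1 ∈ (chartAt E a).target} with hdom
  have hzd : zs ∈ dom := (chartAt E a).map_source has
  have hvf : ContDiffAt ℝ n (vf c a) zs :=
    ((vf_contDiffOn c a).contDiffAt ((isOpen_dom a).mem_nhds hzd)).of_le
      (by exact_mod_cast le_top)
  obtain ⟨r, hr, ε, hε, α, hα0, hαd, hαs⟩ := Pool.Agent.Helper186.exists_local_flow hn hvf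
  have hα00 : α (zs, 0) = zs := hα0 zs (mem_closedBall_self hr.le)
  have e1 : ∀ᶠ q in 𝓝 ((zs, 0) : ((E × (W →L[ℝ] E)) × W) × ℝ), α q ∈ dom ∧ ContDiffAt ℝ n α q := by
    refine (hαs.continuousAt.eventually_mem ?_).and (hαs.eventually (by simp))
    rw [hα00]
    exact (isOpen_dom a).mem_nhds hzd
  rw [nhds_prod_eq, Filter.eventually_prod_iff] at e1
  obtain ⟨P, hP, P', hP', hPP⟩ := e1
  obtain ⟨r1, hr1, hr1'⟩ := Metric.eventually_nhds_iff_ball.1 hP
  obtain ⟨ε1, hε1, hε1'⟩ := Metric.eventually_nhds_iff_ball.1 hP'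
  set ρ := min r1 r with hρ
  have hρ0 : 0 < ρ := lt_min hr1 hr
  set η := min ε1 ε with hη
  have hη0 : 0 < η := lt_min hε1 hε
  have hgood : ∀ z ∈ ball zs ρ, ∀ t : ℝ, |t| < η → α (z, t) ∈ dom ∧ ContDiffAt ℝ n α (z, t) ∧
      HasDerivAt (fun s => α (z, s)) (vf c a (α (z, t))) t := by
    intro z hz t ht
    have h1 := hPP (hr1' z (ball_subset_ball (min_le_left _ _) hz)) (hε1' t (by
      rw [mem_ball, Real.dist_eq, sub_zero]; exact ht.trans_le (min_le_left _ _)))
    refine ⟨h1.1, h1.2, hαd z (ball_subset_closedBall (ball_subset_ball (min_le_right _ _) hz)) t ?_⟩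
    exact abs_lt.1 (ht.trans_le (min_le_right _ _))
  have hc1 : ContinuousAt (fun t => (co a (U q₀ t), y q₀)) ts :=
    ((hU q₀ ts (mem_univ _)).hasVf c has).continuousAt
  have e2 := hc1.eventually_mem (ball_mem_nhds _ hρ0)
  have e3 := eventually_source (hU q₀ ts (mem_univ _)).1 has
  obtain ⟨δ1, hδ1, hδ1'⟩ := Metric.eventually_nhds_iff_ball.1 (e2.and e3)
  refine ⟨min δ1 (η / 2), lt_min hδ1 (half_pos hη0), fun t1 ht1 t2 ht2 hd1 hd2 hle hN => ?_⟩
  have hd1' : |t1 - ts| < δ1 := hd1.trans_le (min_le_left _ _)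
  have hd12 : |t2 - t1| < η := by
    have h1 : |t1 - ts| < η / 2 := hd1.trans_le (min_le_right _ _)
    have h2 : |t2 - ts| < η / 2 := hd2.trans_le (min_le_right _ _)
    rw [abs_lt] at *
    constructor <;> linarith
  obtain ⟨hb1, hsrc1⟩ := hδ1' t1 (by rw [mem_ball, Real.dist_eq]; exact hd1')
  have hz1 : ContDiffAt ℝ n (fun q => (co a (U q t1), y q)) q₀ := (hN.2 a hsrc1).prodMk hy
  have e4 : ∀ᶠ q in 𝓝 q₀, (co a (U q t1), y q) ∈ ball zs ρ :=
    hz1.continuousAt.eventually_mem (isOpen_ball.mem_nhds hb1)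
  have e5 : ∀ᶠ q in 𝓝 q₀, (U q t1).1 ∈ (chartAt E a).source :=
    hN.1.eventually_mem ((chartAt E a).open_source.mem_nhds hsrc1)
  have key : ∀ᶠ q in 𝓝 q₀, α ((co a (U q t1), y q), t2 - t1) ∈ dom ∧
      U q t2 = li a (α ((co a (U q t1), y q), t2 - t1)).1 := by
    filter_upwards [e4, e5] with q h1 h2
    refine ⟨(hgood _ h1 _ hd12).1, ?_⟩
    set z : ℝ → (E × (W →L[ℝ] E)) × W := fun t => α ((co a (U q t1), y q), t - t1) with hz
    have hzt1 : z t1 = (co a (U q t1), y q) := by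
      simp only [hz, sub_self]
      exact hα0 _ (ball_subset_closedBall (ball_subset_ball (min_le_right _ _) h1))
    have hzd' : ∀ t ∈ Ioo (t1 - η) (t1 + η), z t ∈ dom ∧ HasDerivAt z (vf c a (z t)) t := by
      intro t ht
      have h3 : |t - t1| < η := by
        rw [abs_lt]; constructor <;> linarith [ht.1, ht.2]
      obtain ⟨h4, -, h5⟩ := hgood _ h1 _ h3
      refine ⟨h4, ?_⟩
      have h6 := HasDerivAt.scomp t h5 ((hasDerivAt_id t).sub_const t1)
      rw [one_smul] at h6
      exact h6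
    have hzc := vf_const c hη0 fun t ht => (hzd' t ht).2
    rw [hzt1] at hzc
    simp only at hzc
    have hFG : FG c (y q) (fun t => li a (z t).1) (Ioo (t1 - η) (t1 + η)) := by
      intro t ht
      refine hasVel_li c (z := fun t => (z t).1) (hzd' t ht).1 ?_
      have h7 := (hzd' t ht).2.fst
      simp only [vf, hzc t ht] at h7
      exact h7
    refine FG.unique c isOpen_Ioo isPreconnected_Ioo ((hU q).mono c (subset_univ _)) hFG
      (t₀ := t1) ⟨by linarith, by linarith⟩ ?_ ?_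
    · rw [abs_lt] at hd12
      exact ⟨by linarith, by linarith⟩
    · rw [hzt1, li_co h2]
  have hk0 := key.self_of_nhds
  have hcomp : ContDiffAt ℝ n (fun q => α ((co a (U q t1), y q), t2 - t1)) q₀ := by
    have h1 := (hgood _ hb1 _ hd12).2.1
    exact ContDiffAt.comp (g := α) q₀ h1 (hz1.prodMk contDiffAt_const)
  have hsrc2 : (U q₀ t2).1 ∈ (chartAt E a).source := by
    rw [hk0.2]
    exact (chartAt E a).map_target hk0.1
  refine smAt_of (b := a) ?_ hsrc2 ?_
  · have h1 : (fun q => (U q t2).1) =ᶠ[𝓝 q₀]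
        fun q => (chartAt E a).symm (α ((co a (U q t1), y q), t2 - t1)).1.1 := by
      filter_upwards [key] with q hq
      exact congrArg Prod.fst hq.2
    refine ContinuousAt.congr ?_ h1.symm
    exact ContinuousAt.comp_of_eq ((chartAt E a).continuousAt_symm hk0.1)
      hcomp.continuousAt.fst.fst rfl
  · refine hcomp.fst.congr_of_eventuallyEq ?_
    filter_upwards [key] with q hq
    rw [hq.2]
    exact co_li hq.1

/-! ### the exponential map -/

section Exp

variable (p : M) (V : E → ℝ → M × (ℝ →L[ℝ] E))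

/-- the exponential map of a family of framed geodesics -/
def expm (v : E) : M := (V v 1).1

variable {p V} [T2Space M] (hV0 : ∀ v, V v 0 = (p, ContinuousLinearMap.toSpanSingleton ℝ v))
  (hV : ∀ v, FG c (1 : ℝ) (V v) univ)

include hV0 in
theorem smAt_zero (n : ℕ) (v : E) : SmAt n (fun w => V w 0) v := by
  have h1 : (fun w => V w 0) = fun w => (p, ContinuousLinearMap.toSpanSingleton ℝ w) :=
    funext hV0
  rw [h1]
  refine ⟨continuousAt_const, fun a _ => ?_⟩
  simp only [co]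
  refine contDiffAt_const.prodMk (contDiffAt_const.clm_comp ?_)
  have : ContDiff ℝ n (fun w : E => ContinuousLinearMap.toSpanSingletonCLE (𝕜 := ℝ) (E := E) w) :=
    ContinuousLinearEquiv.contDiff _
  exact this.contDiffAt

include hV0 hV in
theorem smAt_V (n : ℕ) (v : E) {t : ℝ} (ht : t ∈ Icc (0:ℝ) 1) : SmAt n (fun w => V w t) v := by
  have hmain : ∀ m : ℕ, m ≠ 0 → SmAt m (fun w => V w t) v := fun m hm =>
    smooth_dep c hm (y := fun _ => (1:ℝ)) hV contDiffAt_const (smAt_zero hV0 m v) t ht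
  obtain ⟨h1, h2⟩ := hmain (n + 1) (by simp)
  exact ⟨h1, fun a ha => (h2 a ha).of_le (by exact_mod_cast Nat.le_succ n)⟩

include hV0 hV in
theorem contDiffAt_V (v : E) {t : ℝ} (ht : t ∈ Icc (0:ℝ) 1) {a : M}
    (ha : (V v t).1 ∈ (chartAt E a).source) : ContDiffAt ℝ ∞ (fun w => co a (V w t)) v :=
  contDiffAt_infty.2 fun n => (smAt_V c hV0 hV n v ht).2 a ha

include hV0 hV in
theorem continuous_expm : Continuous (expm V) :=
  continuous_iff_continuousAt.2 fun v => (smAt_V c hV0 hV 0 v ⟨zero_le_one, le_rfl⟩).1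

include hV0 hV in
theorem contDiffAt_expm (v : E) {a : M} (ha : expm V v ∈ (chartAt E a).source) :
    ContDiffAt ℝ ∞ (fun w => chartAt E a (expm V w)) v :=
  (contDiffAt_V c hV0 hV v ⟨zero_le_one, le_rfl⟩ ha).fst

include hV0 hV in
/-- geodesics are the images of rays -/
theorem V_eq (v : E) (t : ℝ) : V (t • v) 1 = ((V v t).1, t • (V v t).2) := by
  have h1 : FG c (1:ℝ) (fun s => ((V v (t * s)).1,
      (V v (t * s)).2.comp (t • ContinuousLinearMap.id ℝ ℝ))) univ := by
    intro s _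
    have h2 := (hV v (t * s) (mem_univ _)).reparam (t := s) c (g := fun s => t * s) (k := t)
      (by simpa using (hasDerivAt_id s).const_mul t)
    refine h2.right c (j := fun _ => t • ContinuousLinearMap.id ℝ ℝ) (j' := 0)
      (hasDerivAt_const s _) ?_ (by simp)
    simp
  have h2 := FG.unique c isOpen_univ isPreconnected_univ (hV (t • v)) h1 (t₀ := 0) (t := 1)
    (mem_univ _) (mem_univ _) (by
      rw [hV0, mul_zero, hV0]
      refine Prod.ext rfl ?_
      ext
      simp)
  rw [h2, mul_one]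
  refine Prod.ext rfl ?_
  ext
  simp

include hV0 hV in
theorem expm_smul (v : E) (t : ℝ) : expm V (t • v) = (V v t).1 := by
  rw [expm, V_eq c hV0 hV]

end Exp

end Pool.Agent.W585
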