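import Mathlib
import Pool.Agent.W585.Dep

/-! Jacobi fields: local computations. -/

set_option autoImplicit false
set_option maxSynthPendingDepth 3
set_option linter.unusedSectionVars false
set_option linter.deprecated false

open Set Filter Topology Metric
open scoped ContDiff Manifold

namespace Pool.Agent.W585

open Pool.Agent.H660R4

/-! ### a scalar inequality -/

/-- If `h'' ≥ 0` and `2 h h'' ≥ h'^2` on `(0,1]` and `h(0) = 0 ≤ h` then `h'(1) ≥ 2 h(1)`. -/
theorem scalar_ineq {h h' h'' : ℝ → ℝ} (hd : ∀ t ∈ Icc (0:ℝ) 1, HasDerivAt h (h' t) t)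
    (hd' : ∀ t ∈ Ioc (0:ℝ) 1, HasDerivAt h' (h'' t) t) (h0 : h 0 = 0)
    (hnn : ∀ t ∈ Icc (0:ℝ) 1, 0 ≤ h t)
    (h2 : ∀ t ∈ Ioc (0:ℝ) 1, 0 ≤ h'' t) (h3 : ∀ t ∈ Ioc (0:ℝ) 1, h' t ^ 2 ≤ 2 * h t * h'' t) :
    2 * h 1 ≤ h' 1 := by
  -- for every `e > 0`
  have key : ∀ e : ℝ, 0 < e → 2 * (h 1 + e) - 2 * (Real.sqrt e * Real.sqrt (h 1 + e)) ≤ h' 1 := by
    intro e he
    set w : ℝ → ℝ := fun t => Real.sqrt (h t + e) with hw
    have hpos : ∀ t ∈ Icc (0:ℝ) 1, 0 < h t + e := fun t ht => by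
      have := hnn t ht; linarith
    have hwd : ∀ t ∈ Icc (0:ℝ) 1, HasDerivAt w (h' t / (2 * Real.sqrt (h t + e))) t := by
      intro t ht
      exact ((hd t ht).add_const e).sqrt (hpos t ht).ne'
    set w' : ℝ → ℝ := fun t => h' t / (2 * Real.sqrt (h t + e)) with hw'
    -- mean value theorem
    have hcont : ContinuousOn w (Icc 0 1) := fun t ht => (hwd t ht).continuousAt.continuousWithinAt
    obtain ⟨ξ, hξ, hξ'⟩ := exists_hasDerivAt_eq_slope w w' zero_lt_one hcont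
      (fun t ht => hwd t ⟨ht.1.le, ht.2.le⟩)
    rw [sub_zero, div_one] at hξ'
    -- monotonicity of `w'` on `[ξ,1]`
    have hw'd : ∀ t ∈ Ioc (0:ℝ) 1, HasDerivAt w'
        ((h'' t * (2 * Real.sqrt (h t + e)) - h' t * (2 * (h' t / (2 * Real.sqrt (h t + e))))) /
          (2 * Real.sqrt (h t + e)) ^ 2) t := by
      intro t ht
      have h5 := (hwd t ⟨ht.1.le, ht.2⟩).const_mul 2
      exact (hd' t ht).div h5 (mul_ne_zero two_ne_zero (Real.sqrt_pos.2 (hpos t ⟨ht.1.le, ht.2⟩)).ne')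
    have hmono : MonotoneOn w' (Icc ξ 1) := by
      have hsub : Icc ξ 1 ⊆ Ioc (0:ℝ) 1 := fun t ht => ⟨hξ.1.trans_le ht.1, ht.2⟩
      refine monotoneOn_of_deriv_nonneg (convex_Icc ξ 1)
        (fun t ht => (hw'd t (hsub ht)).continuousAt.continuousWithinAt)
        (fun t ht => (hw'd t (hsub (interior_subset ht))).differentiableAt.differentiableWithinAt) ?_
      intro t ht
      have ht' := hsub (interior_subset ht)
      rw [(hw'd t ht').deriv]
      set s := Real.sqrt (h t + e) with hs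
      have hp := hpos t ⟨ht'.1.le, ht'.2⟩
      have hsp : 0 < s := Real.sqrt_pos.2 hp
      have hs2 : s ^ 2 = h t + e := Real.sq_sqrt hp.le
      apply div_nonneg _ (by positivity)
      have e1 : h'' t * (2 * s) - h' t * (2 * (h' t / (2 * s))) =
          (2 * s ^ 2 * h'' t - h' t ^ 2) / s := by
        field_simp
      rw [e1]
      apply div_nonneg _ hsp.le
      rw [hs2]
      have := h3 t ht'
      have := h2 t ht'
      nlinarith
    have h6 : w' ξ ≤ w' 1 := hmono ⟨le_rfl, hξ.2.le⟩ ⟨hξ.2.le, le_rfl⟩ hξ.2.le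
    rw [hξ'] at h6
    set s := Real.sqrt (h 1 + e) with hs
    have hp1 := hpos 1 ⟨zero_le_one, le_rfl⟩
    have hsp : 0 < s := Real.sqrt_pos.2 hp1
    have hs2 : s ^ 2 = h 1 + e := Real.sq_sqrt hp1.le
    have hw1 : w 1 = s := rfl
    have hw0 : w 0 = Real.sqrt e := by simp [hw, h0]
    have hw'1 : w' 1 = h' 1 / (2 * s) := rfl
    rw [hw1, hw0, hw'1, le_div_iff₀ (by positivity)] at h6
    rw [← hs2]
    nlinarith
  -- let `e → 0`
  have hlim : Tendsto (fun e : ℝ => 2 * (h 1 + e) - 2 * (Real.sqrt e * Real.sqrt (h 1 + e)))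
      (𝓝[>] 0) (𝓝 (2 * (h 1 + 0) - 2 * (Real.sqrt 0 * Real.sqrt (h 1 + 0)))) := by
    apply Tendsto.mono_left _ nhdsWithin_le_nhds
    apply Continuous.tendsto
    fun_prop
  rw [add_zero, Real.sqrt_zero, zero_mul, mul_zero, sub_zero] at hlim
  refine le_of_tendsto hlim ?_
  filter_upwards [self_mem_nhdsWithin] with e he
  exact key e he

section Local

variable {E : Type} [NormedAddCommGroup E] [NormedSpace ℝ E] [FiniteDimensional ℝ E]
  {M : Type*} [TopologicalSpace M] [ChartedSpace E M] [IsManifold 𝓘(ℝ, E) ∞ M]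
  (c : LC E M)

/-- a Riemannian metric of nonpositive curvature -/
structure Riem : Prop where
  sym : ∀ a y u v, c.G a y u v = c.G a y v u
  pos : ∀ a, ∀ y ∈ (chartAt E a).target, ∀ v, v ≠ 0 → 0 < c.G a y v v
  npc : ∀ a, ∀ y ∈ (chartAt E a).target, ∀ u v, c.G a y (curv (c.Γ a) y u v v) u ≤ 0
  smG : ∀ a, ContDiffOn ℝ ∞ (c.G a) (chartAt E a).target

theorem curv_anti (Γ : E → E →L[ℝ] E →L[ℝ] E) (y u v w : E) :
    curv Γ y u v w = - curv Γ y v u w := by
  simp only [curv]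
  abel

variable {c} (hR : Riem c)

include hR in
theorem Riem.nn {a : M} {y : E} (hy : y ∈ (chartAt E a).target) (v : E) : 0 ≤ c.G a y v v := by
  by_cases hv : v = 0
  · simp [hv]
  · exact (hR.pos a y hy v hv).le

include hR in
theorem Riem.cs {a : M} {y : E} (hy : y ∈ (chartAt E a).target) (u v : E) :
    (c.G a y u v) ^ 2 ≤ c.G a y u u * c.G a y v v := by
  by_cases hv : v = 0
  · simp [hv]
  · have hp := hR.pos a y hy v hv
    have h := hR.nn hy (c.G a y v v • u - c.G a y u v • v)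
    have e : c.G a y (c.G a y v v • u - c.G a y u v • v) (c.G a y v v • u - c.G a y u v • v) =
        c.G a y v v * (c.G a y v v * c.G a y u u - (c.G a y u v) ^ 2) := by
      simp only [map_sub, map_smul, sub_apply, smul_apply, smul_eq_mul]
      rw [hR.sym a y v u]
      ring
    rw [e] at h
    nlinarith [nonneg_of_mul_nonneg_right h hp]

include hR in
theorem Riem.curv_nonneg {a : M} {y : E} (hy : y ∈ (chartAt E a).target) (u v : E) :
    0 ≤ c.G a y (curv (c.Γ a) y u v u) v := by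
  have := hR.npc a y hy v u
  rw [curv_anti, map_neg, neg_apply]
  linarith

/-- first derivative of the energy of a Jacobi field -/
theorem energy_deriv {a : M} {x τ σ ς : ℝ → E} {t : ℝ} (hR : Riem c)
    (hy : x t ∈ (chartAt E a).target)
    (hx : HasDerivAt x (τ t) t) (hσ : HasDerivAt σ (ς t) t) :
    HasDerivAt (fun t => c.G a (x t) (σ t) (σ t))
      (2 * c.G a (x t) (ς t + c.Γ a (x t) (τ t) (σ t)) (σ t)) t := by
  have hG : HasDerivAt (fun t => c.G a (x t)) (fderiv ℝ (c.G a) (x t) (τ t)) t :=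
    HasFDerivAt.comp_hasDerivAt (l := c.G a) t (c.dG a _ hy).hasFDerivAt hx
  refine ((hG.clm_apply hσ).clm_apply hσ).congr_deriv ?_
  simp only [add_apply, map_add]
  rw [c.compat a _ hy, hR.sym a (x t) (σ t) (ς t), hR.sym a (x t) (σ t) (c.Γ a (x t) (τ t) (σ t))]
  ring

/-- second derivative -/
theorem energy_deriv2 {a : M} {x τ σ ς : ℝ → E} {t : ℝ}
    (hy : x t ∈ (chartAt E a).target)
    (hx : HasDerivAt x (τ t) t) (hτ : HasDerivAt τ (-(c.Γ a (x t) (τ t) (τ t))) t)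
    (hσ : HasDerivAt σ (ς t) t)
    (hς : HasDerivAt ς (-(fderiv ℝ (c.Γ a) (x t) (σ t) (τ t) (τ t) +
      2 • c.Γ a (x t) (ς t) (τ t))) t) :
    HasDerivAt (fun t => 2 * c.G a (x t) (ς t + c.Γ a (x t) (τ t) (σ t)) (σ t))
      (2 * c.G a (x t) (curv (c.Γ a) (x t) (τ t) (σ t) (τ t)) (σ t) +
        2 * c.G a (x t) (ς t + c.Γ a (x t) (τ t) (σ t)) (ς t + c.Γ a (x t) (τ t) (σ t))) t := by
  have hG : HasDerivAt (fun t => c.G a (x t)) (fderiv ℝ (c.G a) (x t) (τ t)) t :=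
    HasFDerivAt.comp_hasDerivAt (l := c.G a) t (c.dG a _ hy).hasFDerivAt hx
  have hΓd : DifferentiableAt ℝ (c.Γ a) (x t) :=
    ((c.smooth a).contDiffAt ((chartAt E a).open_target.mem_nhds hy)).differentiableAt
      (by norm_num)
  have hΓ : HasDerivAt (fun t => c.Γ a (x t)) (fderiv ℝ (c.Γ a) (x t) (τ t)) t :=
    HasFDerivAt.comp_hasDerivAt (l := c.Γ a) t hΓd.hasFDerivAt hx
  have hD := hς.add ((hΓ.clm_apply hτ).clm_apply hσ)
  have hall := ((hG.clm_apply hD).clm_apply hσ).const_mul 2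
  refine hall.congr_deriv ?_
  -- symmetry of the derivative of `Γ`
  have hsymΓ : ∀ u v w, fderiv ℝ (c.Γ a) (x t) u v w = fderiv ℝ (c.Γ a) (x t) u w v := by
    intro u v w
    have e1 : HasFDerivAt (fun z => c.Γ a z v w) _ (x t) :=
      (hΓd.hasFDerivAt.clm_apply (hasFDerivAt_const v (x t))).clm_apply (hasFDerivAt_const w (x t))
    have e2 : HasFDerivAt (fun z => c.Γ a z w v) _ (x t) :=
      (hΓd.hasFDerivAt.clm_apply (hasFDerivAt_const w (x t))).clm_apply (hasFDerivAt_const v (x t))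
    have ev : (fun z => c.Γ a z v w) =ᶠ[𝓝 (x t)] fun z => c.Γ a z w v := by
      filter_upwards [(chartAt E a).open_target.mem_nhds hy] with z hz
      exact c.symm a z hz v w
    have e3 := e1.fderiv
    rw [ev.fderiv_eq, e2.fderiv] at e3
    have e4 := congrArg (fun L : E →L[ℝ] E => L u) e3
    simp at e4
    exact e4.symm
  have hc : c.G a (x t) (curv (c.Γ a) (x t) (τ t) (σ t) (τ t)) (σ t) =
      c.G a (x t) (fderiv ℝ (c.Γ a) (x t) (τ t) (τ t) (σ t)) (σ t) -
      c.G a (x t) (fderiv ℝ (c.Γ a) (x t) (σ t) (τ t) (τ t)) (σ t) +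
      c.G a (x t) (c.Γ a (x t) (τ t) (c.Γ a (x t) (τ t) (σ t))) (σ t) -
      c.G a (x t) (c.Γ a (x t) (c.Γ a (x t) (τ t) (τ t)) (σ t)) (σ t) := by
    simp only [curv, map_add, map_sub, add_apply, sub_apply]
    rw [hsymΓ (τ t) (σ t) (τ t), c.symm a (x t) hy (σ t) (τ t),
      c.symm a (x t) hy (σ t) (c.Γ a (x t) (τ t) (τ t))]
  have h2 : c.G a (x t) (2 • c.Γ a (x t) (ς t) (τ t)) (σ t) =
      2 * c.G a (x t) (c.Γ a (x t) (τ t) (ς t)) (σ t) := by
    rw [c.symm a (x t) hy (ς t) (τ t)]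
    simp [two_smul, two_mul]
  rw [hc]
  simp only [Pi.add_apply, add_apply, map_neg, neg_apply, map_add, c.compat a (x t) hy, h2]
  ring

/-- derivative of `g(γ', Y)` -/
theorem pair_deriv {a : M} {x τ σ ς : ℝ → E} {t : ℝ}
    (hy : x t ∈ (chartAt E a).target)
    (hx : HasDerivAt x (τ t) t) (hτ : HasDerivAt τ (-(c.Γ a (x t) (τ t) (τ t))) t)
    (hσ : HasDerivAt σ (ς t) t) :
    HasDerivAt (fun t => c.G a (x t) (τ t) (σ t))
      (c.G a (x t) (τ t) (ς t + c.Γ a (x t) (τ t) (σ t))) t := by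
  have hG : HasDerivAt (fun t => c.G a (x t)) (fderiv ℝ (c.G a) (x t) (τ t)) t :=
    HasFDerivAt.comp_hasDerivAt (l := c.G a) t (c.dG a _ hy).hasFDerivAt hx
  refine ((hG.clm_apply hτ).clm_apply hσ).congr_deriv ?_
  simp only [add_apply, map_add, map_neg, neg_apply]
  rw [c.compat a _ hy]
  ring

end Local

end Pool.Agent.W585
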