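import Mathlib
import Pool.Agent.W585.Jac

/-! The pulled back metric under the exponential map: Gauss lemma and monotonicity. -/

set_option autoImplicit false
set_option maxSynthPendingDepth 3
set_option linter.unusedSectionVars false
set_option linter.deprecated false

open Set Filter Topology Metric
open scoped ContDiff Manifold

namespace Pool.Agent.W585

open Pool.Agent.H660R4

variable {E : Type} [NormedAddCommGroup E] [NormedSpace ℝ E] [FiniteDimensional ℝ E]
  {M : Type*} [TopologicalSpace M] [ChartedSpace E M] [IsManifold 𝓘(ℝ, E) ∞ M]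
  (c : LC E M) {p : M} {V : E → ℝ → M × (ℝ →L[ℝ] E)} [T2Space M]
  (hV0 : ∀ v, V v 0 = (p, ContinuousLinearMap.toSpanSingleton ℝ v))
  (hV : ∀ v, FG c (1 : ℝ) (V v) univ)

/-- the exponential map in a chart -/
noncomputable def psi (V : E → ℝ → M × (ℝ →L[ℝ] E)) (a : M) (w : E) : E := chartAt E a (expm V w)

include hV0 hV in
theorem contDiffAt_psi {w : E} {a : M} (ha : expm V w ∈ (chartAt E a).source) :
    ContDiffAt ℝ ∞ (psi V a) w := contDiffAt_expm c hV0 hV w ha

include hV0 hV in
theorem psi_change {w : E} {a b : M} (ha : expm V w ∈ (chartAt E a).source)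
    (hb : expm V w ∈ (chartAt E b).source) :
    fderiv ℝ (psi V b) w = (Jc a b (psi V a w)).comp (fderiv ℝ (psi V a) w) := by
  have hc : ContinuousAt (expm V) w := (continuous_expm c hV0 hV).continuousAt
  have hev : psi V b =ᶠ[𝓝 w] fun z => tr a b (psi V a z) := by
    filter_upwards [hc.eventually_mem ((chartAt E a).open_source.mem_nhds ha)] with z hz
    exact (tr_apply hz).symm
  rw [hev.fderiv_eq]
  have h1 : DifferentiableAt ℝ (tr a b) (psi V a w) :=
    (tr_contDiffAt ha hb).differentiableAt (by norm_num)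
  have h2 : DifferentiableAt ℝ (psi V a) w :=
    (contDiffAt_psi c hV0 hV ha).differentiableAt (by norm_num)
  exact fderiv_fun_comp w h1 h2

/-- the pulled back metric -/
noncomputable def GG (V : E → ℝ → M × (ℝ →L[ℝ] E)) (x u v : E) : ℝ :=
  c.G (expm V x) (psi V (expm V x) x) (fderiv ℝ (psi V (expm V x)) x u)
    (fderiv ℝ (psi V (expm V x)) x v)

include hV0 hV in
theorem GG_chart {x : E} {a : M} (ha : expm V x ∈ (chartAt E a).source) (u v : E) :
    GG c V x u v = c.G a (psi V a x) (fderiv ℝ (psi V a) x u) (fderiv ℝ (psi V a) x v) := by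
  have h1 := c.hG a (expm V x) (expm V x) ha (mem_chart_source E _)
    (fderiv ℝ (psi V a) x u) (fderiv ℝ (psi V a) x v)
  have h2 := psi_change c hV0 hV ha (mem_chart_source E (expm V x))
  rw [GG, h2]
  exact h1.symm

section Ray

variable (x v : E) (a : M)

/-- the variation of the ray in the chart at `a` -/
noncomputable def ff (V : E → ℝ → M × (ℝ →L[ℝ] E)) (x v : E) (a : M) (z : ℝ × ℝ) : E :=
  psi V a (z.2 • (x + z.1 • v))

/-- the domain -/
def OO (V : E → ℝ → M × (ℝ →L[ℝ] E)) (x v : E) (a : M) : Set (ℝ × ℝ) :=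
  {z | expm V (z.2 • (x + z.1 • v)) ∈ (chartAt E a).source}

/-- `∂_t f` -/
noncomputable def TT (V : E → ℝ → M × (ℝ →L[ℝ] E)) (x v : E) (a : M) (z : ℝ × ℝ) : E :=
  fderiv ℝ (ff V x v a) z (0, 1)

/-- `∂_s f` -/
noncomputable def SS (V : E → ℝ → M × (ℝ →L[ℝ] E)) (x v : E) (a : M) (z : ℝ × ℝ) : E :=
  fderiv ℝ (ff V x v a) z (1, 0)

/-- `∂_s ∂_t f` -/
noncomputable def RR (V : E → ℝ → M × (ℝ →L[ℝ] E)) (x v : E) (a : M) (z : ℝ × ℝ) : E :=
  fderiv ℝ (TT V x v a) z (1, 0)

include hV0 hV in
theorem isOpen_OO : IsOpen (OO V x v a) :=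
  (chartAt E a).open_source.preimage ((continuous_expm c hV0 hV).comp (by fun_prop))

theorem ff_mem {z : ℝ × ℝ} (hz : z ∈ OO V x v a) : ff V x v a z ∈ (chartAt E a).target :=
  (chartAt E a).map_source hz

include hV0 hV in
theorem ff_smooth {z : ℝ × ℝ} (hz : z ∈ OO V x v a) : ContDiffAt ℝ ∞ (ff V x v a) z := by
  have h1 : ContDiffAt ℝ ∞ (psi V a) (z.2 • (x + z.1 • v)) := contDiffAt_psi c hV0 hV hz
  have h2 : ContDiff ℝ ∞ (fun z : ℝ × ℝ => z.2 • (x + z.1 • v)) :=
    contDiff_snd.smul (contDiff_const.add (contDiff_fst.smul contDiff_const))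
  exact ContDiffAt.comp (g := psi V a) z h1 h2.contDiffAt

include hV0 hV in
theorem TT_smooth {z : ℝ × ℝ} (hz : z ∈ OO V x v a) : ContDiffAt ℝ ∞ (TT V x v a) z :=
  ((ff_smooth c hV0 hV x v a hz).fderiv_right (m := ∞) (by norm_num)).clm_apply contDiffAt_const

include hV0 hV in
theorem SS_smooth {z : ℝ × ℝ} (hz : z ∈ OO V x v a) : ContDiffAt ℝ ∞ (SS V x v a) z :=
  ((ff_smooth c hV0 hV x v a hz).fderiv_right (m := ∞) (by norm_num)).clm_apply contDiffAt_const

include hV0 hV in
theorem RR_smooth {z : ℝ × ℝ} (hz : z ∈ OO V x v a) : ContDiffAt ℝ ∞ (RR V x v a) z :=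
  ((TT_smooth c hV0 hV x v a hz).fderiv_right (m := ∞) (by norm_num)).clm_apply contDiffAt_const

theorem hasDerivAt_line_t {F : ℝ × ℝ → E} {s t : ℝ} (h : DifferentiableAt ℝ F (s, t)) :
    HasDerivAt (fun t => F (s, t)) (fderiv ℝ F (s, t) (0, 1)) t :=
  HasFDerivAt.comp_hasDerivAt (l := F) t h.hasFDerivAt
    ((hasDerivAt_const t s).prodMk (hasDerivAt_id t))

theorem hasDerivAt_line_s {F : ℝ × ℝ → E} {s t : ℝ} (h : DifferentiableAt ℝ F (s, t)) :
    HasDerivAt (fun s => F (s, t)) (fderiv ℝ F (s, t) (1, 0)) s :=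
  HasFDerivAt.comp_hasDerivAt (l := F) s h.hasFDerivAt
    ((hasDerivAt_id s).prodMk (hasDerivAt_const s t))

include hV0 hV in
theorem TT_eq {z : ℝ × ℝ} (hz : z ∈ OO V x v a) :
    TT V x v a z = (co a (V (x + z.1 • v) z.2)).2 1 := by
  obtain ⟨s, t⟩ := z
  have h1 := hasDerivAt_line_t ((ff_smooth c hV0 hV x v a hz).differentiableAt (by norm_num))
  have hsrc : (V (x + s • v) t).1 ∈ (chartAt E a).source := by
    rw [← expm_smul c hV0 hV]; exact hz
  have h2 := hd_fst ((hV (x + s • v) t (mem_univ _)).hasCo c hsrc)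
  have e : (fun t => ff V x v a (s, t)) = fun t => (co a (V (x + s • v) t)).1 := by
    funext t
    simp only [ff, psi, co, expm_smul c hV0 hV]
  rw [e] at h1
  have h3 := h1.unique h2
  rw [TT, h3]
  rfl

include hV0 hV in
/-- the geodesic equation -/
theorem TT_geo {s t : ℝ} (hz : (s, t) ∈ OO V x v a) :
    fderiv ℝ (TT V x v a) (s, t) (0, 1) =
      -(c.Γ a (ff V x v a (s, t)) (TT V x v a (s, t)) (TT V x v a (s, t))) := by
  have h1 := hasDerivAt_line_t ((TT_smooth c hV0 hV x v a hz).differentiableAt (by norm_num))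
  have hsrc : (V (x + s • v) t).1 ∈ (chartAt E a).source := by
    rw [← expm_smul c hV0 hV]; exact hz
  have h2 := (hd_snd ((hV (x + s • v) t (mem_univ _)).hasCo c hsrc)).clm_apply
    (hasDerivAt_const t (1:ℝ))
  have hev : (fun t => TT V x v a (s, t)) =ᶠ[𝓝 t] fun t => (co a (V (x + s • v) t)).2 1 := by
    have : ∀ᶠ t' in 𝓝 t, (s, t') ∈ OO V x v a :=
      ((isOpen_OO c hV0 hV x v a).preimage (by fun_prop : Continuous fun t : ℝ => (s, t))
        ).mem_nhds hz
    filter_upwards [this] with t' ht'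
    exact TT_eq c hV0 hV x v a ht'
  have h3 := (h1.congr_of_eventuallyEq hev.symm).unique h2
  rw [h3, TT_eq c hV0 hV x v a hz]
  have e : ff V x v a (s, t) = (co a (V (x + s • v) t)).1 := by
    simp only [ff, psi, co, expm_smul c hV0 hV]
  rw [e]
  simp [vel]

include hV0 hV in
/-- the speed is constant -/
theorem speed {z : ℝ × ℝ} (hz : z ∈ OO V x v a) :
    c.G a (ff V x v a z) (TT V x v a z) (TT V x v a z) =
      c.g p (x + z.1 • v) (x + z.1 • v) := by
  obtain ⟨s, t⟩ := z
  set w := x + s • v with hw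
  have hsrc : (V w t).1 ∈ (chartAt E a).source := by
    rw [← expm_smul c hV0 hV]; exact hz
  set η : ℝ →L[ℝ] ℝ →L[ℝ] ℝ := (c.g p w w) • ContinuousLinearMap.mul ℝ ℝ with hη
  have h0 : Ad c η (V w 0) := by
    intro r r'
    rw [hV0]
    simp only [ContinuousLinearMap.toSpanSingleton_apply, map_smul, smul_apply, hη,
      ContinuousLinearMap.mul_apply', smul_eq_mul]
    ring
  have h1 := (hV w).ad c isOpen_univ isPreconnected_univ (t₀ := 0) (t := t) (mem_univ _)
    (mem_univ _) h0
  have h2 := h1 1 1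
  rw [← g_co c hsrc] at h2
  rw [TT_eq c hV0 hV x v a hz]
  have e : ff V x v a (s, t) = (co a (V w t)).1 := by
    simp only [ff, psi, co, expm_smul c hV0 hV, hw]
  rw [e]
  simp only at *
  rw [h2]
  simp [hη]

theorem symm2 {F : ℝ × ℝ → E} {z : ℝ × ℝ} (h : ContDiffAt ℝ ∞ F z) (u w : ℝ × ℝ) :
    fderiv ℝ (fun z => fderiv ℝ F z u) z w = fderiv ℝ (fun z => fderiv ℝ F z w) z u := by
  have hd : DifferentiableAt ℝ (fderiv ℝ F) z :=
    (h.fderiv_right (m := ∞) (by norm_num)).differentiableAt (by norm_num)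
  have e : ∀ u w : ℝ × ℝ, fderiv ℝ (fun z => fderiv ℝ F z u) z w =
      fderiv ℝ (fderiv ℝ F) z w u := by
    intro u w
    have h1 : HasFDerivAt (fun z => fderiv ℝ F z u) _ z :=
      hd.hasFDerivAt.clm_apply (hasFDerivAt_const u z)
    rw [h1.fderiv]
    simp
  rw [e, e]
  have := h.isSymmSndFDerivAt (by
      simp only [minSmoothness_of_isRCLikeNormedField]
      exact WithTop.coe_le_coe.2 (le_top : (2:ℕ∞) ≤ ⊤))
  exact this.eq _ _

include hV0 hV in
theorem SS_t {z : ℝ × ℝ} (hz : z ∈ OO V x v a) :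
    fderiv ℝ (SS V x v a) z (0, 1) = RR V x v a z :=
  symm2 (ff_smooth c hV0 hV x v a hz) (1, 0) (0, 1)

include hV0 hV in
theorem RR_t {z : ℝ × ℝ} (hz : z ∈ OO V x v a) :
    fderiv ℝ (RR V x v a) z (0, 1) =
      -(fderiv ℝ (c.Γ a) (ff V x v a z) (SS V x v a z) (TT V x v a z) (TT V x v a z) +
        2 • c.Γ a (ff V x v a z) (RR V x v a z) (TT V x v a z)) := by
  have h1 : fderiv ℝ (RR V x v a) z (0, 1) =
      fderiv ℝ (fun z => fderiv ℝ (TT V x v a) z (0, 1)) z (1, 0) :=
    symm2 (TT_smooth c hV0 hV x v a hz) (1, 0) (0, 1)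
  have hev : (fun z => fderiv ℝ (TT V x v a) z (0, 1)) =ᶠ[𝓝 z]
      fun z => -(c.Γ a (ff V x v a z) (TT V x v a z) (TT V x v a z)) := by
    filter_upwards [(isOpen_OO c hV0 hV x v a).mem_nhds hz] with z' hz'
    exact TT_geo c hV0 hV x v a hz'
  rw [h1, hev.fderiv_eq]
  have hy := ff_mem x v a hz
  have hΓd : DifferentiableAt ℝ (c.Γ a) (ff V x v a z) :=
    ((c.smooth a).contDiffAt ((chartAt E a).open_target.mem_nhds hy)).differentiableAt
      (by norm_num)
  have hf := ((ff_smooth c hV0 hV x v a hz).differentiableAt (by norm_num)).hasFDerivAt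
  have hT := ((TT_smooth c hV0 hV x v a hz).differentiableAt (by norm_num)).hasFDerivAt
  have hΓ : HasFDerivAt (fun z => c.Γ a (ff V x v a z)) _ z :=
    HasFDerivAt.comp (g := c.Γ a) z hΓd.hasFDerivAt hf
  have h2 := ((hΓ.clm_apply hT).clm_apply hT).fun_neg
  rw [h2.fderiv]
  have hs := c.symm a _ hy (RR V x v a z) (TT V x v a z)
  simp only [neg_apply, add_apply, ContinuousLinearMap.comp_apply, ContinuousLinearMap.flip_apply]
  have e1 : fderiv ℝ (TT V x v a) z (1, 0) = RR V x v a z := rfl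
  have e2 : fderiv ℝ (ff V x v a) z (1, 0) = SS V x v a z := rfl
  rw [e1, e2, hs, two_smul]
  abel

include hV0 hV in
theorem SS_zero {t : ℝ} (hz : (0, t) ∈ OO V x v a) :
    SS V x v a (0, t) = fderiv ℝ (psi V a) (t • x) (t • v) := by
  have h1 := hasDerivAt_line_s ((ff_smooth c hV0 hV x v a hz).differentiableAt (by norm_num))
  have hx : expm V (t • x) ∈ (chartAt E a).source := by
    have := hz
    simp only [OO, mem_setOf_eq, zero_smul, add_zero] at this
    exact this
  have h2 : HasDerivAt (fun s : ℝ => t • (x + s • v)) (t • v) 0 := by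
    have h5 : HasDerivAt (fun s : ℝ => x + s • v) v 0 := by
      simpa using ((hasDerivAt_id (0:ℝ)).smul_const v).const_add x
    exact h5.fun_const_smul t
  have h3 : HasDerivAt (fun s => ff V x v a (s, t)) (fderiv ℝ (psi V a) (t • x) (t • v)) 0 := by
    refine HasFDerivAt.comp_hasDerivAt (l := psi V a) (l' := fderiv ℝ (psi V a) (t • x)) 0 ?_ h2
    simp only [zero_smul, add_zero]
    exact ((contDiffAt_psi c hV0 hV hx).differentiableAt (by norm_num)).hasFDerivAt
  exact h1.unique h3

include hV0 hV in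
theorem TT_zero {t : ℝ} (hz : (0, t) ∈ OO V x v a) :
    TT V x v a (0, t) = fderiv ℝ (psi V a) (t • x) x := by
  have h1 := hasDerivAt_line_t ((ff_smooth c hV0 hV x v a hz).differentiableAt (by norm_num))
  have hx : expm V (t • x) ∈ (chartAt E a).source := by
    have := hz
    simp only [OO, mem_setOf_eq, zero_smul, add_zero] at this
    exact this
  have h2 : HasDerivAt (fun t : ℝ => t • x) x t := by
    simpa using (hasDerivAt_id t).smul_const x
  have h3 : HasDerivAt (fun t => ff V x v a (0, t)) (fderiv ℝ (psi V a) (t • x) x) t := by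
    have e : (fun t => ff V x v a (0, t)) = fun t => psi V a (t • x) := by
      funext t; simp [ff]
    rw [e]
    exact HasFDerivAt.comp_hasDerivAt (l := psi V a) t
      ((contDiffAt_psi c hV0 hV hx).differentiableAt (by norm_num)).hasFDerivAt h2
  exact h1.unique h3

/-- `D_t S` -/
noncomputable def DD (V : E → ℝ → M × (ℝ →L[ℝ] E)) (x v : E) (a : M) (t : ℝ) : E :=
  RR V x v a (0, t) + c.Γ a (ff V x v a (0, t)) (TT V x v a (0, t)) (SS V x v a (0, t))

include hV0 hV in
/-- the energy in the chart -/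
theorem GG_ray {t : ℝ} (hz : (0, t) ∈ OO V x v a) :
    GG c V (t • x) (t • v) (t • v) =
      c.G a (ff V x v a (0, t)) (SS V x v a (0, t)) (SS V x v a (0, t)) := by
  have hx : expm V (t • x) ∈ (chartAt E a).source := by
    have := hz
    simp only [OO, mem_setOf_eq, zero_smul, add_zero] at this
    exact this
  rw [GG_chart c hV0 hV hx, SS_zero c hV0 hV x v a hz]
  simp [ff]

include hV0 hV in
theorem GG_ray' {t : ℝ} (hz : (0, t) ∈ OO V x v a) :
    GG c V (t • x) x (t • v) =
      c.G a (ff V x v a (0, t)) (TT V x v a (0, t)) (SS V x v a (0, t)) := by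
  have hx : expm V (t • x) ∈ (chartAt E a).source := by
    have := hz
    simp only [OO, mem_setOf_eq, zero_smul, add_zero] at this
    exact this
  rw [GG_chart c hV0 hV hx, SS_zero c hV0 hV x v a hz, TT_zero c hV0 hV x v a hz]
  simp [ff]

variable (hR : Riem c)

include hV0 hV in
theorem d_ff {t : ℝ} (hz : (0, t) ∈ OO V x v a) :
    HasDerivAt (fun t => ff V x v a (0, t)) (TT V x v a (0, t)) t :=
  hasDerivAt_line_t ((ff_smooth c hV0 hV x v a hz).differentiableAt (by norm_num))

include hV0 hV in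
theorem d_SS {t : ℝ} (hz : (0, t) ∈ OO V x v a) :
    HasDerivAt (fun t => SS V x v a (0, t)) (RR V x v a (0, t)) t := by
  have := hasDerivAt_line_t ((SS_smooth c hV0 hV x v a hz).differentiableAt (by norm_num))
  rwa [SS_t c hV0 hV x v a hz] at this

include hV0 hV in
theorem d_TT {t : ℝ} (hz : (0, t) ∈ OO V x v a) :
    HasDerivAt (fun t => TT V x v a (0, t))
      (-(c.Γ a (ff V x v a (0, t)) (TT V x v a (0, t)) (TT V x v a (0, t)))) t := by
  have := hasDerivAt_line_t ((TT_smooth c hV0 hV x v a hz).differentiableAt (by norm_num))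
  rwa [TT_geo c hV0 hV x v a hz] at this

include hV0 hV in
theorem d_RR {t : ℝ} (hz : (0, t) ∈ OO V x v a) :
    HasDerivAt (fun t => RR V x v a (0, t))
      (-(fderiv ℝ (c.Γ a) (ff V x v a (0, t)) (SS V x v a (0, t)) (TT V x v a (0, t))
        (TT V x v a (0, t)) +
        2 • c.Γ a (ff V x v a (0, t)) (RR V x v a (0, t)) (TT V x v a (0, t)))) t := by
  have := hasDerivAt_line_t ((RR_smooth c hV0 hV x v a hz).differentiableAt (by norm_num))
  rwa [RR_t c hV0 hV x v a hz] at this

include hV0 hV in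
theorem ev_OO {t : ℝ} (hz : (0, t) ∈ OO V x v a) : ∀ᶠ t' in 𝓝 t, (0, t') ∈ OO V x v a :=
  ((isOpen_OO c hV0 hV x v a).preimage (by fun_prop : Continuous fun t : ℝ => ((0:ℝ), t))
    ).mem_nhds hz

include hV0 hV hR in
/-- first derivative of the energy -/
theorem energy1 {t : ℝ} (hz : (0, t) ∈ OO V x v a) :
    HasDerivAt (fun t => GG c V (t • x) (t • v) (t • v))
      (2 * c.G a (ff V x v a (0, t)) (DD c V x v a t) (SS V x v a (0, t))) t := by
  refine (energy_deriv (c := c) (a := a) (x := fun t => ff V x v a (0, t))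
    (τ := fun t => TT V x v a (0, t)) (σ := fun t => SS V x v a (0, t))
    (ς := fun t => RR V x v a (0, t)) hR (ff_mem x v a hz) (d_ff c hV0 hV x v a hz)
    (d_SS c hV0 hV x v a hz)).congr_of_eventuallyEq ?_
  filter_upwards [ev_OO c hV0 hV x v a hz] with t' ht'
  exact GG_ray c hV0 hV x v a ht'

include hV0 hV hR in
/-- second derivative of the energy -/
theorem energy2 {t : ℝ} (hz : (0, t) ∈ OO V x v a) :
    HasDerivAt (deriv fun t => GG c V (t • x) (t • v) (t • v))
      (2 * c.G a (ff V x v a (0, t)) (curv (c.Γ a) (ff V x v a (0, t)) (TT V x v a (0, t))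
        (SS V x v a (0, t)) (TT V x v a (0, t))) (SS V x v a (0, t)) +
        2 * c.G a (ff V x v a (0, t)) (DD c V x v a t) (DD c V x v a t)) t := by
  refine (energy_deriv2 (c := c) (a := a) (x := fun t => ff V x v a (0, t))
    (τ := fun t => TT V x v a (0, t)) (σ := fun t => SS V x v a (0, t))
    (ς := fun t => RR V x v a (0, t)) (ff_mem x v a hz) (d_ff c hV0 hV x v a hz)
    (d_TT c hV0 hV x v a hz)
    (d_SS c hV0 hV x v a hz) (d_RR c hV0 hV x v a hz)).congr_of_eventuallyEq ?_
  filter_upwards [ev_OO c hV0 hV x v a hz] with t' ht'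
  exact (energy1 c hV0 hV x v a hR ht').deriv

end Ray

variable (hR : Riem c)

theorem mem_OO (x v : E) (t : ℝ) : (0, t) ∈ OO V x v (expm V (t • x)) := by
  simp only [OO, mem_setOf_eq, zero_smul, add_zero]
  exact mem_chart_source E _

include hV0 hV hR in
/-- **Monotonicity**, integrated form. -/
theorem energy_ineq (x v : E) : 2 * GG c V x v v ≤
    deriv (fun t : ℝ => GG c V (t • x) (t • v) (t • v)) 1 := by
  have h := scalar_ineq (h := fun t : ℝ => GG c V (t • x) (t • v) (t • v))
    (h' := deriv fun t : ℝ => GG c V (t • x) (t • v) (t • v))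
    (h'' := deriv (deriv fun t : ℝ => GG c V (t • x) (t • v) (t • v)))
    (fun t _ => (energy1 c hV0 hV x v _ hR (mem_OO x v t)).differentiableAt.hasDerivAt)
    (fun t _ => (energy2 c hV0 hV x v _ hR (mem_OO x v t)).differentiableAt.hasDerivAt)
    ?_ ?_ ?_ ?_
  · simpa using h
  · simp [GG]
  · intro t _
    rw [GG_ray c hV0 hV x v _ (mem_OO x v t)]
    exact hR.nn (ff_mem x v _ (mem_OO x v t)) _
  · intro t _
    rw [(energy2 c hV0 hV x v _ hR (mem_OO x v t)).deriv]
    have h1 := hR.nn (ff_mem x v _ (mem_OO (V := V) x v t)) (DD c V x v (expm V (t • x)) t)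
    have h2 := hR.curv_nonneg (ff_mem x v _ (mem_OO (V := V) x v t))
      (TT V x v (expm V (t • x)) (0, t)) (SS V x v (expm V (t • x)) (0, t))
    linarith
  · intro t _
    rw [(energy2 c hV0 hV x v _ hR (mem_OO x v t)).deriv,
      (energy1 c hV0 hV x v _ hR (mem_OO x v t)).deriv, GG_ray c hV0 hV x v _ (mem_OO x v t)]
    have h1 := hR.nn (ff_mem x v _ (mem_OO (V := V) x v t)) (DD c V x v (expm V (t • x)) t)
    have h2 := hR.curv_nonneg (ff_mem x v _ (mem_OO (V := V) x v t))
      (TT V x v (expm V (t • x)) (0, t)) (SS V x v (expm V (t • x)) (0, t))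
    have h3 := hR.nn (ff_mem x v _ (mem_OO (V := V) x v t)) (SS V x v (expm V (t • x)) (0, t))
    have h4 := hR.cs (ff_mem x v _ (mem_OO (V := V) x v t)) (DD c V x v (expm V (t • x)) t)
      (SS V x v (expm V (t • x)) (0, t))
    have h5 := mul_nonneg h3 h2
    nlinarith

include hV0 hV hR in
/-- **Gauss lemma.** -/
theorem gauss_lemma (x v : E) : GG c V x x v = c.g p x v := by
  have hsymg : ∀ u w, c.g p u w = c.g p w u := fun u w => by
    rw [c.hg, c.hg, hR.sym]
  have hd : ∀ t : ℝ, HasDerivAt (fun t : ℝ => GG c V (t • x) x (t • v)) (c.g p x v) t := by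
    intro t
    set a := expm V (t • x) with ha
    have hz : (0, t) ∈ OO V x v a := mem_OO x v t
    have h1 := pair_deriv (c := c) (a := a) (x := fun t => ff V x v a (0, t))
      (τ := fun t => TT V x v a (0, t)) (σ := fun t => SS V x v a (0, t))
      (ς := fun t => RR V x v a (0, t)) (ff_mem x v a hz) (d_ff c hV0 hV x v a hz)
      (d_TT c hV0 hV x v a hz) (d_SS c hV0 hV x v a hz)
    have h2 : HasDerivAt (fun t : ℝ => GG c V (t • x) x (t • v))
        (c.G a (ff V x v a (0, t)) (TT V x v a (0, t)) (DD c V x v a t)) t := by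
      refine h1.congr_of_eventuallyEq ?_
      filter_upwards [ev_OO c hV0 hV x v a hz] with t' ht'
      exact GG_ray' c hV0 hV x v a ht'
    -- the value of the derivative
    have hxs : HasDerivAt (fun s => ff V x v a (s, t)) (SS V x v a (0, t)) 0 :=
      hasDerivAt_line_s ((ff_smooth c hV0 hV x v a hz).differentiableAt (by norm_num))
    have hTs : HasDerivAt (fun s => TT V x v a (s, t)) (RR V x v a (0, t)) 0 :=
      hasDerivAt_line_s ((TT_smooth c hV0 hV x v a hz).differentiableAt (by norm_num))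
    have h3 := energy_deriv (c := c) (a := a) (x := fun s => ff V x v a (s, t))
      (τ := fun s => SS V x v a (s, t)) (σ := fun s => TT V x v a (s, t))
      (ς := fun s => RR V x v a (s, t)) (t := 0) hR (ff_mem x v a hz) hxs hTs
    have h4 : HasDerivAt (fun s : ℝ => c.g p (x + s • v) (x + s • v)) (2 * c.g p x v) 0 := by
      have h5 : HasDerivAt (fun s : ℝ => x + s • v) v 0 := by
        simpa using ((hasDerivAt_id (0:ℝ)).smul_const v).const_add x
      have h6 := ((hasDerivAt_const (0:ℝ) (c.g p)).clm_apply h5).clm_apply h5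
      refine h6.congr_deriv ?_
      simp only [zero_smul, add_zero, zero_apply, zero_add]
      rw [hsymg v x]
      ring
    have hev : (fun s => c.G a (ff V x v a (s, t)) (TT V x v a (s, t)) (TT V x v a (s, t)))
        =ᶠ[𝓝 0] fun s : ℝ => c.g p (x + s • v) (x + s • v) := by
      have : ∀ᶠ s in 𝓝 (0:ℝ), (s, t) ∈ OO V x v a :=
        ((isOpen_OO c hV0 hV x v a).preimage (by fun_prop : Continuous fun s : ℝ => (s, t))
          ).mem_nhds hz
      filter_upwards [this] with s hs
      exact speed c hV0 hV x v a hs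
    have h5 := (h3.congr_of_eventuallyEq hev.symm).unique h4
    rw [c.symm a _ (ff_mem x v a hz) (SS V x v a (0, t)) (TT V x v a (0, t))] at h5
    refine h2.congr_deriv ?_
    rw [hR.sym]
    show c.G a (ff V x v a (0, t)) (RR V x v a (0, t) + c.Γ a (ff V x v a (0, t))
      (TT V x v a (0, t)) (SS V x v a (0, t))) (TT V x v a (0, t)) = _
    linarith
  have hd' : ∀ t : ℝ, HasDerivAt (fun t : ℝ => GG c V (t • x) x (t • v) - t * c.g p x v) 0 t := by
    intro t
    exact ((hd t).fun_sub ((hasDerivAt_id t).mul_const (c.g p x v))).congr_deriv (by simp)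
  have h := is_const_of_deriv_eq_zero (fun t => (hd' t).differentiableAt)
    (fun t => (hd' t).deriv) 1 0
  simp only [one_smul, one_mul, zero_smul, zero_mul, sub_zero] at h
  have h0 : GG c V 0 x 0 = 0 := by simp [GG]
  rw [h0] at h
  linarith

end Pool.Agent.W585
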