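import Mathlib
import Pool.Agent.W585.Exp2

/-! Monotonicity of the pulled back metric, lower bound, invertibility of the differential. -/

set_option autoImplicit false
set_option maxSynthPendingDepth 3
set_option linter.unusedSectionVars false
set_option linter.deprecated false

open Set Filter Topology Metric
open scoped ContDiff Manifold

namespace Pool.Agent.W585

open Pool.Agent.H660R4

variable {E : Type} [NormedAddCommGroup E] [NormedSpace ℝ E] [FiniteDimensional ℝ E]
  {M : Type*} [TopologicalSpace M] [ChartedSpace E M] [IsManifold 𝓘(ℝ, E) ∞ M]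
  (c : LC E M) {p : M} {V : E → ℝ → M × (ℝ →L[ℝ] E)} [T2Space M]
  (hV0 : ∀ v, V v 0 = (p, ContinuousLinearMap.toSpanSingleton ℝ v))
  (hV : ∀ v, FG c (1 : ℝ) (V v) univ) (hR : Riem c)

include hV0 hV in
theorem ev_source (x : E) {a : M} (ha : expm V x ∈ (chartAt E a).source) :
    ∀ᶠ z in 𝓝 x, expm V z ∈ (chartAt E a).source :=
  (continuous_expm c hV0 hV).continuousAt.eventually_mem ((chartAt E a).open_source.mem_nhds ha)

include hV0 hV hR in
/-- the pulled back metric is smooth -/
theorem contDiff_GG (u v : E) : ContDiff ℝ ∞ (fun x => GG c V x u v) := by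
  rw [contDiff_iff_contDiffAt]
  intro x
  set a := expm V x with ha
  have hx : expm V x ∈ (chartAt E a).source := mem_chart_source E _
  have h1 : ContDiffAt ℝ ∞ (psi V a) x := contDiffAt_psi c hV0 hV hx
  have h2 : ContDiffAt ℝ ∞ (fderiv ℝ (psi V a)) x := h1.fderiv_right (by norm_num)
  have h3 : ContDiffAt ℝ ∞ (c.G a) (psi V a x) :=
    (hR.smG a).contDiffAt ((chartAt E a).open_target.mem_nhds ((chartAt E a).map_source hx))
  have h4 : ContDiffAt ℝ ∞ (fun z => c.G a (psi V a z)) x := ContDiffAt.comp (g := c.G a) x h3 h1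
  have h5 := (h4.clm_apply (h2.clm_apply (contDiffAt_const (c := u)))).clm_apply
    (h2.clm_apply (contDiffAt_const (c := v)))
  refine h5.congr_of_eventuallyEq ?_
  filter_upwards [ev_source c hV0 hV x hx] with z hz
  exact GG_chart c hV0 hV hz u v

theorem GG_smul (x u v : E) (r s : ℝ) : GG c V x (r • u) (s • v) = r * s * GG c V x u v := by
  simp [GG]; ring

include hV0 hV hR in
/-- **Monotonicity**, differential form. -/
theorem GG_mono (x v : E) : 0 ≤ fderiv ℝ (fun y => GG c V y v v) x x := by
  have h1 := energy_ineq c hV0 hV hR x v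
  have hray : HasDerivAt (fun t : ℝ => GG c V (t • x) v v) (fderiv ℝ (fun y => GG c V y v v) x x) 1 := by
    have h2 : HasDerivAt (fun t : ℝ => t • x) x 1 := by
      simpa using (hasDerivAt_id (1:ℝ)).smul_const x
    refine HasFDerivAt.comp_hasDerivAt (l := fun y => GG c V y v v)
      (l' := fderiv ℝ (fun y => GG c V y v v) x) 1 ?_ h2
    rw [one_smul]
    exact ((contDiff_GG c hV0 hV hR v v).differentiable (by simp) x).hasFDerivAt
  have h3 : HasDerivAt (fun t : ℝ => t ^ 2 * GG c V (t • x) v v)
      (2 * GG c V x v v + fderiv ℝ (fun y => GG c V y v v) x x) 1 := by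
    have := (hasDerivAt_pow 2 (1:ℝ)).fun_mul hray
    refine this.congr_deriv ?_
    simp
  have e : (fun t : ℝ => GG c V (t • x) (t • v) (t • v)) =
      fun t : ℝ => t ^ 2 * GG c V (t • x) v v := by
    funext t
    rw [GG_smul]
    ring
  rw [e, h3.deriv] at h1
  linarith

include hV0 in
theorem expm_zero' (hV : ∀ v, FG c (1 : ℝ) (V v) univ) : expm V 0 = p := by
  have := expm_smul c hV0 hV 0 0
  rw [smul_zero, hV0] at this
  exact this

include hV0 hV in
theorem fderiv_psi_zero (v : E) : fderiv ℝ (psi V p) 0 v = v := by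
  have hz : ((0:ℝ), (0:ℝ)) ∈ OO V v 0 p := by
    simp only [OO, mem_setOf_eq, zero_smul]
    rw [expm_zero' c hV0 hV]
    exact mem_chart_source E p
  have h1 := TT_zero c hV0 hV v 0 p hz
  have h2 := TT_eq c hV0 hV v 0 p hz
  rw [h2] at h1
  simp only [smul_zero, add_zero, zero_smul, hV0, co] at h1
  rw [← h1, Jc_self (mem_chart_source E p)]
  simp

include hV0 hV in
theorem GG_zero (v : E) : GG c V 0 v v = c.g p v v := by
  have h0 := expm_zero' c hV0 hV
  rw [GG_chart c hV0 hV (a := p) (by rw [h0]; exact mem_chart_source E p),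
    fderiv_psi_zero c hV0 hV, c.hg, psi, h0]

include hV0 hV hR in
/-- the exponential map does not decrease lengths -/
theorem GG_ge (x v : E) : c.g p v v ≤ GG c V x v v := by
  have hd : ∀ s : ℝ, HasDerivAt (fun s : ℝ => GG c V (s • x) v v)
      (fderiv ℝ (fun y => GG c V y v v) (s • x) x) s := by
    intro s
    have h2 : HasDerivAt (fun s : ℝ => s • x) x s := by
      simpa using (hasDerivAt_id s).smul_const x
    exact HasFDerivAt.comp_hasDerivAt (l := fun y => GG c V y v v) s
      (((contDiff_GG c hV0 hV hR v v).differentiable (by simp) (s • x)).hasFDerivAt) h2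
  have hm : MonotoneOn (fun s : ℝ => GG c V (s • x) v v) (Icc 0 1) := by
    refine monotoneOn_of_deriv_nonneg (convex_Icc 0 1)
      (fun s _ => (hd s).continuousAt.continuousWithinAt)
      (fun s _ => (hd s).differentiableAt.differentiableWithinAt) ?_
    intro s hs
    rw [interior_Icc] at hs
    rw [(hd s).deriv]
    have h3 := GG_mono c hV0 hV hR (s • x) v
    rw [map_smul, smul_eq_mul] at h3
    exact nonneg_of_mul_nonneg_right h3 hs.1
  have := hm (left_mem_Icc.2 zero_le_one) (right_mem_Icc.2 zero_le_one) zero_le_one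
  simp only [zero_smul, one_smul] at this
  rwa [GG_zero c hV0 hV] at this

include hR in
theorem g_pos' (v : E) (hv : v ≠ 0) : 0 < c.g p v v := by
  rw [c.hg]
  exact hR.pos p _ (mem_chart_target E p) v hv

include hR in
/-- comparison of norms -/
theorem exists_K (p : M) : ∃ K : ℝ, 0 < K ∧ ∀ v : E, ‖v‖ ^ 2 ≤ K * c.g p v v := by
  have hproper : ProperSpace E := FiniteDimensional.proper_real E
  by_cases hne : (sphere (0:E) 1).Nonempty
  · have hcont : Continuous fun v : E => c.g p v v := by fun_prop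
    obtain ⟨v₀, hv₀, hmin⟩ := (isCompact_sphere (0:E) 1).exists_isMinOn hne hcont.continuousOn
    have hv₀' : v₀ ≠ 0 := by
      rintro rfl
      simp at hv₀
    have hm := g_pos' c (p := p) hR v₀ hv₀'
    refine ⟨(c.g p v₀ v₀)⁻¹, inv_pos.2 hm, fun v => ?_⟩
    by_cases hv : v = 0
    · simp [hv]
    have hvp : 0 < ‖v‖ := norm_pos_iff.2 hv
    have h1 : ‖v‖⁻¹ • v ∈ sphere (0:E) 1 := by
      rw [mem_sphere_zero_iff_norm, norm_smul, norm_inv, norm_norm, inv_mul_cancel₀ hvp.ne']
    have h2 := hmin h1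
    simp only [mem_setOf_eq, map_smul, smul_apply, smul_eq_mul] at h2
    rw [inv_mul_eq_div, le_div_iff₀ hm]
    have h3 : c.g p v₀ v₀ * ‖v‖ ^ 2 ≤ ‖v‖⁻¹ * (‖v‖⁻¹ * c.g p v v) * ‖v‖ ^ 2 :=
      mul_le_mul_of_nonneg_right h2 (by positivity)
    have h4 : ‖v‖⁻¹ * (‖v‖⁻¹ * c.g p v v) * ‖v‖ ^ 2 = c.g p v v := by
      field_simp
    linarith
  · refine ⟨1, one_pos, fun v => ?_⟩
    have hv : v = 0 := by
      by_contra hv
      apply hne
      have hvp : 0 < ‖v‖ := norm_pos_iff.2 hv
      exact ⟨‖v‖⁻¹ • v, by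
        rw [mem_sphere_zero_iff_norm, norm_smul, norm_inv, norm_norm, inv_mul_cancel₀ hvp.ne']⟩
    simp [hv]

include hV0 hV hR in
theorem fderiv_psi_inj {x : E} {a : M} (ha : expm V x ∈ (chartAt E a).source) {u : E}
    (hu : fderiv ℝ (psi V a) x u = 0) : u = 0 := by
  by_contra hne
  have h1 := GG_ge c hV0 hV hR x u
  rw [GG_chart c hV0 hV ha, hu] at h1
  have h2 := g_pos' c (p := p) hR u hne
  simp at h1
  linarith

include hV0 hV hR in
theorem exists_psi_equiv {x : E} {a : M} (ha : expm V x ∈ (chartAt E a).source) :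
    ∃ e : E ≃L[ℝ] E, (e : E →L[ℝ] E) = fderiv ℝ (psi V a) x := by
  have hinj : Function.Injective (fderiv ℝ (psi V a) x : E →ₗ[ℝ] E) := by
    rw [injective_iff_map_eq_zero]
    intro u hu
    exact fderiv_psi_inj c hV0 hV hR ha hu
  refine ⟨(LinearEquiv.ofInjectiveEndo _ hinj).toContinuousLinearEquiv, ?_⟩
  ext u
  rfl

include hV0 hV hR in
theorem isLocalHomeomorph_expm : IsLocalHomeomorph (expm V) := by
  have hcomp : CompleteSpace E := FiniteDimensional.complete ℝ E
  refine IsLocalHomeomorph.mk _ fun x => ?_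
  set a := expm V x with ha
  have hx : expm V x ∈ (chartAt E a).source := mem_chart_source E _
  obtain ⟨e, he⟩ := exists_psi_equiv c hV0 hV hR hx
  have h1 : HasStrictFDerivAt (psi V a) (e : E →L[ℝ] E) x := by
    rw [he]
    exact (contDiffAt_psi c hV0 hV hx).hasStrictFDerivAt (by norm_num)
  set L := h1.toOpenPartialHomeomorph (psi V a) with hL
  have hLc : (L : E → E) = psi V a := h1.toOpenPartialHomeomorph_coe
  have hxL : x ∈ L.source := h1.mem_toOpenPartialHomeomorph_source
  have hopen : IsOpen ((expm V) ⁻¹' (chartAt E a).source) :=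
    (chartAt E a).open_source.preimage (continuous_expm c hV0 hV)
  refine ⟨(L.restrOpen _ hopen).trans (chartAt E a).symm, ?_, ?_⟩
  · simp only [OpenPartialHomeomorph.trans_source, OpenPartialHomeomorph.restrOpen_source,
      OpenPartialHomeomorph.symm_source, mem_inter_iff, mem_preimage]
    refine ⟨⟨hxL, hx⟩, ?_⟩
    show L x ∈ _
    rw [hLc]
    exact (chartAt E a).map_source hx
  · intro z hz
    simp only [OpenPartialHomeomorph.trans_source, OpenPartialHomeomorph.restrOpen_source,
      OpenPartialHomeomorph.symm_source, mem_inter_iff, mem_preimage] at hz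
    show expm V z = (chartAt E a).symm (L z)
    rw [hLc]
    exact ((chartAt E a).left_inv hz.1.2).symm

end Pool.Agent.W585
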