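import Mathlib

/-! Local homeomorphisms with uniform local sections onto simply connected spaces are bijective. -/

set_option autoImplicit false

open Topology unitInterval Set

namespace Pool.Agent.W585

variable {X Y : Type*} [TopologicalSpace X] [TopologicalSpace Y] {p : X → Y}

/-- uniform local sections -/
def Sec (p : X → Y) : Prop := ∀ q : Y, ∃ U : Set Y, IsOpen U ∧ q ∈ U ∧ ∀ w, p w ∈ U →
  ∃ sg : Y → X, ContinuousOn sg U ∧ (∀ x ∈ U, p (sg x) = x) ∧ sg (p w) = w

theorem Sec.exists_path_lifts (sec : Sec p) (γ : C(I, Y)) (e : X) (γ_0 : γ 0 = p e) :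
    ∃ Γ : C(I, X), p ∘ Γ = γ ∧ Γ 0 = e := by
  choose U U_open mem_base H using sec
  obtain ⟨t, t_0, t_mono, ⟨n_max, h_max⟩, t_sub⟩ :=
    exists_monotone_Icc_subset_open_cover_unitInterval
    (fun x ↦ (U_open x).preimage γ.continuous) fun t _ ↦ Set.mem_iUnion.2 ⟨γ t, mem_base _⟩
  suffices ∀ n, ∃ Γ : I → X, ContinuousOn Γ (Set.Icc 0 (t n)) ∧
      (Set.Icc 0 (t n)).EqOn (p ∘ Γ) γ ∧ Γ 0 = e by
    obtain ⟨Γ, cont, eqOn, Γ_0⟩ := this n_max
    rw [h_max _ le_rfl] at cont eqOn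
    exact ⟨⟨Γ, continuousOn_univ.mp
      (by convert! cont; rw [eq_comm, Set.eq_univ_iff_forall]; exact fun t ↦ ⟨bot_le, le_top⟩)⟩,
      funext fun _ ↦ eqOn ⟨bot_le, le_top⟩, Γ_0⟩
  intro n
  induction n with
  | zero =>
    refine ⟨fun _ ↦ e, continuous_const.continuousOn, fun t ht ↦ ?_, rfl⟩
    rw [t_0, Set.Icc_self, Set.mem_singleton_iff] at ht; subst ht; exact γ_0.symm
  | succ n ih =>
    obtain ⟨Γ, cont, eqOn, Γ_0⟩ := ih
    obtain ⟨x, t_sub⟩ := t_sub n
    have pΓtn : p (Γ (t n)) = γ (t n) := eqOn ⟨t_0 ▸ t_mono n.zero_le, le_rfl⟩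
    obtain ⟨sg, hσ1, hσ2, hσ3⟩ := H x (Γ (t n)) (by
      rw [pΓtn]; exact t_sub ⟨le_rfl, t_mono n.le_succ⟩)
    refine ⟨fun s ↦ if s ≤ t n then Γ s else sg (γ s),
      .if (fun s hs ↦ ?_) (cont.mono fun _ h ↦ ?_) ?_, fun s hs ↦ ?_, ?_⟩
    · cases frontier_Iic_subset _ hs.2
      rw [← pΓtn, hσ3]
    · rw [closure_le_eq continuous_id' continuous_const] at h; exact ⟨h.1.1, h.2⟩
    · apply hσ1.comp γ.2.continuousOn
      simp_rw [not_le]
      intro s h
      exact t_sub ⟨closure_lt_subset_le continuous_const continuous_subtype_val h.2, h.1.2⟩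
    · rw [Function.comp_apply]; split_ifs with h
      exacts [eqOn ⟨hs.1, h⟩, hσ2 _ (t_sub ⟨le_of_not_ge h, hs.2⟩)]
    · dsimp only; rwa [if_pos (t_0 ▸ t_mono n.zero_le)]

theorem Sec.bijective (sec : Sec p) (homeo : IsLocalHomeomorph p) (sep : IsSeparatedMap p)
    [PathConnectedSpace X] [SimplyConnectedSpace Y] : Function.Bijective p := by
  constructor
  · intro w₁ w₂ h12
    set Γ₀ : Path w₁ w₂ := PathConnectedSpace.somePath w₁ w₂ with hΓ₀
    have hpc : Continuous p := homeo.continuous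
    set γ₀ : Path (p w₁) (p w₁) := (Γ₀.map hpc).cast rfl h12 with hγ₀
    obtain ⟨H⟩ := SimplyConnectedSpace.paths_homotopic γ₀ (Path.refl (p w₁))
    have hex : ∀ t : I, ∃ Γ : C(I, X), (∀ s, p (Γ s) = H (t, s)) ∧ Γ 0 = w₁ ∧
        (t = 0 → Γ 1 = w₂) ∧ (t = 1 → Γ 1 = w₁) := by
      intro t
      by_cases h0 : t = 0
      · refine ⟨Γ₀.toContinuousMap, fun s => ?_, Γ₀.source, fun _ => Γ₀.target, fun h1 => ?_⟩
        · rw [h0, H.apply_zero]
          rfl
        · rw [h0] at h1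
          exact absurd h1 zero_ne_one
      · by_cases h1 : t = 1
        · refine ⟨ContinuousMap.const I w₁, fun s => ?_, rfl, fun h => absurd h h0, fun _ => rfl⟩
          rw [h1, H.apply_one]
          rfl
        · obtain ⟨Γ, hΓ, hΓ'⟩ := sec.exists_path_lifts
            (H.toContinuousMap.comp (ContinuousMap.prodMk (ContinuousMap.const I t)
              (ContinuousMap.id I))) w₁ (by
              show H (t, 0) = p w₁
              rw [H.eq_fst t (by simp)]
              exact γ₀.source)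
          exact ⟨Γ, fun s => congrFun hΓ s, hΓ', fun h => absurd h h0, fun h => absurd h h1⟩
    choose Γ hΓ1 hΓ2 hΓ3 hΓ4 using hex
    have := homeo.monodromy_theorem sep H Γ hΓ1 (fun t => by rw [hΓ2, hΓ2]) 1
    rw [hΓ3 0 rfl, hΓ4 1 rfl] at this
    exact this
  · intro y
    obtain ⟨x₀⟩ : Nonempty X := inferInstance
    set γ : Path (p x₀) y := PathConnectedSpace.somePath (p x₀) y with hγ
    obtain ⟨Γ, hΓ, -⟩ := sec.exists_path_lifts γ.toContinuousMap x₀ γ.source
    refine ⟨Γ 1, ?_⟩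
    have := congrFun hΓ 1
    simp only [Function.comp_apply] at this
    rw [this]
    exact γ.target

end Pool.Agent.W585
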