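import Mathlib
import Pool.Agent.W585.Exp3
import Pool.Agent.W585.Top
import Pool.Agent.W585.Flow

/-! The exponential map of a simply connected Hadamard manifold is a diffeomorphism. -/

set_option autoImplicit false
set_option maxSynthPendingDepth 3
set_option linter.unusedSectionVars false
set_option linter.deprecated false

open Set Filter Topology Metric
open scoped ContDiff Manifold

namespace Pool.Agent.W585

open Pool.Agent.H660R4

variable {E : Type} [NormedAddCommGroup E] [NormedSpace ℝ E] [FiniteDimensional ℝ E]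
  {M : Type*} [TopologicalSpace M] [ChartedSpace E M] [IsManifold 𝓘(ℝ, E) ∞ M]
  (c : LC E M) {p : M} {V : E → ℝ → M × (ℝ →L[ℝ] E)} [T2Space M]
  (hV0 : ∀ v, V v 0 = (p, ContinuousLinearMap.toSpanSingleton ℝ v))
  (hV : ∀ v, FG c (1 : ℝ) (V v) univ) (hR : Riem c)

open Classical in
/-- the lifted coordinate fields -/
noncomputable def XX (V : E → ℝ → M × (ℝ →L[ℝ] E)) (q : M) (b : ContDiffBump (chartAt E q q))
    (z : E × E) : E × E :=
  ((if expm V z.1 ∈ (chartAt E q).source then b (psi V q z.1) else 0) •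
    ContinuousLinearMap.inverse (fderiv ℝ (psi V q) z.1) z.2, 0)

include hV0 hV hR in
theorem XX_smooth (q : M) (b : ContDiffBump (chartAt E q q))
    (hb : closedBall (chartAt E q q) b.rOut ⊆ (chartAt E q).target) :
    ContDiff ℝ ∞ (XX V q b) := by
  have hcomp : CompleteSpace E := FiniteDimensional.complete ℝ E
  have hproper : ProperSpace E := FiniteDimensional.proper_real E
  rw [contDiff_iff_contDiffAt]
  intro z
  by_cases h : expm V z.1 ∈ (chartAt E q).source
  · have hev : ∀ᶠ z' in 𝓝 z, expm V z'.1 ∈ (chartAt E q).source :=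
      continuous_fst.continuousAt.eventually (ev_source c hV0 hV z.1 h)
    have h1 : ContDiffAt ℝ ∞ (psi V q) z.1 := contDiffAt_psi c hV0 hV h
    have h2 : ContDiffAt ℝ ∞ (fderiv ℝ (psi V q)) z.1 := h1.fderiv_right (by norm_num)
    obtain ⟨e, he⟩ := exists_psi_equiv c hV0 hV hR h
    have h3 : ContDiffAt ℝ ∞ ContinuousLinearMap.inverse (fderiv ℝ (psi V q) z.1) := by
      rw [← he]
      exact contDiffAt_map_inverse e
    have h4 : ContDiffAt ℝ ∞ (fun w => ContinuousLinearMap.inverse (fderiv ℝ (psi V q) w)) z.1 :=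
      ContDiffAt.comp (g := ContinuousLinearMap.inverse) z.1 h3 h2
    have h5 : ContDiffAt ℝ ∞ (fun z : E × E =>
        ContinuousLinearMap.inverse (fderiv ℝ (psi V q) z.1)) z :=
      ContDiffAt.comp (g := fun w => ContinuousLinearMap.inverse (fderiv ℝ (psi V q) w)) z h4
        contDiffAt_fst
    have h6 : ContDiffAt ℝ ∞ (fun z : E × E => psi V q z.1) z :=
      ContDiffAt.comp (g := psi V q) z h1 contDiffAt_fst
    have h7 : ContDiffAt ℝ ∞ (fun z : E × E => b (psi V q z.1)) z :=
      ContDiffAt.comp (g := b) z b.contDiff.contDiffAt h6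
    have h8 : ContDiffAt ℝ ∞ (fun z : E × E => (b (psi V q z.1) •
        ContinuousLinearMap.inverse (fderiv ℝ (psi V q) z.1) z.2, (0 : E))) z :=
      (h7.smul (h5.clm_apply contDiffAt_snd)).prodMk contDiffAt_const
    refine h8.congr_of_eventuallyEq ?_
    filter_upwards [hev] with z' hz'
    rw [XX, if_pos hz']
  · set K : Set M := (chartAt E q).symm '' closedBall (chartAt E q q) b.rOut with hK
    have hKc : IsClosed K := by
      have h1 : IsCompact K := (isCompact_closedBall _ _).image_of_continuousOn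
        ((chartAt E q).continuousOn_symm.mono hb)
      exact h1.isClosed
    have hKs : K ⊆ (chartAt E q).source := by
      rintro _ ⟨y, hy, rfl⟩
      exact (chartAt E q).map_target (hb hy)
    have hzK : expm V z.1 ∉ K := fun hz => h (hKs hz)
    have hev : ∀ᶠ z' in 𝓝 z, expm V z'.1 ∉ K :=
      ((continuous_expm c hV0 hV).comp continuous_fst).continuousAt.eventually_mem
        (hKc.isOpen_compl.mem_nhds hzK)
    have h8 : ContDiffAt ℝ ∞ (fun _ : E × E => (0 : E × E)) z := contDiffAt_const
    refine h8.congr_of_eventuallyEq ?_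
    filter_upwards [hev] with z' hz'
    rw [XX]
    split_ifs with hs
    · have h9 : b (psi V q z'.1) = 0 := by
        apply b.zero_of_le_dist
        by_contra hlt
        rw [not_le] at hlt
        apply hz'
        refine ⟨psi V q z'.1, ?_, (chartAt E q).left_inv hs⟩
        rw [mem_closedBall]
        exact hlt.le
      rw [h9, zero_smul]; rfl
    · rw [zero_smul]; rfl

include hV0 hV hR in
theorem XX_bound (q : M) (b : ContDiffBump (chartAt E q q))
    (hb : closedBall (chartAt E q q) b.rOut ⊆ (chartAt E q).target) :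
    ∃ C : ℝ, 0 ≤ C ∧ ∀ z, ‖(XX V q b z).1‖ ≤ C * ‖z.2‖ := by
  have hproper : ProperSpace E := FiniteDimensional.proper_real E
  obtain ⟨K, hK, hK'⟩ := exists_K c hR p
  have hGc : ContinuousOn (c.G q) (closedBall (chartAt E q q) b.rOut) := fun y hy =>
    (c.dG q y (hb hy)).continuousAt.continuousWithinAt
  obtain ⟨L, hL⟩ := (isCompact_closedBall (chartAt E q q) b.rOut).exists_bound_of_continuousOn hGc
  have hL0 : 0 ≤ L := (norm_nonneg _).trans (hL _ (mem_closedBall_self b.rOut_pos.le))
  refine ⟨Real.sqrt (K * L), Real.sqrt_nonneg _, fun z => ?_⟩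
  by_cases hs : expm V z.1 ∈ (chartAt E q).source
  · by_cases hy : psi V q z.1 ∈ closedBall (chartAt E q q) b.rOut
    · obtain ⟨e, he⟩ := exists_psi_equiv c hV0 hV hR hs
      set u := ContinuousLinearMap.inverse (fderiv ℝ (psi V q) z.1) z.2 with hu
      have hDu : fderiv ℝ (psi V q) z.1 u = z.2 := by
        rw [hu, ← he, ContinuousLinearMap.inverse_equiv]
        simp
      have h1 : ‖u‖ ^ 2 ≤ (K * L) * ‖z.2‖ ^ 2 := by
        have h2 := hK' u
        have h3 := GG_ge c hV0 hV hR z.1 u
        rw [GG_chart c hV0 hV hs, hDu] at h3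
        have h4 : c.G q (psi V q z.1) z.2 z.2 ≤ L * ‖z.2‖ ^ 2 := by
          have h5 := (c.G q (psi V q z.1)).le_opNorm₂ z.2 z.2
          have h6 := hL _ hy
          have h7 := le_abs_self (c.G q (psi V q z.1) z.2 z.2)
          rw [Real.norm_eq_abs] at h5
          have h8 : ‖c.G q (psi V q z.1)‖ * ‖z.2‖ * ‖z.2‖ ≤ L * ‖z.2‖ * ‖z.2‖ := by gcongr
          nlinarith
        calc ‖u‖ ^ 2 ≤ K * c.g p u u := h2
          _ ≤ K * (L * ‖z.2‖ ^ 2) := by gcongr; linarith
          _ = _ := by ring
      have h2 : ‖u‖ ≤ Real.sqrt (K * L) * ‖z.2‖ := by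
        have h3 : (Real.sqrt (K * L) * ‖z.2‖) ^ 2 = (K * L) * ‖z.2‖ ^ 2 := by
          rw [mul_pow, Real.sq_sqrt (by positivity)]
        rw [← h3] at h1
        exact (sq_le_sq₀ (norm_nonneg _) (by positivity)).1 h1
      rw [XX, if_pos hs]
      simp only
      rw [norm_smul, Real.norm_eq_abs, abs_of_nonneg b.nonneg]
      calc b (psi V q z.1) * ‖u‖ ≤ 1 * ‖u‖ := by gcongr; exact b.le_one
        _ = ‖u‖ := one_mul _
        _ ≤ _ := h2
    · have h9 : b (psi V q z.1) = 0 := by
        apply b.zero_of_le_dist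
        rw [mem_closedBall, not_le] at hy
        exact hy.le
      rw [XX, if_pos hs, h9, zero_smul, norm_zero]
      positivity
  · rw [XX, if_neg hs, zero_smul, norm_zero]
    positivity

include hV0 hV hR in
/-- local sections through every point, on a neighbourhood depending only on the base point. -/
theorem exists_sections (q : M) : ∃ U : Set M, IsOpen U ∧ q ∈ U ∧ U ⊆ (chartAt E q).source ∧
    ∀ w, expm V w ∈ U → ∃ F : E → E, ContDiff ℝ ∞ F ∧
      (∀ x ∈ U, expm V (F (chartAt E q x)) = x) ∧ F (chartAt E q (expm V w)) = w := by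
  have hcomp : CompleteSpace E := FiniteDimensional.complete ℝ E
  obtain ⟨R, hR0, hRsub⟩ := Metric.nhds_basis_closedBall.mem_iff.1
    ((chartAt E q).open_target.mem_nhds (mem_chart_target E q))
  set b : ContDiffBump (chartAt E q q) := ⟨R / 2, R, by positivity, by linarith⟩ with hbdef
  have hb : closedBall (chartAt E q q) b.rOut ⊆ (chartAt E q).target := hRsub
  have hXs := XX_smooth c hV0 hV hR q b hb
  obtain ⟨C, hC0, hC⟩ := XX_bound c hV0 hV hR q b hb
  have hmono : ∀ R R' T T' : ℝ, 0 ≤ R → R ≤ R' → 0 ≤ T → T ≤ T' →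
      R + C * R * T ≤ R' + C * R' * T' := by
    intro R R' T T' hR hRR hT hTT
    have hR' : 0 ≤ R' := hR.trans hRR
    have : C * R * T ≤ C * R' * T' := by gcongr
    linarith
  have hBd : ∀ (χ : E × E → ℝ), (∀ p, 0 ≤ χ p ∧ χ p ≤ 1) → ∀ γ : ℝ → E × E,
      (∀ τ, HasDerivAt γ (χ (γ τ) • XX V q b (γ τ)) τ) → ∀ τ,
      ‖γ τ‖ ≤ ‖γ 0‖ + C * ‖γ 0‖ * |τ| := by
    intro χ hχ γ hγ τ
    have h2 : ∀ t, HasDerivAt (fun t => (γ t).2) 0 t := by
      intro t
      have := (ContinuousLinearMap.snd ℝ E E).hasFDerivAt.comp_hasDerivAt t (hγ t)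
      exact this.congr_deriv (by simp [XX])
    have hconst : ∀ t, (γ t).2 = (γ 0).2 := fun t =>
      is_const_of_deriv_eq_zero (fun t => (h2 t).differentiableAt) (fun t => (h2 t).deriv) t 0
    have h1 : ∀ t, HasDerivAt (fun t => (γ t).1) (χ (γ t) • (XX V q b (γ t)).1) t := fun t =>
      (ContinuousLinearMap.fst ℝ E E).hasFDerivAt.comp_hasDerivAt t (hγ t)
    have h3 : ‖(γ τ).1 - (γ 0).1‖ ≤ (C * ‖(γ 0).2‖) * |τ| := by
      have h := convex_univ.norm_image_sub_le_of_norm_hasDerivWithin_le (s := (univ : Set ℝ))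
        (f := fun t => (γ t).1) (C := C * ‖(γ 0).2‖) (x := 0) (y := τ)
        (fun x _ => (h1 x).hasDerivWithinAt) (fun x _ => by
          rw [norm_smul, Real.norm_eq_abs, abs_of_nonneg (hχ _).1]
          have h4 := hC (γ x)
          rw [hconst x] at h4
          have h5 := (hχ (γ x)).2
          have h6 := norm_nonneg (XX V q b (γ x)).1
          calc _ ≤ 1 * ‖(XX V q b (γ x)).1‖ := by gcongr
            _ ≤ _ := by rw [one_mul]; exact h4) (mem_univ _) (mem_univ _)
      simpa using h
    have hn1 : ‖(γ 0).1‖ ≤ ‖γ 0‖ := norm_fst_le _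
    have hn2 : ‖(γ 0).2‖ ≤ ‖γ 0‖ := norm_snd_le _
    rw [Prod.norm_def]
    refine max_le ?_ ?_
    · have h4 : ‖(γ τ).1‖ ≤ ‖(γ 0).1‖ + ‖(γ τ).1 - (γ 0).1‖ := by
        have := norm_add_le ((γ 0).1) ((γ τ).1 - (γ 0).1)
        rwa [add_sub_cancel] at this
      have h5 : (C * ‖(γ 0).2‖) * |τ| ≤ C * ‖γ 0‖ * |τ| := by gcongr
      linarith
    · rw [hconst τ]
      have : 0 ≤ C * ‖γ 0‖ * |τ| := by positivity
      linarith
  obtain ⟨φ', h0, h1, -⟩ := Pool.Agent.Helper10.Asy.JB.global_flow (V := XX V q b) hXs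
    (fun R T => R + C * R * T) hmono hBd
  set φ : E × E → ℝ → E × E := fun z t => φ' t z with hφ
  obtain ⟨hφs, -⟩ := flow_smooth (φ := φ) hXs h0 h1
  have hsnd : ∀ z t, (φ z t).2 = z.2 := by
    intro z t
    have h2 : ∀ t, HasDerivAt (fun t => (φ z t).2) 0 t := by
      intro t
      have := (ContinuousLinearMap.snd ℝ E E).hasFDerivAt.comp_hasDerivAt t (h1 z t)
      exact this.congr_deriv (by simp [XX])
    have := is_const_of_deriv_eq_zero (fun t => (h2 t).differentiableAt)
      (fun t => (h2 t).deriv) t 0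
    simp only [hφ, h0] at this ⊢
    exact this
  have hfst : ∀ z t, HasDerivAt (fun t => (φ z t).1) (XX V q b ((φ z t).1, z.2)).1 t := by
    intro z t
    have := (ContinuousLinearMap.fst ℝ E E).hasFDerivAt.comp_hasDerivAt t (h1 z t)
    have e : φ' t z = ((φ z t).1, z.2) := Prod.ext rfl (hsnd z t)
    rw [e] at this
    exact this
  set U : Set M := (chartAt E q).source ∩ (chartAt E q) ⁻¹' ball (chartAt E q q) (R / 2) with hU
  have hUo : IsOpen U := (chartAt E q).isOpen_inter_preimage isOpen_ball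
  have hballt : ball (chartAt E q q) (R / 2) ⊆ (chartAt E q).target := fun y hy =>
    hRsub (by rw [mem_closedBall]; rw [mem_ball] at hy; linarith)
  -- lifting of segments
  have hlift : ∀ w, expm V w ∈ U → ∀ y₁ ∈ ball (chartAt E q q) (R / 2), ∀ t ∈ Icc (0:ℝ) 1,
      expm V (φ (w, y₁ - psi V q w) t).1 =
        (chartAt E q).symm (psi V q w + t • (y₁ - psi V q w)) := by
    intro w hw y₁ hy₁
    set y₀ := psi V q w with hy₀
    set e := y₁ - y₀ with he
    set γ : ℝ → E := fun t => (φ (w, e) t).1 with hγ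
    have hγd : ∀ t, HasDerivAt γ (XX V q b (γ t, e)).1 t := fun t => hfst (w, e) t
    have hγc : Continuous γ := continuous_iff_continuousAt.2 fun t => (hγd t).continuousAt
    have hseg : ∀ t ∈ Icc (0:ℝ) 1, y₀ + t • e ∈ ball (chartAt E q q) (R / 2) := by
      intro t ht
      have h2 := (convex_ball (chartAt E q q) (R / 2)) hw.2 hy₁ (sub_nonneg.2 ht.2) ht.1
        (by ring)
      have e1 : y₀ + t • e = (1 - t) • y₀ + t • y₁ := by
        rw [he, smul_sub, sub_smul, one_smul]; abel
      rw [e1]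
      exact h2
    have hO : IsOpen {s : ℝ | expm V (γ s) ∈ U} :=
      hUo.preimage ((continuous_expm c hV0 hV).comp hγc)
    have hpd : ∀ s, expm V (γ s) ∈ U → HasDerivAt (fun s => psi V q (γ s)) e s := by
      intro s hs
      have h2 := HasFDerivAt.comp_hasDerivAt (l := psi V q) s
        (((contDiffAt_psi c hV0 hV hs.1).differentiableAt (by norm_num)).hasFDerivAt) (hγd s)
      refine h2.congr_deriv ?_
      rw [XX, if_pos hs.1]
      have h3 : b (psi V q (γ s)) = 1 := by
        apply b.one_of_mem_closedBall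
        exact ball_subset_closedBall hs.2
      simp only
      rw [h3, one_smul]
      obtain ⟨e', he'⟩ := exists_psi_equiv c hV0 hV hR hs.1
      rw [← he', ContinuousLinearMap.inverse_equiv]
      simp
    refine forward_ind (N := fun t => expm V (γ t) = (chartAt E q).symm (y₀ + t • e)) ?_ ?_
    · have e0 : γ 0 = w := by simp only [hγ, hφ, h0]
      rw [e0, zero_smul, add_zero, hy₀]
      exact ((chartAt E q).left_inv hw.1).symm
    · intro t ht
      by_cases hN : expm V (γ t) = (chartAt E q).symm (y₀ + t • e)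
      · have htU : expm V (γ t) ∈ U := by
          rw [hN]
          refine ⟨(chartAt E q).map_target (hballt (hseg t ht)), ?_⟩
          rw [mem_preimage, (chartAt E q).right_inv (hballt (hseg t ht))]
          exact hseg t ht
        obtain ⟨δ, hδ, hsub⟩ := Metric.isOpen_iff.1 hO t htU
        refine ⟨δ, hδ, fun t1 ht1 t2 ht2 hd1 hd2 hle hN1 => ?_⟩
        have hconst : ∀ s1 ∈ ball t δ, ∀ s2 ∈ ball t δ,
            psi V q (γ s1) - s1 • e = psi V q (γ s2) - s2 • e := by
          have hdd : ∀ s ∈ ball t δ, HasDerivAt (fun s => psi V q (γ s) - s • e) 0 s := by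
            intro s hs
            have h2 := (hpd s (hsub hs)).fun_sub ((hasDerivAt_id s).smul_const e)
            exact h2.congr_deriv (by simp)
          intro s1 hs1 s2 hs2
          exact isOpen_ball.is_const_of_deriv_eq_zero (convex_ball t δ).isPreconnected
            (fun s hs => (hdd s hs).differentiableAt.differentiableWithinAt)
            (fun s hs => (hdd s hs).deriv) hs1 hs2
        have hm1 : t1 ∈ ball t δ := by rw [mem_ball, Real.dist_eq]; exact hd1
        have hm2 : t2 ∈ ball t δ := by rw [mem_ball, Real.dist_eq]; exact hd2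
        have h2 := hconst t2 hm2 t1 hm1
        have h3 : psi V q (γ t1) = y₀ + t1 • e := by
          rw [psi, hN1, (chartAt E q).right_inv (hballt (hseg t1 ht1))]
        have h4 : psi V q (γ t2) = y₀ + t2 • e := by
          rw [h3] at h2
          rw [sub_eq_iff_eq_add] at h2
          rw [h2]
          abel
        rw [← h4]
        exact ((chartAt E q).left_inv (hsub hm2).1).symm
      · have hc1 : ContinuousAt (fun s => expm V (γ s)) t :=
          ((continuous_expm c hV0 hV).comp hγc).continuousAt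
        have hc2 : ContinuousAt (fun s : ℝ => (chartAt E q).symm (y₀ + s • e)) t := by
          refine ContinuousAt.comp_of_eq ((chartAt E q).continuousAt_symm
            (hballt (hseg t ht))) (by fun_prop) rfl
        have h2 := (ContinuousAt.ne_iff_eventually_ne hc1 hc2).1 hN
        obtain ⟨δ, hδ, hsub⟩ := Metric.eventually_nhds_iff_ball.1 h2
        refine ⟨δ, hδ, fun t1 ht1 t2 ht2 hd1 hd2 hle hN1 => ?_⟩
        exact absurd hN1 (hsub t1 (by rw [mem_ball, Real.dist_eq]; exact hd1))
  refine ⟨U, hUo, ⟨mem_chart_source E q, mem_ball_self (by positivity)⟩, inter_subset_left, ?_⟩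
  intro w hw
  refine ⟨fun y => (φ (w, y - psi V q w) 1).1, ?_, ?_, ?_⟩
  · have h2 : ContDiff ℝ ∞ (fun y : E => (((w, y - psi V q w) : E × E), (1:ℝ))) :=
      (contDiff_const.prodMk (contDiff_id.sub contDiff_const)).prodMk contDiff_const
    exact contDiff_fst.comp (hφs.comp h2)
  · intro x hx
    have h2 := hlift w hw (chartAt E q x) hx.2 1 (right_mem_Icc.2 zero_le_one)
    simp only
    rw [h2, one_smul, add_sub_cancel]
    exact (chartAt E q).left_inv hx.1
  · show (φ (w, psi V q w - psi V q w) 1).1 = w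
    rw [sub_self]
    have h2 : ∀ t, HasDerivAt (fun t => (φ (w, 0) t).1) 0 t := by
      intro t
      refine (hfst (w, 0) t).congr_deriv ?_
      simp [XX]
    have := is_const_of_deriv_eq_zero (fun t => (h2 t).differentiableAt)
      (fun t => (h2 t).deriv) 1 0
    rw [this]
    simp only [hφ, h0]

include hV0 hV hR in
theorem sec_expm : Sec (expm V) := by
  intro q
  obtain ⟨U, h1, h2, h3, h4⟩ := exists_sections c hV0 hV hR q
  refine ⟨U, h1, h2, fun w hw => ?_⟩
  obtain ⟨F, hF, hF1, hF2⟩ := h4 w hw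
  exact ⟨fun x => F (chartAt E q x), hF.continuous.comp_continuousOn
    ((chartAt E q).continuousOn.mono h3), hF1, hF2⟩

include hV0 hV hR in
/-- **Cartan–Hadamard.** -/
theorem expm_bijective [SimplyConnectedSpace M] : Function.Bijective (expm V) :=
  (sec_expm c hV0 hV hR).bijective (isLocalHomeomorph_expm c hV0 hV hR)
    (T2Space.isSeparatedMap _)

include hV0 hV hR in
/-- the inverse of the exponential map is smooth -/
theorem expm_inv_smooth [SimplyConnectedSpace M] {L : M → E} (hL : ∀ x, L (expm V x) = x) :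
    ContMDiff 𝓘(ℝ, E) 𝓘(ℝ, E) ∞ L := by
  intro q
  obtain ⟨U, h1, h2, h3, h4⟩ := exists_sections c hV0 hV hR q
  obtain ⟨w, hw⟩ := (expm_bijective c hV0 hV hR).2 q
  obtain ⟨F, hF, hF1, hF2⟩ := h4 w (by rw [hw]; exact h2)
  have hev : L =ᶠ[𝓝 q] fun x => F (chartAt E q x) := by
    filter_upwards [h1.mem_nhds h2] with x hx
    rw [← hF1 x hx, hL, hF1 x hx]
  have h5 : ContMDiffAt 𝓘(ℝ, E) 𝓘(ℝ, E) ∞ (chartAt E q) q :=
    contMDiffAt_of_mem_maximalAtlas (IsManifold.chart_mem_maximalAtlas q) (mem_chart_source E q)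
  exact (ContMDiffAt.comp q hF.contMDiff.contMDiffAt h5).congr_of_eventuallyEq hev

include hV0 hV in
theorem contMDiff_expm : ContMDiff 𝓘(ℝ, E) 𝓘(ℝ, E) ∞ (expm V) := by
  intro x
  rw [contMDiffAt_iff]
  refine ⟨(continuous_expm c hV0 hV).continuousAt, ?_⟩
  simp only [mfld_simps]
  exact (contDiffAt_psi c hV0 hV (mem_chart_source E (expm V x))).contDiffWithinAt

end Pool.Agent.W585
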