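import Mathlib
import Pool.Agent.W585.Param

/-!
Almost Kähler structures on a Euclidean space `E` in which the straight lines through the origin
are geodesics and radial contractions do not increase lengths (as in exponential coordinates of a
Hadamard manifold): algebra, estimates, and a primitive of the symplectic form of linear growth.
-/

set_option autoImplicit false
set_option maxSynthPendingDepth 3
set_option linter.unusedSectionVars false
set_option linter.deprecated false

open MeasureTheory Set Filter Topology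
open scoped ContDiff

namespace Pool.Agent.W585

/-- almost Kähler structure in polar form -/
structure Kah (E : Type) [NormedAddCommGroup E] [InnerProductSpace ℝ E] where
  Ω : E → E →L[ℝ] E →L[ℝ] ℝ
  J : E → E →L[ℝ] E
  hΩ : ContDiff ℝ ∞ Ω
  hJ : ContDiff ℝ ∞ J
  alt : ∀ x u v, Ω x u v = - Ω x v u
  closed : ∀ x u v w, fderiv ℝ Ω x u v w + fderiv ℝ Ω x v w u + fderiv ℝ Ω x w u v = 0
  sq : ∀ x v, J x (J x v) = - v
  comp : ∀ x u v, Ω x (J x u) (J x v) = Ω x u v
  pos : ∀ x v, v ≠ 0 → 0 < Ω x v (J x v)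
  gauss : ∀ x v, Ω x x (J x v) = inner ℝ x v
  mono : ∀ x v, 0 ≤ fderiv ℝ (fun y => Ω y v (J y v)) x x

namespace Kah

variable {E : Type} [NormedAddCommGroup E] [InnerProductSpace ℝ E] (K : Kah E)

/-- the squared length of `v` at `x` -/
noncomputable def g (x v : E) : ℝ := K.Ω x v (K.J x v)

theorem g_nonneg (x v : E) : 0 ≤ K.g x v := by
  by_cases hv : v = 0
  · simp [g, hv]
  · exact (K.pos x v hv).le

theorem g_pos {x v : E} (hv : v ≠ 0) : 0 < K.g x v := K.pos x v hv

theorem g_smul (x v : E) (t : ℝ) : K.g x (t • v) = t ^ 2 * K.g x v := by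
  simp [g]; ring

theorem g_J (x v : E) : K.g x (K.J x v) = K.g x v := by
  rw [g, K.comp]; rfl

theorem symm (x u v : E) : K.Ω x u (K.J x v) = K.Ω x v (K.J x u) := by
  have h := K.comp x u (K.J x v)
  rw [← h, K.sq, map_neg, ← K.alt x v (K.J x u)]

theorem cs (x u v : E) : (K.Ω x u v) ^ 2 ≤ K.g x u * K.g x v := by
  -- the symmetric form G(u,w) = Ω(u, J w), with w = J v
  set w := K.J x v with hw
  have hΩ : K.Ω x u v = - K.Ω x u (K.J x w) := by rw [hw, K.sq, map_neg, neg_neg]
  have hgw : K.g x w = K.g x v := K.g_J x v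
  rw [← hgw, hΩ, neg_sq]
  set b := K.Ω x u (K.J x w) with hb
  by_cases hw0 : w = 0
  · have : b = 0 := by rw [hb, hw0]; simp
    rw [this]
    simp only [ne_eq, OfNat.ofNat_ne_zero, not_false_eq_true, zero_pow]
    exact mul_nonneg (K.g_nonneg _ _) (K.g_nonneg _ _)
  · have hp : 0 < K.g x w := K.g_pos hw0
    have h := K.g_nonneg x (K.g x w • u - b • w)
    have e : K.g x (K.g x w • u - b • w) = K.g x w * (K.g x w * K.g x u - b ^ 2) := by
      have h1 : K.Ω x w (K.J x u) = b := (K.symm x u w).symm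
      have h2 : K.Ω x u (K.J x u) = K.g x u := rfl
      have h3 : K.Ω x w (K.J x w) = K.g x w := rfl
      show K.Ω x (K.g x w • u - b • w) (K.J x (K.g x w • u - b • w)) = _
      simp only [map_sub, map_smul, sub_apply, smul_apply,
        smul_eq_mul]
      rw [h1, h2, h3, ← hb]
      ring
    rw [e] at h
    nlinarith [nonneg_of_mul_nonneg_right h hp]

theorem abs_le (x u v : E) : |K.Ω x u v| ≤ Real.sqrt (K.g x u) * Real.sqrt (K.g x v) := by
  rw [← Real.sqrt_mul (K.g_nonneg x u)]
  exact Real.abs_le_sqrt (K.cs x u v)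

theorem g_self (x : E) : K.g x x = ‖x‖ ^ 2 := by
  rw [g, K.gauss, real_inner_self_eq_norm_sq]

theorem continuous_Ω : Continuous K.Ω := K.hΩ.continuous
theorem continuous_J : Continuous K.J := K.hJ.continuous

theorem gauss_ray (x v : E) (t : ℝ) : K.Ω (t • x) x (K.J (t • x) v) = inner ℝ x v := by
  have h1 : ∀ t : ℝ, t ≠ 0 → K.Ω (t • x) x (K.J (t • x) v) = inner ℝ x v := by
    intro t ht
    have h := K.gauss (t • x) v
    rw [map_smul, smul_apply, inner_smul_left, smul_eq_mul] at h
    exact mul_left_cancel₀ ht (by simpa using h)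
  by_cases ht : t = 0
  · have hc : Continuous fun t : ℝ => K.Ω (t • x) x (K.J (t • x) v) := by
      have h2 := K.continuous_Ω
      have h3 := K.continuous_J
      fun_prop
    have h4 : (fun t : ℝ => K.Ω (t • x) x (K.J (t • x) v)) = fun _ => inner ℝ x v := by
      have hd : Dense ({0}ᶜ : Set ℝ) := dense_compl_singleton 0
      exact hc.ext_on hd continuous_const fun t ht => h1 t ht
    exact congrFun h4 t
  · exact h1 t ht

theorem g_ray (x : E) (t : ℝ) : K.g (t • x) x = ‖x‖ ^ 2 := by
  rw [g, K.gauss_ray, real_inner_self_eq_norm_sq]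

theorem G_zero (u v : E) : K.Ω 0 u (K.J 0 v) = inner ℝ u v := by
  have := K.gauss_ray u v 0
  simpa using this

theorem g_zero (v : E) : K.g 0 v = ‖v‖ ^ 2 := by
  rw [g, K.G_zero, real_inner_self_eq_norm_sq]

theorem contDiff_g (v : E) : ContDiff ℝ ∞ (fun x => K.g x v) := by
  have h1 := K.hΩ
  have h2 := K.hJ
  exact (h1.clm_apply contDiff_const).clm_apply (h2.clm_apply contDiff_const)

theorem g_ray_le {x v : E} {t : ℝ} (h0 : 0 ≤ t) (h1 : t ≤ 1) : K.g (t • x) v ≤ K.g x v := by
  have hd : ∀ s : ℝ, HasDerivAt (fun s : ℝ => K.g (s • x) v)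
      (fderiv ℝ (fun y => K.g y v) (s • x) x) s := by
    intro s
    have h2 : HasDerivAt (fun s : ℝ => s • x) x s := by
      simpa using (hasDerivAt_id s).smul_const x
    exact (((K.contDiff_g v).differentiable (by simp) (s • x)).hasFDerivAt).comp_hasDerivAt s h2
  have hm : MonotoneOn (fun s : ℝ => K.g (s • x) v) (Icc 0 1) := by
    refine monotoneOn_of_deriv_nonneg (convex_Icc 0 1)
      (fun s _ => (hd s).continuousAt.continuousWithinAt)
      (fun s _ => (hd s).differentiableAt.differentiableWithinAt) ?_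
    intro s hs
    rw [interior_Icc] at hs
    rw [(hd s).deriv]
    have h3 := K.mono (s • x) v
    rw [map_smul, smul_eq_mul] at h3
    exact nonneg_of_mul_nonneg_right h3 hs.1
  have := hm ⟨h0, h1⟩ (right_mem_Icc.2 zero_le_one) h1
  simpa using this

theorem abs_ray_le {x v : E} {t : ℝ} (h0 : 0 ≤ t) (h1 : t ≤ 1) :
    |K.Ω (t • x) x v| ≤ ‖x‖ * Real.sqrt (K.g x v) := by
  refine (K.abs_le _ _ _).trans ?_
  rw [K.g_ray, Real.sqrt_sq (norm_nonneg x)]
  exact mul_le_mul_of_nonneg_left (Real.sqrt_le_sqrt (K.g_ray_le h0 h1)) (norm_nonneg x)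

/-! ### the primitive -/

/-- the integrand of the radial primitive -/
noncomputable def pint (x : E) (t : ℝ) : E →L[ℝ] ℝ := t • K.Ω (t • x) x

/-- the radial primitive of `Ω` -/
noncomputable def prim (x : E) : E →L[ℝ] ℝ := ∫ t in (0:ℝ)..1, K.pint x t

theorem contDiff_pint : ContDiff ℝ ∞ (fun p : E × ℝ => K.pint p.1 p.2) := by
  have h1 : ContDiff ℝ ∞ (fun p : E × ℝ => K.Ω (p.2 • p.1)) :=
    K.hΩ.comp (contDiff_snd.smul contDiff_fst)
  exact contDiff_snd.smul (h1.clm_apply contDiff_fst)

theorem fderiv_pint (x : E) (t : ℝ) (u v : E) : fderiv ℝ (fun y => K.pint y t) x u v =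
    t ^ 2 * fderiv ℝ K.Ω (t • x) u x v + t * K.Ω (t • x) u v := by
  have h1 : HasFDerivAt (fun y : E => t • y) (t • ContinuousLinearMap.id ℝ E) x :=
    (hasFDerivAt_id x).const_smul t
  have h2 : HasFDerivAt (fun y : E => K.Ω (t • y))
      ((fderiv ℝ K.Ω (t • x)).comp (t • ContinuousLinearMap.id ℝ E)) x :=
    ((K.hΩ.differentiable (by simp) (t • x)).hasFDerivAt).comp x h1
  have h3 := (h2.clm_apply (hasFDerivAt_id x)).const_smul t
  have h4 : HasFDerivAt (fun y => K.pint y t) _ x := h3
  rw [h4.fderiv]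
  simp
  ring

variable [FiniteDimensional ℝ E]

theorem contDiff_prim : ContDiff ℝ ∞ K.prim := contDiff_param K.contDiff_pint 0 1

theorem prim_apply (x v : E) : K.prim x v = ∫ t in (0:ℝ)..1, t * K.Ω (t • x) x v := by
  rw [prim, ContinuousLinearMap.intervalIntegral_apply]
  · rfl
  · have : Continuous fun t => K.pint x t :=
      K.contDiff_pint.continuous.comp (by fun_prop : Continuous fun t : ℝ => (x, t))
    exact this.intervalIntegrable _ _

theorem prim_le (x v : E) : |K.prim x v| ≤ ‖x‖ * Real.sqrt (K.g x v) := by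
  rw [K.prim_apply]
  have h := intervalIntegral.norm_integral_le_of_norm_le_const (a := (0:ℝ)) (b := 1)
    (f := fun t => t * K.Ω (t • x) x v) (C := ‖x‖ * Real.sqrt (K.g x v)) ?_
  · simpa using h
  · intro t ht
    rw [uIoc_of_le zero_le_one] at ht
    rw [norm_mul, Real.norm_eq_abs, Real.norm_eq_abs, abs_of_pos ht.1]
    have h1 := K.abs_ray_le (x := x) (v := v) ht.1.le ht.2
    have h2 : 0 ≤ |K.Ω (t • x) x v| := abs_nonneg _
    nlinarith [ht.2]

theorem d_prim (x u v : E) :
    fderiv ℝ K.prim x u v - fderiv ℝ K.prim x v u = K.Ω x u v := by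
  have hF1 : ContDiff ℝ 1 (fun p : E × ℝ => K.pint p.1 p.2) := K.contDiff_pint.of_le (by norm_cast)
  have hcont := continuous_fderiv_param hF1 x
  have happ : ∀ u v : E, fderiv ℝ K.prim x u v =
      ∫ t in (0:ℝ)..1, fderiv ℝ (fun y => K.pint y t) x u v := by
    intro u v
    have h1 : fderiv ℝ K.prim x u = ∫ t in (0:ℝ)..1, fderiv ℝ (fun y => K.pint y t) x u :=
      fderiv_param_apply hF1 0 1 x u
    rw [h1, ContinuousLinearMap.intervalIntegral_apply]
    exact (hcont.clm_apply continuous_const).intervalIntegrable _ _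
  have hu : ∀ u v : E, IntervalIntegrable (fun t : ℝ => fderiv ℝ (fun y => K.pint y t) x u v)
      volume 0 1 := fun u v =>
    ((hcont.clm_apply continuous_const).clm_apply continuous_const).intervalIntegrable _ _
  rw [happ, happ, ← intervalIntegral.integral_sub (hu u v) (hu v u)]
  have key : ∀ t : ℝ, fderiv ℝ (fun y => K.pint y t) x u v - fderiv ℝ (fun y => K.pint y t) x v u =
      t ^ 2 * fderiv ℝ K.Ω (t • x) x u v + 2 * t * K.Ω (t • x) u v := by
    intro t
    rw [K.fderiv_pint, K.fderiv_pint]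
    have h1 := K.closed (t • x) u x v
    have ha : ∀ y a b c, fderiv ℝ K.Ω y a b c = - fderiv ℝ K.Ω y a c b := by
      intro y a b c
      have hd := (K.hΩ.differentiable (by simp) y).hasFDerivAt
      have e1 : HasFDerivAt (fun z => K.Ω z b c) _ y :=
        (hd.clm_apply (hasFDerivAt_const b y)).clm_apply (hasFDerivAt_const c y)
      have e2 : HasFDerivAt (fun z => K.Ω z c b) _ y :=
        (hd.clm_apply (hasFDerivAt_const c y)).clm_apply (hasFDerivAt_const b y)
      have e3 : (fun z => K.Ω z b c) = fun z => - K.Ω z c b := funext fun z => K.alt z b c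
      have e4 := e1.fderiv
      rw [e3, e2.fun_neg.fderiv] at e4
      have e5 := congrArg (fun L : E →L[ℝ] ℝ => L a) e4
      simp at e5
      linarith
    have h2 := ha (t • x) v u x
    have h3 := ha (t • x) x v u
    have h4 := K.alt (t • x) v u
    rw [h4]
    linear_combination t ^ 2 * h1 - t ^ 2 * h2 - t ^ 2 * h3
  simp only [key]
  have hd : ∀ t : ℝ, HasDerivAt (fun t : ℝ => t ^ 2 * K.Ω (t • x) u v)
      (t ^ 2 * fderiv ℝ K.Ω (t • x) x u v + 2 * t * K.Ω (t • x) u v) t := by
    intro t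
    have h1 : HasDerivAt (fun s : ℝ => s • x) x t := by
      simpa using (hasDerivAt_id t).smul_const x
    have h2 : HasDerivAt (fun s : ℝ => K.Ω (s • x)) (fderiv ℝ K.Ω (t • x) x) t :=
      HasFDerivAt.comp_hasDerivAt (l := K.Ω) t
        ((K.hΩ.differentiable (by simp) (t • x)).hasFDerivAt) h1
    have h3 := (h2.clm_apply (hasDerivAt_const t u)).clm_apply (hasDerivAt_const t v)
    have h4 := (hasDerivAt_pow 2 t).mul h3
    refine h4.congr_deriv ?_
    simp
    ring
  have hc : Continuous fun t : ℝ => t ^ 2 * fderiv ℝ K.Ω (t • x) x u v + 2 * t * K.Ω (t • x) u v := by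
    have h1 := K.continuous_Ω
    have h2 : Continuous (fderiv ℝ K.Ω) := K.hΩ.continuous_fderiv (by simp)
    fun_prop
  rw [intervalIntegral.integral_eq_sub_of_hasDerivAt (fun t _ => hd t) (hc.intervalIntegrable _ _)]
  simp

end Kah

end Pool.Agent.W585
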