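import Mathlib
import Pool.Agent.W585.Kah

/-!
The modified primitive `lam` of a symplectic form tamed by `J`: it is the flat one near the origin
and `½ Ω_x(x,·)` far away.
-/

set_option autoImplicit false
set_option maxSynthPendingDepth 3
set_option linter.unusedSectionVars false
set_option linter.deprecated false

open MeasureTheory Set Filter Topology
open scoped ContDiff

namespace Pool.Agent.W585

theorem smoothTransition_deriv_bound : ∃ L : ℝ, 0 ≤ L ∧ ∀ s, |deriv Real.smoothTransition s| ≤ L := by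
  have hc : Continuous (deriv Real.smoothTransition) :=
    (Real.smoothTransition.contDiff (n := 1)).continuous_deriv (by simp)
  obtain ⟨L, hL⟩ := (isCompact_Icc (a := (0:ℝ)) (b := 1)).exists_bound_of_continuousOn
    hc.continuousOn
  refine ⟨max L 0, le_max_right _ _, fun s => ?_⟩
  by_cases h : s ∈ Icc (0:ℝ) 1
  · exact (hL s h).trans (le_max_left _ _)
  · have h0 : deriv Real.smoothTransition s = 0 := by
      rw [mem_Icc, not_and_or, not_le, not_le] at h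
      rcases h with h | h
      · have : Real.smoothTransition =ᶠ[𝓝 s] fun _ => 0 := by
          filter_upwards [Iio_mem_nhds h] with y hy
          exact Real.smoothTransition.zero_of_nonpos (le_of_lt hy)
        rw [this.deriv_eq]; simp
      · have : Real.smoothTransition =ᶠ[𝓝 s] fun _ => 1 := by
          filter_upwards [Ioi_mem_nhds h] with y hy
          exact Real.smoothTransition.one_of_one_le (le_of_lt hy)
        rw [this.deriv_eq]; simp
    rw [h0, abs_zero]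
    exact le_max_right _ _

namespace Kah

variable {E : Type} [NormedAddCommGroup E] [InnerProductSpace ℝ E] (K : Kah E)

/-- the exterior derivative of a one form -/
noncomputable def _root_.Pool.Agent.W585.dd {E : Type} [NormedAddCommGroup E]
    [InnerProductSpace ℝ E] (l : E → E →L[ℝ] ℝ) (x u v : E) : ℝ :=
  fderiv ℝ l x u v - fderiv ℝ l x v u

theorem fderiv_alt (y a b c : E) : fderiv ℝ K.Ω y a b c = - fderiv ℝ K.Ω y a c b := by
  have hd := (K.hΩ.differentiable (by simp) y).hasFDerivAt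
  have e1 : HasFDerivAt (fun z => K.Ω z b c) _ y :=
    (hd.clm_apply (hasFDerivAt_const b y)).clm_apply (hasFDerivAt_const c y)
  have e2 : HasFDerivAt (fun z => K.Ω z c b) _ y :=
    (hd.clm_apply (hasFDerivAt_const c y)).clm_apply (hasFDerivAt_const b y)
  have e3 : (fun z => K.Ω z b c) = fun z => - K.Ω z c b := funext fun z => K.alt z b c
  have e4 := e1.fderiv
  rw [e3, e2.fun_neg.fderiv] at e4
  have e5 := congrArg (fun L : E →L[ℝ] ℝ => L a) e4
  simp at e5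
  linarith

/-- **the key identity**: the radial derivative of `Ω` tames `J` -/
theorem tame (x v : E) : 0 ≤ fderiv ℝ K.Ω x x v (K.J x v) := by
  have hdΩ := (K.hΩ.differentiable (by simp) x).hasFDerivAt
  have hdJ := (K.hJ.differentiable (by simp) x).hasFDerivAt
  have hg : ∀ w, fderiv ℝ (fun y => K.Ω y w (K.J y w)) x x =
      fderiv ℝ K.Ω x x w (K.J x w) + K.Ω x w (fderiv ℝ K.J x x w) := by
    intro w
    have e1 : HasFDerivAt (fun y => K.Ω y w (K.J y w)) _ x :=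
      (hdΩ.clm_apply (hasFDerivAt_const w x)).clm_apply (hdJ.clm_apply (hasFDerivAt_const w x))
    rw [e1.fderiv]
    simp
    ring
  -- `J (DJ) + (DJ) J = 0`
  have hJJ : K.J x (fderiv ℝ K.J x x v) + fderiv ℝ K.J x x (K.J x v) = 0 := by
    have e1 : HasFDerivAt (fun y => K.J y (K.J y v)) _ x :=
      hdJ.clm_apply (hdJ.clm_apply (hasFDerivAt_const v x))
    have e2 : (fun y => K.J y (K.J y v)) = fun _ => -v := funext fun y => K.sq y v
    rw [e2] at e1
    have e3 := (hasFDerivAt_const (-v) x).unique e1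
    have e4 := congrArg (fun L : E →L[ℝ] E => L x) e3
    simp at e4
    exact e4.symm
  have h1 := K.mono x v
  have h2 := K.mono x (K.J x v)
  rw [hg] at h1 h2
  rw [K.sq, map_neg, K.fderiv_alt x x (K.J x v) v, neg_neg] at h2
  have h3 : fderiv ℝ K.J x x (K.J x v) = - K.J x (fderiv ℝ K.J x x v) := by
    rw [← sub_eq_zero, sub_neg_eq_add, add_comm]; exact hJJ
  rw [h3, map_neg, K.comp] at h2
  linarith

/-! ### the cut-off -/

/-- the cut-off function -/
noncomputable def _root_.Pool.Agent.W585.cut {E : Type} [NormedAddCommGroup E]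
    [InnerProductSpace ℝ E] (δ : ℝ) (x : E) : ℝ := Real.smoothTransition (‖x‖ ^ 2 / δ ^ 2 - 1)

theorem contDiff_cut (δ : ℝ) : ContDiff ℝ ∞ (cut δ : E → ℝ) := by
  have h : ContDiff ℝ ∞ (fun x : E => ‖x‖ ^ 2 / δ ^ 2 - 1) :=
    ((contDiff_norm_sq ℝ).div_const _).sub contDiff_const
  exact Real.smoothTransition.contDiff.comp h

theorem cut_nonneg (δ : ℝ) (x : E) : 0 ≤ cut δ x := Real.smoothTransition.nonneg _
theorem cut_le_one (δ : ℝ) (x : E) : cut δ x ≤ 1 := Real.smoothTransition.le_one _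

theorem cut_zero {δ : ℝ} (hδ : 0 < δ) {x : E} (hx : ‖x‖ ≤ δ) : cut δ x = 0 := by
  apply Real.smoothTransition.zero_of_nonpos
  have : ‖x‖ ^ 2 / δ ^ 2 ≤ 1 := by
    rw [div_le_one (by positivity)]
    exact pow_le_pow_left₀ (norm_nonneg _) hx 2
  linarith

theorem cut_one {δ : ℝ} (hδ : 0 < δ) {x : E} (hx : 2 * δ ^ 2 ≤ ‖x‖ ^ 2) : cut δ x = 1 := by
  apply Real.smoothTransition.one_of_one_le
  have : 2 ≤ ‖x‖ ^ 2 / δ ^ 2 := by
    rw [le_div_iff₀ (by positivity)]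
    exact hx
  linarith

theorem fderiv_cut (δ : ℝ) (x u : E) : fderiv ℝ (cut δ : E → ℝ) x u =
    deriv Real.smoothTransition (‖x‖ ^ 2 / δ ^ 2 - 1) * (2 * inner ℝ x u / δ ^ 2) := by
  have h1 : HasDerivAt Real.smoothTransition
      (deriv Real.smoothTransition (‖x‖ ^ 2 / δ ^ 2 - 1)) (‖x‖ ^ 2 / δ ^ 2 - 1) :=
    ((Real.smoothTransition.contDiff (n := 1)).differentiable (by simp) _).hasDerivAt
  have h2 : HasFDerivAt (fun x : E => ‖x‖ ^ 2 / δ ^ 2 - 1) ((δ ^ 2)⁻¹ • (2 • (innerSL ℝ x))) x := by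
    have h3 : HasFDerivAt (fun x : E => ‖x‖ ^ 2) (2 • (innerSL ℝ x)) x := by
      simpa using (hasFDerivAt_id x).norm_sq
    have h4 := (h3.const_mul ((δ ^ 2)⁻¹)).sub_const 1
    refine h4.congr_of_eventuallyEq (Eventually.of_forall fun y => ?_)
    simp only
    rw [div_eq_inv_mul]
  have h3 : HasFDerivAt (cut δ : E → ℝ) _ x := HasDerivAt.comp_hasFDerivAt x h1 h2
  rw [h3.fderiv]
  simp
  left
  ring

theorem abs_fderiv_cut_le {L : ℝ} (hL : ∀ s, |deriv Real.smoothTransition s| ≤ L) {δ : ℝ}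
    (hδ : 0 < δ) {x : E} (hx : ‖x‖ ^ 2 ≤ 2 * δ ^ 2) (u : E) :
    |fderiv ℝ (cut δ : E → ℝ) x u| * ‖x‖ ≤ 4 * L * ‖u‖ := by
  have hL0 : 0 ≤ L := (abs_nonneg _).trans (hL 0)
  rw [fderiv_cut, abs_mul]
  have h1 : |2 * inner ℝ x u / δ ^ 2| ≤ 2 * (‖x‖ * ‖u‖) / δ ^ 2 := by
    rw [abs_div, abs_of_pos (show (0:ℝ) < δ ^ 2 by positivity), abs_mul, abs_two]
    have := abs_real_inner_le_norm x u
    gcongr
  have h2 : 2 * (‖x‖ * ‖u‖) / δ ^ 2 * ‖x‖ ≤ 4 * ‖u‖ := by
    have e : 2 * (‖x‖ * ‖u‖) / δ ^ 2 * ‖x‖ = 2 * ‖u‖ * (‖x‖ ^ 2 / δ ^ 2) := by ring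
    rw [e]
    have h3 : ‖x‖ ^ 2 / δ ^ 2 ≤ 2 := by
      rw [div_le_iff₀ (by positivity)]
      exact hx
    have := norm_nonneg u
    nlinarith
  calc _ ≤ L * (2 * (‖x‖ * ‖u‖) / δ ^ 2) * ‖x‖ := by
        have := norm_nonneg x
        have := hL (‖x‖ ^ 2 / δ ^ 2 - 1)
        gcongr
    _ = L * (2 * (‖x‖ * ‖u‖) / δ ^ 2 * ‖x‖) := by ring
    _ ≤ L * (4 * ‖u‖) := mul_le_mul_of_nonneg_left h2 hL0
    _ = _ := by ring

/-! ### the modified primitive -/

/-- the modified coefficient -/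
noncomputable def B (δ : ℝ) (x : E) : E →L[ℝ] E →L[ℝ] ℝ := K.Ω (cut δ x • x)

/-- the modified primitive -/
noncomputable def lam (δ : ℝ) (x : E) : E →L[ℝ] ℝ := (1 / 2 : ℝ) • K.B δ x x

theorem contDiff_B (δ : ℝ) : ContDiff ℝ ∞ (K.B δ) :=
  K.hΩ.comp ((contDiff_cut δ).smul contDiff_id)

theorem contDiff_lam (δ : ℝ) : ContDiff ℝ ∞ (K.lam δ) := by
  have h : ContDiff ℝ ∞ (fun x => K.B δ x x) := (K.contDiff_B δ).clm_apply contDiff_id
  exact h.const_smul (1 / 2 : ℝ)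

theorem fderiv_B (δ : ℝ) (x u : E) : fderiv ℝ (K.B δ) x u =
    fderiv ℝ K.Ω (cut δ x • x) (cut δ x • u + fderiv ℝ (cut δ : E → ℝ) x u • x) := by
  have h1 : HasFDerivAt (cut δ : E → ℝ) (fderiv ℝ (cut δ : E → ℝ) x) x :=
    ((contDiff_cut δ).differentiable (by simp) x).hasFDerivAt
  have h2 : HasFDerivAt (fun x : E => cut δ x • x) _ x := h1.smul (hasFDerivAt_id x)
  have h3 : HasFDerivAt (K.B δ) _ x := HasFDerivAt.comp (g := K.Ω) x
    ((K.hΩ.differentiable (by simp) (cut δ x • x)).hasFDerivAt) h2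
  rw [h3.fderiv]
  simp

theorem fderiv_lam (δ : ℝ) (x u v : E) : fderiv ℝ (K.lam δ) x u v =
    (1 / 2) * (fderiv ℝ (K.B δ) x u x v + K.B δ x u v) := by
  have h1 : HasFDerivAt (K.B δ) (fderiv ℝ (K.B δ) x) x :=
    ((K.contDiff_B δ).differentiable (by simp) x).hasFDerivAt
  have h2 : HasFDerivAt (K.lam δ) _ x := (h1.clm_apply (hasFDerivAt_id x)).const_smul (1 / 2 : ℝ)
  rw [h2.fderiv]
  simp
  ring

theorem dd_lam (δ : ℝ) (x u v : E) : dd (K.lam δ) x u v =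
    K.B δ x u v + (1 / 2) * (fderiv ℝ (K.B δ) x u x v - fderiv ℝ (K.B δ) x v x u) := by
  rw [dd, K.fderiv_lam, K.fderiv_lam]
  have : K.B δ x v u = - K.B δ x u v := K.alt _ _ _
  rw [this]
  ring

theorem lam_le (δ : ℝ) (x v : E) : |K.lam δ x v| ≤ ‖x‖ * Real.sqrt (K.g x v) := by
  have h := K.abs_ray_le (x := x) (v := v) (cut_nonneg δ x) (cut_le_one δ x)
  have e : K.lam δ x v = (1 / 2) * K.Ω (cut δ x • x) x v := rfl
  rw [e, abs_mul, abs_of_pos (by norm_num : (0:ℝ) < 1 / 2)]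
  have := abs_nonneg (K.Ω (cut δ x • x) x v)
  linarith

/-- far away -/
theorem dd_lam_far {δ : ℝ} (hδ : 0 < δ) {x : E} (hx : 2 * δ ^ 2 < ‖x‖ ^ 2) (u v : E) :
    dd (K.lam δ) x u v = K.Ω x u v + (1 / 2) * fderiv ℝ K.Ω x x u v := by
  have hev : K.B δ =ᶠ[𝓝 x] K.Ω := by
    have : {y : E | 2 * δ ^ 2 < ‖y‖ ^ 2} ∈ 𝓝 x :=
      (isOpen_lt continuous_const (by fun_prop)).mem_nhds hx
    filter_upwards [this] with y hy
    rw [B, cut_one hδ (le_of_lt hy), one_smul]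
  rw [K.dd_lam, hev.fderiv_eq, hev.eq_of_nhds]
  have h1 := K.closed x u x v
  have h2 := K.fderiv_alt x v u x
  have h3 := K.fderiv_alt x x u v
  linarith

theorem lam_far {δ : ℝ} (hδ : 0 < δ) {x : E} (hx : 2 * δ ^ 2 ≤ ‖x‖ ^ 2) (v : E) :
    K.lam δ x v = (1 / 2) * K.Ω x x v := by
  show (1 / 2) * K.Ω (cut δ x • x) x v = _
  rw [cut_one hδ hx, one_smul]

/-- near the origin -/
theorem lam_near {δ : ℝ} (hδ : 0 < δ) {x : E} (hx : ‖x‖ ≤ δ) (v : E) :
    K.lam δ x v = (1 / 2) * K.Ω 0 x v := by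
  show (1 / 2) * K.Ω (cut δ x • x) x v = _
  rw [cut_zero hδ hx, zero_smul]

theorem dd_lam_near {δ : ℝ} (hδ : 0 < δ) {x : E} (hx : ‖x‖ < δ) (u v : E) :
    dd (K.lam δ) x u v = K.Ω 0 u v := by
  have hev : K.B δ =ᶠ[𝓝 x] fun _ => K.Ω 0 := by
    have : {y : E | ‖y‖ < δ} ∈ 𝓝 x :=
      (isOpen_lt (by fun_prop) continuous_const).mem_nhds hx
    filter_upwards [this] with y hy
    rw [B, cut_zero hδ (le_of_lt hy), zero_smul]
  rw [K.dd_lam, hev.fderiv_eq, hev.eq_of_nhds]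
  simp

theorem norm_J_zero (v : E) : ‖K.J 0 v‖ = ‖v‖ := by
  have h1 := K.g_J 0 v
  rw [K.g_zero, K.g_zero] at h1
  exact (sq_eq_sq₀ (norm_nonneg (K.J 0 v)) (norm_nonneg v)).1 h1

theorem abs_zero_le (u v : E) : |K.Ω 0 u v| ≤ ‖u‖ * ‖v‖ := by
  have h := K.abs_le 0 u v
  rw [K.g_zero, K.g_zero, Real.sqrt_sq (norm_nonneg _), Real.sqrt_sq (norm_nonneg _)] at h
  exact h

theorem norm_sq_le_g (x v : E) : ‖v‖ ^ 2 ≤ K.g x v := by
  have := K.g_ray_le (x := x) (v := v) le_rfl zero_le_one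
  rwa [zero_smul, K.g_zero] at this

end Kah

end Pool.Agent.W585
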