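import Mathlib
import Pool.Agent.W585.Lam

/-! Existence of a good modified primitive. -/

set_option autoImplicit false
set_option maxSynthPendingDepth 3
set_option linter.unusedSectionVars false
set_option linter.deprecated false

open MeasureTheory Set Filter Topology
open scoped ContDiff

namespace Pool.Agent.W585

namespace Kah

variable {E : Type} [NormedAddCommGroup E] [InnerProductSpace ℝ E] (K : Kah E)

theorem exists_rho (L : ℝ) (hL : 0 ≤ L) : ∃ ρ : ℝ, 0 < ρ ∧ ∀ x : E, ‖x‖ ≤ ρ →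
    ‖K.Ω x - K.Ω 0‖ ≤ 1 / 20 ∧ ‖K.J x - K.J 0‖ ≤ 1 / 10 ∧
      ‖fderiv ℝ K.Ω x‖ * (1 + 4 * L) * ρ ≤ 1 / 20 := by
  have h1 : ∀ᶠ x in 𝓝 (0 : E), ‖K.Ω x - K.Ω 0‖ < 1 / 20 := by
    have hc : ContinuousAt (fun x => ‖K.Ω x - K.Ω 0‖) 0 :=
      ((K.continuous_Ω.sub continuous_const).norm).continuousAt
    exact hc.eventually_lt continuousAt_const (by simp)
  have h2 : ∀ᶠ x in 𝓝 (0 : E), ‖K.J x - K.J 0‖ < 1 / 10 := by
    have hc : ContinuousAt (fun x => ‖K.J x - K.J 0‖) 0 :=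
      ((K.continuous_J.sub continuous_const).norm).continuousAt
    exact hc.eventually_lt continuousAt_const (by simp)
  have h3 : ∀ᶠ x in 𝓝 (0 : E), ‖fderiv ℝ K.Ω x‖ < ‖fderiv ℝ K.Ω 0‖ + 1 := by
    have hc : ContinuousAt (fun x => ‖fderiv ℝ K.Ω x‖) 0 :=
      ((K.hΩ.continuous_fderiv (by simp)).norm).continuousAt
    exact hc.eventually_lt continuousAt_const (by simp)
  obtain ⟨r, hr, h⟩ := Metric.eventually_nhds_iff.1 (h1.and (h2.and h3))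
  set M := ‖fderiv ℝ K.Ω 0‖ + 1 with hM
  have hMpos : 0 < M := by positivity
  refine ⟨min (r / 2) (1 / (20 * M * (1 + 4 * L))), by positivity, fun x hx => ?_⟩
  have hxr : dist x 0 < r := by
    rw [dist_zero_right]
    have := hx.trans (min_le_left _ _)
    linarith
  obtain ⟨a1, a2, a3⟩ := h hxr
  refine ⟨a1.le, a2.le, ?_⟩
  calc ‖fderiv ℝ K.Ω x‖ * (1 + 4 * L) * min (r / 2) (1 / (20 * M * (1 + 4 * L)))
      ≤ M * (1 + 4 * L) * (1 / (20 * M * (1 + 4 * L))) := by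
        gcongr
        exact min_le_right _ _
    _ = 1 / 20 := by
        field_simp

variable {L : ℝ} (hL : ∀ s, |deriv Real.smoothTransition s| ≤ L) {ρ : ℝ} (hρ : 0 < ρ)
  (hρ' : ∀ x : E, ‖x‖ ≤ ρ →
    ‖K.Ω x - K.Ω 0‖ ≤ 1 / 20 ∧ ‖K.J x - K.J 0‖ ≤ 1 / 10 ∧
      ‖fderiv ℝ K.Ω x‖ * (1 + 4 * L) * ρ ≤ 1 / 20)

include hρ in
theorem norm_le_of_inner {x : E} (hx : ‖x‖ ^ 2 ≤ 2 * (ρ / 2) ^ 2) : ‖x‖ ≤ ρ := by
  have h : ‖x‖ ^ 2 ≤ ρ ^ 2 := by nlinarith [sq_nonneg ρ]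
  exact (sq_le_sq₀ (norm_nonneg _) hρ.le).1 h

theorem norm_cut_smul_le {δ : ℝ} {x : E} (h : ‖x‖ ≤ ρ) : ‖cut δ x • x‖ ≤ ρ := by
  rw [norm_smul, Real.norm_eq_abs, abs_of_nonneg (cut_nonneg δ x)]
  have := cut_le_one δ x
  have := norm_nonneg x
  nlinarith [cut_nonneg δ x]

theorem abs_sub_zero_le {x : E} (h : ‖K.Ω x - K.Ω 0‖ ≤ 1 / 20) (u v : E) :
    |K.Ω x u v - K.Ω 0 u v| ≤ 1 / 20 * ‖u‖ * ‖v‖ := by
  have h1 := (K.Ω x - K.Ω 0).le_opNorm₂ u v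
  have h2 : (K.Ω x - K.Ω 0) u v = K.Ω x u v - K.Ω 0 u v := rfl
  rw [h2, Real.norm_eq_abs] at h1
  refine h1.trans ?_
  gcongr

include hL hρ hρ' in
theorem abs_fderiv_B_le {x : E} (hx : ‖x‖ ^ 2 ≤ 2 * (ρ / 2) ^ 2) (u v : E) :
    |fderiv ℝ (K.B (ρ / 2)) x u x v| ≤ 1 / 20 * ‖u‖ * ‖v‖ := by
  have hxρ := norm_le_of_inner hρ hx
  rw [K.fderiv_B]
  set c := cut (ρ / 2) x with hc
  set w := c • u + fderiv ℝ (cut (ρ / 2) : E → ℝ) x u • x with hw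
  have hwn : ‖w‖ ≤ (1 + 4 * L) * ‖u‖ := by
    have h1 := abs_fderiv_cut_le hL (half_pos hρ) hx u
    have h2 : ‖w‖ ≤ ‖c • u‖ + ‖fderiv ℝ (cut (ρ / 2) : E → ℝ) x u • x‖ := norm_add_le _ _
    rw [norm_smul, norm_smul, Real.norm_eq_abs, Real.norm_eq_abs,
      abs_of_nonneg (cut_nonneg _ x)] at h2
    have h3 : c * ‖u‖ ≤ 1 * ‖u‖ := mul_le_mul_of_nonneg_right (cut_le_one _ x) (norm_nonneg u)
    linarith
  have hb := (hρ' _ (norm_cut_smul_le (δ := ρ / 2) hxρ)).2.2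
  set D := fderiv ℝ K.Ω (c • x) with hD
  have h1 : |D w x v| ≤ ‖D‖ * ‖w‖ * ‖x‖ * ‖v‖ := by
    have h2 := (D w).le_opNorm₂ x v
    have h3 := D.le_opNorm w
    rw [Real.norm_eq_abs] at h2
    refine h2.trans ?_
    gcongr
  refine h1.trans ?_
  have hL0 : 0 ≤ L := (abs_nonneg _).trans (hL 0)
  calc ‖D‖ * ‖w‖ * ‖x‖ * ‖v‖ ≤ ‖D‖ * ((1 + 4 * L) * ‖u‖) * ρ * ‖v‖ := by gcongr
    _ = (‖D‖ * (1 + 4 * L) * ρ) * (‖u‖ * ‖v‖) := by ring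
    _ ≤ 1 / 20 * (‖u‖ * ‖v‖) := by gcongr
    _ = _ := by ring

include hL hρ hρ' in
theorem abs_dd_sub_le {x : E} (hx : ‖x‖ ^ 2 ≤ 2 * (ρ / 2) ^ 2) (u v : E) :
    |dd (K.lam (ρ / 2)) x u v - K.Ω 0 u v| ≤ 1 / 10 * ‖u‖ * ‖v‖ := by
  have hxρ := norm_le_of_inner hρ hx
  have h1 := K.abs_fderiv_B_le hL hρ hρ' hx u v
  have h2 := K.abs_fderiv_B_le hL hρ hρ' hx v u
  have h3 := K.abs_sub_zero_le (hρ' _ (norm_cut_smul_le (δ := ρ / 2) hxρ)).1 u v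
  rw [K.dd_lam]
  have e : K.B (ρ / 2) x u v = K.Ω (cut (ρ / 2) x • x) u v := rfl
  rw [e]
  rw [_root_.abs_le] at *
  constructor <;> nlinarith [norm_nonneg u, norm_nonneg v]

include hρ hρ' in
theorem abs_lam_sub_le {x : E} (hx : ‖x‖ ^ 2 ≤ 2 * (ρ / 2) ^ 2) (v : E) :
    |K.lam (ρ / 2) x v - (1 / 2) * K.Ω 0 x v| ≤ 1 / 20 * ‖x‖ * ‖v‖ := by
  have hxρ := norm_le_of_inner hρ hx
  have h3 := K.abs_sub_zero_le (hρ' _ (norm_cut_smul_le (δ := ρ / 2) hxρ)).1 x v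
  have e : K.lam (ρ / 2) x v = (1 / 2) * K.Ω (cut (ρ / 2) x • x) x v := rfl
  rw [e]
  have h4 : 0 ≤ ‖x‖ * ‖v‖ := by positivity
  rw [_root_.abs_le] at *
  constructor <;> nlinarith

theorem tame_const {x : E} (h1 : ‖K.Ω x - K.Ω 0‖ ≤ 1 / 20) (h2 : ‖K.J x - K.J 0‖ ≤ 1 / 10)
    {f : E → E → ℝ} (hf : ∀ u v, |f u v - K.Ω 0 u v| ≤ 1 / 10 * ‖u‖ * ‖v‖) (v : E) :
    1 / 2 * K.g x v ≤ f v (K.J x v) := by
  have hJ : ‖K.J x v - K.J 0 v‖ ≤ 1 / 10 * ‖v‖ := by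
    have := (K.J x - K.J 0).le_opNorm v
    exact this.trans (mul_le_mul_of_nonneg_right h2 (norm_nonneg v))
  have hJn : ‖K.J x v‖ ≤ 11 / 10 * ‖v‖ := by
    have h3 : K.J x v = (K.J x v - K.J 0 v) + K.J 0 v := by abel
    rw [h3]
    refine (norm_add_le _ _).trans ?_
    rw [K.norm_J_zero]
    linarith
  have h3 := hf v (K.J x v)
  have h4 := K.abs_sub_zero_le h1 v (K.J x v)
  have h5 := K.abs_zero_le v (K.J x v - K.J 0 v)
  have h6 : K.Ω 0 v (K.J x v - K.J 0 v) = K.Ω 0 v (K.J x v) - ‖v‖ ^ 2 := by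
    rw [map_sub]
    have : K.Ω 0 v (K.J 0 v) = ‖v‖ ^ 2 := K.g_zero v
    rw [this]
  rw [h6] at h5
  have hv := norm_nonneg v
  have h7 : ‖v‖ * ‖K.J x v - K.J 0 v‖ ≤ 1 / 10 * ‖v‖ ^ 2 := by nlinarith
  have h8 : ‖v‖ * ‖K.J x v‖ ≤ 11 / 10 * ‖v‖ ^ 2 := by nlinarith
  have h9 : K.g x v = K.Ω x v (K.J x v) := rfl
  rw [h9]
  rw [_root_.abs_le] at h3 h4 h5
  nlinarith [sq_nonneg ‖v‖]

include hL hρ hρ' in
theorem taming (x v : E) : 1 / 2 * K.g x v ≤ dd (K.lam (ρ / 2)) x v (K.J x v) := by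
  by_cases hx : ‖x‖ ^ 2 ≤ 2 * (ρ / 2) ^ 2
  · have hxρ := norm_le_of_inner hρ hx
    obtain ⟨a1, a2, -⟩ := hρ' x hxρ
    exact K.tame_const a1 a2 (fun u v => K.abs_dd_sub_le hL hρ hρ' hx u v) v
  · rw [not_le] at hx
    rw [K.dd_lam_far (half_pos hρ) hx]
    have h1 := K.tame x v
    have h2 : K.Ω x v (K.J x v) = K.g x v := rfl
    have h3 := K.g_nonneg x v
    linarith

theorem inner_eq_Ω_zero (u w : E) : K.Ω 0 u (K.J 0 w) = inner ℝ u w := K.G_zero u w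

include hL hρ hρ' in
theorem lyapunov {x y : E} (hx0 : x ≠ 0)
    (h : ∀ v, dd (K.lam (ρ / 2)) x y v = K.lam (ρ / 2) x v) : 0 < inner ℝ x y := by
  by_cases hx : ‖x‖ ^ 2 ≤ 2 * (ρ / 2) ^ 2
  · -- near: `y` is close to `x/2`
    have key : ∀ w, |inner ℝ (y - (1 / 2 : ℝ) • x) w| ≤ (1 / 10 * ‖y‖ + 1 / 20 * ‖x‖) * ‖w‖ := by
      intro w
      have h1 := K.abs_dd_sub_le hL hρ hρ' hx y (K.J 0 w)
      have h2 := K.abs_lam_sub_le hρ hρ' hx (K.J 0 w)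
      rw [h, K.inner_eq_Ω_zero, K.norm_J_zero] at h1
      rw [K.inner_eq_Ω_zero, K.norm_J_zero] at h2
      rw [inner_sub_left, inner_smul_left]
      simp only [conj_trivial]
      rw [_root_.abs_le] at *
      constructor <;> linarith
    have h1 := key (y - (1 / 2 : ℝ) • x)
    rw [real_inner_self_eq_norm_sq, abs_of_nonneg (by positivity)] at h1
    set z := y - (1 / 2 : ℝ) • x with hz
    have hy : y = z + (1 / 2 : ℝ) • x := by rw [hz]; abel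
    have hyn : ‖y‖ ≤ ‖z‖ + 1 / 2 * ‖x‖ := by
      rw [hy]
      refine (norm_add_le _ _).trans ?_
      rw [norm_smul]; simp
    have hzn : ‖z‖ ≤ 1 / 4 * ‖x‖ := by
      rcases (norm_nonneg z).eq_or_lt with h0 | h0
      · rw [← h0]; positivity
      · have h2 : ‖z‖ ≤ 1 / 10 * ‖y‖ + 1 / 20 * ‖x‖ := by
          have : ‖z‖ * ‖z‖ ≤ (1 / 10 * ‖y‖ + 1 / 20 * ‖x‖) * ‖z‖ := by rw [← pow_two]; exact h1
          exact le_of_mul_le_mul_right this h0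
        have := norm_nonneg x
        linarith
    have hxp : 0 < ‖x‖ := norm_pos_iff.2 hx0
    rw [hy, inner_add_right, inner_smul_right, real_inner_self_eq_norm_sq]
    have h3 := abs_real_inner_le_norm x z
    have h4 : ‖x‖ * ‖z‖ ≤ 1 / 4 * ‖x‖ ^ 2 := by nlinarith
    rw [_root_.abs_le] at h3
    nlinarith [h3.1, pow_pos hxp 2]
  · rw [not_le] at hx
    have h1 := h (K.J x y)
    rw [K.lam_far (half_pos hρ) hx.le, K.gauss] at h1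
    have h2 := K.taming hL hρ hρ' x y
    have hy : y ≠ 0 := by
      rintro rfl
      have h3 := h (K.J x x)
      rw [K.lam_far (half_pos hρ) hx.le, K.gauss, real_inner_self_eq_norm_sq] at h3
      simp [dd] at h3
      exact hx0 h3
    have h3 := K.g_pos (x := x) hy
    linarith

end Kah

end Pool.Agent.W585
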