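import Pool.Agent.H660R4.Bridge
set_option autoImplicit false
set_option linter.unusedSectionVars false
open Set Filter Topology
open scoped ContDiff Manifold

/-!
# Symplectic forms, compatible almost complex structures, sectional curvature

`M` is a manifold modelled on `ℝ²ⁿ = EuclideanSpace ℝ (Fin (2 * n))` (so without boundary). As in Mathlib,
where `TangentSpace (𝓡 (2 * n)) p` is by definition `EuclideanSpace ℝ (Fin (2 * n))`, a tangent vector at
`p` is given by its components in the preferred chart `chartAt _ p` at `p`. The definitions `dirD`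
(directional derivative), `tanChange` (change of coordinates of tangent vectors) and `coordForm`
(components of a bilinear form in a chart) are those of `Pool.Agent.H660R3.LorDefs`; `PseudoMetric`, `riem`
(Riemann curvature of a metric in coordinates) and `GeodesicallyComplete` are those of
`Pool.Agent.H660R4.Defs`.
-/
namespace Pool.Agent.W585

open Pool.Agent.H660R3 Pool.Agent.H660R4

variable {n : ℕ} {M : Type*} [TopologicalSpace M] [ChartedSpace (EuclideanSpace ℝ (Fin (2 * n))) M]

variable (n M) in
/-- A symplectic form on `M`: a smooth closed nondegenerate two-form. -/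
structure SymplecticForm where
  /-- the bilinear form on the tangent space at `p` -/
  val : M → EuclideanSpace ℝ (Fin (2 * n)) → EuclideanSpace ℝ (Fin (2 * n)) → ℝ
  linear : ∀ p v, IsLinearMap ℝ fun u => val p u v
  alternating : ∀ p u v, val p u v = - val p v u
  nondegenerate : ∀ p v, (∀ w, val p v w = 0) → v = 0
  /-- it is smooth: its components in the charts are `C^∞` -/
  smooth : ∀ (x₀ : M) (u v : EuclideanSpace ℝ (Fin (2 * n))),
    ContDiffOn ℝ ∞ (fun y => coordForm val x₀ y u v)
      (chartAt (EuclideanSpace ℝ (Fin (2 * n))) x₀).target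
  /-- it is closed: in every chart, `dω(u, v, w) = D_u ω(v, w) + D_v ω(w, u) + D_w ω(u, v) = 0` -/
  closed : ∀ (x₀ : M), ∀ y ∈ (chartAt (EuclideanSpace ℝ (Fin (2 * n))) x₀).target,
    ∀ u v w : EuclideanSpace ℝ (Fin (2 * n)),
      dirD (fun z => coordForm val x₀ z v w) y u + dirD (fun z => coordForm val x₀ z w u) y v +
        dirD (fun z => coordForm val x₀ z u v) y w = 0

/-- Coordinate expression, in the chart at `x₀`, of a field `J` of endomorphisms of the tangent spaces:
`coordEndo J x₀ y v` are the components in the chart at `x₀` of `J_p v`, with `p = φ⁻¹(y)`, the tangent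
vector `v` at `p` being given by its components in that chart. -/
noncomputable def coordEndo
    (J : M → EuclideanSpace ℝ (Fin (2 * n)) → EuclideanSpace ℝ (Fin (2 * n))) (x₀ : M)
    (y v : EuclideanSpace ℝ (Fin (2 * n))) : EuclideanSpace ℝ (Fin (2 * n)) :=
  let p := (chartAt (EuclideanSpace ℝ (Fin (2 * n))) x₀).symm y
  tanChange p x₀ (chartAt (EuclideanSpace ℝ (Fin (2 * n))) p p) (J p (tanChange x₀ p y v))

variable (n M) in
/-- An almost complex structure on `M`: a smooth field `J` of endomorphisms of the tangent spaces with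
`J² = -1`. -/
structure AlmostComplex where
  /-- the endomorphism of the tangent space at `p` -/
  val : M → EuclideanSpace ℝ (Fin (2 * n)) → EuclideanSpace ℝ (Fin (2 * n))
  linear : ∀ p, IsLinearMap ℝ (val p)
  square : ∀ p v, val p (val p v) = - v
  /-- it is smooth: its components in the charts are `C^∞` -/
  smooth : ∀ (x₀ : M) (v : EuclideanSpace ℝ (Fin (2 * n))),
    ContDiffOn ℝ ∞ (fun y => coordEndo val x₀ y v)
      (chartAt (EuclideanSpace ℝ (Fin (2 * n))) x₀).target

/-- `J` is `ω`-compatible: `ω(Ju, Jv) = ω(u, v)` and `ω(v, Jv) > 0` for `v ≠ 0`. -/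
def IsCompatible (w : SymplecticForm n M) (J : AlmostComplex n M) : Prop :=
  (∀ p u v, w.val p (J.val p u) (J.val p v) = w.val p u v) ∧
    ∀ p v, v ≠ 0 → 0 < w.val p v (J.val p v)

theorem IsCompatible.symm {w : SymplecticForm n M} {J : AlmostComplex n M} (h : IsCompatible w J)
    (p : M) (u v : EuclideanSpace ℝ (Fin (2 * n))) :
    w.val p u (J.val p v) = w.val p v (J.val p u) := by
  have hneg : ∀ a b : EuclideanSpace ℝ (Fin (2 * n)), w.val p (-a) b = - w.val p a b := by
    intro a b
    have := (w.linear p b).map_smul (-1) a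
    simpa using this
  rw [← h.1, J.square, w.alternating p (J.val p u) (-v), hneg, neg_neg]

theorem coord_compat [IsManifold 𝓘(ℝ, EuclideanSpace ℝ (Fin (2 * n))) ∞ M]
    (w : SymplecticForm n M) (J : AlmostComplex n M) {x₀ : M}
    {y : EuclideanSpace ℝ (Fin (2 * n))} (hy : y ∈ (chartAt (EuclideanSpace ℝ (Fin (2 * n))) x₀).target)
    (u v : EuclideanSpace ℝ (Fin (2 * n))) :
    coordForm (fun p u v => w.val p u (J.val p v)) x₀ y u v =
      coordForm w.val x₀ y u (coordEndo J.val x₀ y v) := by
  have h := (J_props hy).2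
    (J.val ((chartAt (EuclideanSpace ℝ (Fin (2 * n))) x₀).symm y)
      (tanChange x₀ ((chartAt (EuclideanSpace ℝ (Fin (2 * n))) x₀).symm y) y v))
  simp only [coordForm, coordEndo]
  exact congrArg _ h.symm

theorem coordForm_expand (w : SymplecticForm n M) (x₀ : M)
    (y u v : EuclideanSpace ℝ (Fin (2 * n))) :
    coordForm w.val x₀ y u v =
      ∑ j, v j * coordForm w.val x₀ y u (EuclideanSpace.single j (1:ℝ)) := by
  have hlin : IsLinearMap ℝ fun v => coordForm w.val x₀ y u v := by
    constructor
    · intro a b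
      simp only [coordForm]
      rw [w.alternating, w.alternating _ _ (tanChange x₀ _ y a),
        w.alternating _ _ (tanChange x₀ _ y b)]
      have : tanChange x₀ ((chartAt (EuclideanSpace ℝ (Fin (2 * n))) x₀).symm y) y (a + b) =
          tanChange x₀ ((chartAt (EuclideanSpace ℝ (Fin (2 * n))) x₀).symm y) y a +
          tanChange x₀ ((chartAt (EuclideanSpace ℝ (Fin (2 * n))) x₀).symm y) y b := by
        simp [tanChange]
      rw [this, (w.linear _ _).map_add]
      ring
    · intro k a
      simp only [coordForm]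
      rw [w.alternating, w.alternating _ _ (tanChange x₀ _ y a)]
      have : tanChange x₀ ((chartAt (EuclideanSpace ℝ (Fin (2 * n))) x₀).symm y) y (k • a) =
          k • tanChange x₀ ((chartAt (EuclideanSpace ℝ (Fin (2 * n))) x₀).symm y) y a := by
        simp [tanChange]
      rw [this, (w.linear _ _).map_smul]
      simp
  set L : EuclideanSpace ℝ (Fin (2 * n)) →ₗ[ℝ] ℝ := hlin.mk' _ with hL
  have hv : v = ∑ j, v j • EuclideanSpace.single j (1:ℝ) := by
    have := (EuclideanSpace.basisFun (Fin (2 * n)) ℝ).sum_repr v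
    simpa using this.symm
  have h2 : L v = ∑ j, v j * L (EuclideanSpace.single j (1:ℝ)) := by
    conv_lhs => rw [hv]
    rw [map_sum]
    simp
  exact h2

theorem compat_symBil {w : SymplecticForm n M} {J : AlmostComplex n M} (h : IsCompatible w J)
    (p : M) : IsSymBil fun u v => w.val p u (J.val p v) :=
  ⟨fun v => w.linear p (J.val p v), fun u v => h.symm p u v⟩

theorem compat_nondeg {w : SymplecticForm n M} {J : AlmostComplex n M} (h : IsCompatible w J)
    (p : M) (v : EuclideanSpace ℝ (Fin (2 * n))) (hv : ∀ x, w.val p v (J.val p x) = 0) : v = 0 := by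
  by_contra hne
  exact (h.2 p v hne).ne' (hv v)

theorem compat_smooth [IsManifold 𝓘(ℝ, EuclideanSpace ℝ (Fin (2 * n))) ∞ M]
    (w : SymplecticForm n M) (J : AlmostComplex n M) (x₀ : M)
    (u v : EuclideanSpace ℝ (Fin (2 * n))) :
    ContDiffOn ℝ ∞ (fun y => coordForm (fun p u v => w.val p u (J.val p v)) x₀ y u v)
      (chartAt (EuclideanSpace ℝ (Fin (2 * n))) x₀).target := by
  have h1 : ContDiffOn ℝ ∞ (fun y => ∑ j, coordEndo J.val x₀ y v j *
      coordForm w.val x₀ y u (EuclideanSpace.single j (1:ℝ)))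
      (chartAt (EuclideanSpace ℝ (Fin (2 * n))) x₀).target := by
    refine ContDiffOn.sum fun j _ => ContDiffOn.mul ?_ (w.smooth x₀ u _)
    exact (EuclideanSpace.proj j : EuclideanSpace ℝ (Fin (2 * n)) →L[ℝ] ℝ).contDiff.comp_contDiffOn
      (J.smooth x₀ v)
  refine h1.congr fun y hy => ?_
  rw [coord_compat w J hy, coordForm_expand]

/-- The Riemannian metric `g_J(u, v) = ω(u, Jv)` of a compatible almost complex structure `J`. -/
noncomputable def compatMetric [IsManifold 𝓘(ℝ, EuclideanSpace ℝ (Fin (2 * n))) ∞ M]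
    (w : SymplecticForm n M) (J : AlmostComplex n M) (h : IsCompatible w J) :
    PseudoMetric (2 * n) M where
  val p u v := w.val p u (J.val p v)
  symBil := compat_symBil h
  nondeg := compat_nondeg h
  smooth := compat_smooth w J

/-- The sectional curvature of the metric with components `G` on an open set of `ℝᵐ`, at the point `y`, of
the plane spanned by `u` and `v`: `G(R(u, v) v, u) / (G(u, u) G(v, v) - G(u, v)²)`. -/
noncomputable def secCurv {m : ℕ}
    (G : EuclideanSpace ℝ (Fin m) → EuclideanSpace ℝ (Fin m) → EuclideanSpace ℝ (Fin m) → ℝ)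
    (y u v : EuclideanSpace ℝ (Fin m)) : ℝ :=
  G y (riem G y u v v) u / (G y u u * G y v v - G y u v ^ 2)

/-- The metric `g` has nonpositive sectional curvature. -/
def NonposCurved (g : PseudoMetric (2 * n) M) : Prop :=
  ∀ x₀ : M, ∀ y ∈ (chartAt (EuclideanSpace ℝ (Fin (2 * n))) x₀).target,
    ∀ u v : EuclideanSpace ℝ (Fin (2 * n)), LinearIndependent ℝ ![u, v] →
      secCurv (coordForm g.val x₀) y u v ≤ 0

/-- The standard symplectic form `∑ dxᵢ ∧ dyᵢ` of `ℝ²ⁿ` with coordinates `(x₁, …, xₙ, y₁, …, yₙ)`. -/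
noncomputable def stdForm (n : ℕ) (u v : EuclideanSpace ℝ (Fin (2 * n))) : ℝ :=
  ∑ i : Fin n, (u ⟨i, by omega⟩ * v ⟨n + i, by omega⟩ - u ⟨n + i, by omega⟩ * v ⟨i, by omega⟩)

/-- The differential at `p` of a map `φ : M → ℝ²ⁿ`: the derivative of `φ` in the preferred chart at `p`. -/
noncomputable def differential (φ : M → EuclideanSpace ℝ (Fin (2 * n))) (p : M)
    (u : EuclideanSpace ℝ (Fin (2 * n))) : EuclideanSpace ℝ (Fin (2 * n)) :=
  fderiv ℝ (fun z => φ ((chartAt (EuclideanSpace ℝ (Fin (2 * n))) p).symm z))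
    (chartAt (EuclideanSpace ℝ (Fin (2 * n))) p p) u

/-- `φ : M → ℝ²ⁿ` is a diffeomorphism: it is `C^∞` and has a `C^∞` inverse `ψ`. -/
def IsDiffeo (φ : M → EuclideanSpace ℝ (Fin (2 * n))) : Prop :=
  ContMDiff (𝓡 (2 * n)) (𝓡 (2 * n)) ∞ φ ∧ ∃ ψ : EuclideanSpace ℝ (Fin (2 * n)) → M,
    ContMDiff (𝓡 (2 * n)) (𝓡 (2 * n)) ∞ ψ ∧ (∀ p, ψ (φ p) = p) ∧ ∀ x, φ (ψ x) = x

/-- `φ` is a symplectomorphism `(M, ω) → (ℝ²ⁿ, ω₀)`: a diffeomorphism with `φ* ω₀ = ω`. -/
def IsSymplectomorphism (w : SymplecticForm n M) (φ : M → EuclideanSpace ℝ (Fin (2 * n))) : Prop :=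
  IsDiffeo φ ∧ ∀ p u v, stdForm n (differential φ p u) (differential φ p v) = w.val p u v

end Pool.Agent.W585
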