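import Mathlib
import Pool.Agent.W585.SDefs

/-! Unitary bases. -/

set_option autoImplicit false
set_option linter.unusedSectionVars false
set_option linter.deprecated false

open scoped BigOperators

namespace Pool.Agent.W585

variable {n : ℕ}

/-- `ℝ²ⁿ` -/
abbrev EE (n : ℕ) := EuclideanSpace ℝ (Fin (2 * n))

theorem exists_family (w : EE n →L[ℝ] EE n →L[ℝ] ℝ) (J : EE n →L[ℝ] EE n)
    (halt : ∀ u v, w u v = - w v u) (hsq : ∀ v, J (J v) = -v)
    (hcomp : ∀ u v, w (J u) (J v) = w u v) (hpos : ∀ v, v ≠ 0 → 0 < w v (J v)) (k : ℕ)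
    (hk : k ≤ n) : ∃ e : ℕ → EE n, ∀ i < k, ∀ j < k,
      w (e i) (J (e j)) = (if i = j then 1 else 0) ∧ w (e i) (e j) = 0 := by
  induction k with
  | zero => exact ⟨fun _ => 0, fun i hi => absurd hi (by omega)⟩
  | succ k ih =>
    obtain ⟨e, he⟩ := ih (by omega)
    -- a vector orthogonal to all
    set T : EE n →ₗ[ℝ] ((Fin k → ℝ) × (Fin k → ℝ)) :=
      (LinearMap.pi fun i : Fin k => ((w (e i)).toLinearMap.comp J.toLinearMap)).prod
        (LinearMap.pi fun i : Fin k => (w (e i)).toLinearMap) with hT
    have hker : LinearMap.ker T ≠ ⊥ := by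
      apply LinearMap.ker_ne_bot_of_finrank_lt
      simp
      omega
    obtain ⟨v, hv, hv0⟩ := (Submodule.ne_bot_iff _).1 hker
    have hTv : T v = 0 := hv
    have h1 : ∀ i < k, w (e i) (J v) = 0 := by
      intro i hi
      have := congrFun (congrArg Prod.fst hTv) ⟨i, hi⟩
      simpa [hT] using this
    have h2 : ∀ i < k, w (e i) v = 0 := by
      intro i hi
      have := congrFun (congrArg Prod.snd hTv) ⟨i, hi⟩
      simpa [hT] using this
    have hp := hpos v hv0
    set s := Real.sqrt (w v (J v)) with hs
    have hsp : 0 < s := Real.sqrt_pos.2 hp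
    have hs2 : s * s = w v (J v) := Real.mul_self_sqrt hp.le
    refine ⟨fun i => if i = k then s⁻¹ • v else e i, fun i hi j hj => ?_⟩
    have hJw : ∀ a b, w (J a) b = - w a (J b) := by
      intro a b
      rw [← hcomp a (J b), hsq, map_neg, neg_neg]
    rcases eq_or_ne i k with hik | hik
    · rcases eq_or_ne j k with hjk | hjk
      · subst hik; subst hjk
        simp only [if_true, map_smul, ContinuousLinearMap.smul_apply, smul_eq_mul]
        constructor
        · rw [← hs2]
          field_simp
        · have : w v v = 0 := by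
            have := halt v v
            linarith
          rw [this]; ring
      · have hj' : j < k := by omega
        simp only [hik, hjk, if_true, if_false, map_smul, ContinuousLinearMap.smul_apply,
          smul_eq_mul]
        rw [if_neg (by omega)]
        constructor
        · rw [halt v (J (e j)), hJw, neg_neg, h1 j hj', mul_zero]
        · rw [halt, h2 j hj', neg_zero, mul_zero]
    · have hi' : i < k := by omega
      rcases eq_or_ne j k with hjk | hjk
      · simp only [hik, hjk, if_true, if_false, map_smul, smul_eq_mul]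
        constructor
        · rw [h1 i hi', mul_zero]
        · rw [h2 i hi', mul_zero]
      · simp only [hik, hjk, if_false]
        exact he i hi' j (by omega)

/-- splitting of sums over `Fin (2 * n)` -/
theorem sum_split (f : Fin (2 * n) → ℝ) : ∑ i, f i =
    ∑ i : Fin n, (f ⟨i, by omega⟩ + f ⟨n + i, by omega⟩) := by
  rw [Finset.sum_add_distrib]
  have h := Fin.sum_univ_add (a := n) (b := n) (fun i => f (Fin.cast (by ring) i))
  rw [← Equiv.sum_comp (finCongr (show n + n = 2 * n by ring)) f]
  exact h

theorem exists_unitary (w : EE n →L[ℝ] EE n →L[ℝ] ℝ) (J : EE n →L[ℝ] EE n)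
    (halt : ∀ u v, w u v = - w v u) (hsq : ∀ v, J (J v) = -v)
    (hcomp : ∀ u v, w (J u) (J v) = w u v) (hpos : ∀ v, v ≠ 0 → 0 < w v (J v)) :
    ∃ A : EE n ≃L[ℝ] EE n, (∀ u v, w (A u) (J (A v)) = inner ℝ u v) ∧
      ∀ u v, w (A u) (A v) = stdForm n u v := by
  obtain ⟨e, he⟩ := exists_family w J halt hsq hcomp hpos n le_rfl
  have he1 : ∀ i j : Fin n, w (e i) (J (e j)) = if i = j then 1 else 0 := by
    intro i j
    rw [(he i i.2 j j.2).1]
    simp [Fin.ext_iff]
  have he2 : ∀ i j : Fin n, w (e i) (e j) = 0 := fun i j => (he i i.2 j j.2).2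
  have hJw : ∀ a b, w (J a) b = - w a (J b) := by
    intro a b
    rw [← hcomp a (J b), hsq, map_neg, neg_neg]
  set A₀ : EE n →ₗ[ℝ] EE n :=
    { toFun := fun x => ∑ i : Fin n, (x ⟨i, by omega⟩ • e i + x ⟨n + i, by omega⟩ • J (e i))
      map_add' := by
        intro x y
        rw [← Finset.sum_add_distrib]
        refine Finset.sum_congr rfl fun i _ => ?_
        simp only [PiLp.add_apply, add_smul]
        abel
      map_smul' := by
        intro r x
        rw [RingHom.id_apply, Finset.smul_sum]
        refine Finset.sum_congr rfl fun i _ => ?_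
        simp only [PiLp.smul_apply, smul_eq_mul, smul_add, mul_smul] } with hA₀
  have hA : ∀ x, A₀ x = ∑ i : Fin n, (x ⟨i, by omega⟩ • e i + x ⟨n + i, by omega⟩ • J (e i)) :=
    fun x => rfl
  have hwA : ∀ (i : Fin n) (v : EE n), w (e i) (A₀ v) = v ⟨n + i, by omega⟩ := by
    intro i v
    rw [hA, map_sum]
    simp only [map_add, map_smul, smul_eq_mul, he1, he2, mul_zero, zero_add, mul_ite, mul_one]
    simp
  have hwJA : ∀ (i : Fin n) (v : EE n), w (J (e i)) (A₀ v) = - v ⟨i, by omega⟩ := by
    intro i v
    rw [hA, map_sum]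
    simp only [map_add, map_smul, smul_eq_mul, hJw, hcomp, he1, he2, mul_zero, zero_add, mul_ite,
      mul_one, hsq, map_neg, neg_zero, add_zero, mul_neg]
    simp
  have hstd : ∀ u v, w (A₀ u) (A₀ v) = stdForm n u v := by
    intro u v
    conv_lhs => rw [hA u]
    rw [map_sum, ContinuousLinearMap.sum_apply]
    rw [stdForm]
    refine Finset.sum_congr rfl fun i _ => ?_
    rw [map_add, map_smul, map_smul, ContinuousLinearMap.add_apply,
      ContinuousLinearMap.smul_apply, ContinuousLinearMap.smul_apply, hwA, hwJA]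
    simp only [smul_eq_mul]
    ring
  have hinn : ∀ u v, w (A₀ u) (J (A₀ v)) = inner ℝ u v := by
    intro u v
    have h1 : w (A₀ u) (J (A₀ v)) = - w (J (A₀ u)) (A₀ v) := by rw [hJw, neg_neg]
    rw [h1]
    have h2 : J (A₀ u) = ∑ i : Fin n, (u ⟨i, by omega⟩ • J (e i) - u ⟨n + i, by omega⟩ • e i) := by
      rw [hA, map_sum]
      refine Finset.sum_congr rfl fun i _ => ?_
      rw [map_add, map_smul, map_smul, hsq, smul_neg, sub_eq_add_neg]
    rw [h2, map_sum, ContinuousLinearMap.sum_apply, PiLp.inner_apply, sum_split,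
      ← Finset.sum_neg_distrib]
    refine Finset.sum_congr rfl fun i _ => ?_
    rw [map_sub, map_smul, map_smul, ContinuousLinearMap.sub_apply,
      ContinuousLinearMap.smul_apply, ContinuousLinearMap.smul_apply, hwA, hwJA]
    simp only [smul_eq_mul, RCLike.inner_apply, conj_trivial]
    ring
  have hinj : Function.Injective A₀ := by
    rw [injective_iff_map_eq_zero]
    intro u hu
    have h1 := hinn u u
    rw [hu] at h1
    simp only [map_zero, ContinuousLinearMap.zero_apply] at h1
    exact inner_self_eq_zero.1 h1.symm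
  refine ⟨(LinearEquiv.ofInjectiveEndo A₀ hinj).toContinuousLinearEquiv, ?_, ?_⟩
  · intro u v
    exact hinn u v
  · intro u v
    exact hstd u v

end Pool.Agent.W585
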