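import Mathlib
import Pool.Agent.W585.Flow

/-! Moser's argument on a Euclidean space. -/

set_option autoImplicit false
set_option maxSynthPendingDepth 3
set_option linter.unusedSectionVars false
set_option linter.deprecated false

open MeasureTheory Set Filter Topology
open scoped ContDiff Manifold

namespace Pool.Agent.W585

variable {E : Type} [NormedAddCommGroup E] [InnerProductSpace ℝ E] [FiniteDimensional ℝ E]

/-- nondegenerate forms are invertible -/
theorem exists_equiv_of_nondeg (B : E →L[ℝ] E →L[ℝ] ℝ) (hB : ∀ u, u ≠ 0 → ∃ v, B u v ≠ 0) :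
    ∃ e : E ≃L[ℝ] (E →L[ℝ] ℝ), (e : E →L[ℝ] E →L[ℝ] ℝ) = B := by
  have hinj : Function.Injective (B : E →ₗ[ℝ] E →L[ℝ] ℝ) := by
    rw [injective_iff_map_eq_zero]
    intro u hu
    by_contra h
    obtain ⟨v, hv⟩ := hB u h
    apply hv
    have : B u = 0 := hu
    rw [this]; rfl
  have hdim : Module.finrank ℝ E = Module.finrank ℝ (E →L[ℝ] ℝ) := by
    rw [← (LinearMap.toContinuousLinearMap (𝕜 := ℝ) (E := E) (F' := ℝ)).finrank_eq]
    exact (Subspace.dual_finrank_eq (K := ℝ) (V := E)).symm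
  refine ⟨(LinearMap.linearEquivOfInjective (B : E →ₗ[ℝ] E →L[ℝ] ℝ) hinj
    hdim).toContinuousLinearEquiv, ?_⟩
  ext u v
  rfl

theorem inverse_apply_nondeg (B : E →L[ℝ] E →L[ℝ] ℝ) (hB : ∀ u, u ≠ 0 → ∃ v, B u v ≠ 0)
    (μ : E →L[ℝ] ℝ) (v : E) : B (ContinuousLinearMap.inverse B μ) v = μ v := by
  obtain ⟨e, rfl⟩ := exists_equiv_of_nondeg B hB
  rw [ContinuousLinearMap.inverse_equiv]
  simp

theorem contDiff_inverse_nondeg {F : Type} [NormedAddCommGroup F] [NormedSpace ℝ F]
    {B : F → E →L[ℝ] E →L[ℝ] ℝ} (hBs : ContDiff ℝ ∞ B)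
    (hB : ∀ x u, u ≠ 0 → ∃ v, B x u v ≠ 0) {μ : F → E →L[ℝ] ℝ} (hμ : ContDiff ℝ ∞ μ) :
    ContDiff ℝ ∞ (fun x => ContinuousLinearMap.inverse (B x) (μ x)) := by
  have hcomp : CompleteSpace E := FiniteDimensional.complete ℝ E
  have h1 : ContDiff ℝ ∞ (fun x => ContinuousLinearMap.inverse (B x)) := by
    rw [contDiff_iff_contDiffAt]
    intro x
    obtain ⟨e, he⟩ := exists_equiv_of_nondeg (B x) (hB x)
    have h2 : ContDiffAt ℝ ∞ ContinuousLinearMap.inverse (B x) := by
      rw [← he]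
      exact contDiffAt_map_inverse e
    exact h2.comp x hBs.contDiffAt
  exact h1.clm_apply hμ

/-- the linearised flow equation -/
theorem hasDerivAt_var {q Y : E × ℝ → E} (hq : ContDiff ℝ ∞ q) (hY : ContDiff ℝ ∞ Y)
    (hd : ∀ x t, HasDerivAt (fun t => q (x, t)) (Y (q (x, t), t)) t) (x u : E) (t : ℝ) :
    HasDerivAt (fun t => fderiv ℝ q (x, t) (u, 0))
      (fderiv ℝ Y (q (x, t), t) (fderiv ℝ q (x, t) (u, 0), 0)) t := by
  have hq' : ContDiff ℝ ∞ (fderiv ℝ q) := hq.fderiv_right (by simp)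
  have hqd : ∀ p, HasFDerivAt q (fderiv ℝ q p) p := fun p =>
    (hq.differentiable (by simp) p).hasFDerivAt
  have hline : HasDerivAt (fun t : ℝ => (x, t)) ((0 : E), (1 : ℝ)) t :=
    (hasDerivAt_const t x).prodMk (hasDerivAt_id t)
  have h1 : HasDerivAt (fun t => fderiv ℝ q (x, t)) (fderiv ℝ (fderiv ℝ q) (x, t) (0, 1)) t :=
    HasFDerivAt.comp_hasDerivAt (l := fderiv ℝ q) t
      ((hq'.differentiable (by simp) (x, t)).hasFDerivAt) hline
  have h2 : HasDerivAt (fun t => fderiv ℝ q (x, t) (u, 0))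
      (fderiv ℝ (fderiv ℝ q) (x, t) (0, 1) (u, 0)) t := by
    have := h1.clm_apply (hasDerivAt_const t ((u, 0) : E × ℝ))
    simpa using this
  have hsym : fderiv ℝ (fderiv ℝ q) (x, t) (0, 1) (u, 0) =
      fderiv ℝ (fderiv ℝ q) (x, t) (u, 0) (0, 1) := by
    have := (hq.contDiffAt (x := (x, t))).isSymmSndFDerivAt (by
      simp only [minSmoothness_of_isRCLikeNormedField]
      exact WithTop.coe_le_coe.2 (le_top : (2:ℕ∞) ≤ ⊤))
    exact this.eq _ _
  -- ∂_t q = Y (q, t)
  have e1 : (fun p : E × ℝ => fderiv ℝ q p (0, 1)) = fun p => Y (q p, p.2) := by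
    funext p
    obtain ⟨y, s⟩ := p
    have hl : HasDerivAt (fun t : ℝ => (y, t)) ((0 : E), (1 : ℝ)) s :=
      (hasDerivAt_const s y).prodMk (hasDerivAt_id s)
    have h3 := HasFDerivAt.comp_hasDerivAt (l := q) s (hqd (y, s)) hl
    exact h3.unique (hd y s)
  have h4 : HasFDerivAt (fun p : E × ℝ => fderiv ℝ q p (0, 1))
      ((fderiv ℝ (fderiv ℝ q) (x, t)).flip (0, 1)) (x, t) := by
    have := ((hq'.differentiable (by simp) (x, t)).hasFDerivAt).clm_apply
      (hasFDerivAt_const ((0, 1) : E × ℝ) (x, t))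
    refine this.congr_fderiv ?_
    ext w <;> simp
  have h5 : HasFDerivAt (fun p : E × ℝ => Y (q p, p.2))
      ((fderiv ℝ Y (q (x, t), t)).comp ((fderiv ℝ q (x, t)).prod
        (ContinuousLinearMap.snd ℝ E ℝ))) (x, t) := by
    have h6 : HasFDerivAt (fun p : E × ℝ => (q p, p.2)) ((fderiv ℝ q (x, t)).prod
        (ContinuousLinearMap.snd ℝ E ℝ)) (x, t) := (hqd (x, t)).prodMk hasFDerivAt_snd
    exact HasFDerivAt.comp (g := Y) (x, t)
      ((hY.differentiable (by simp) (q (x, t), t)).hasFDerivAt) h6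
  rw [e1] at h4
  have h7 := h4.unique h5
  have h8 := congrArg (fun L : E × ℝ →L[ℝ] E => L (u, 0)) h7
  simp only [ContinuousLinearMap.flip_apply, ContinuousLinearMap.comp_apply,
    ContinuousLinearMap.prod_apply, ContinuousLinearMap.coe_snd'] at h8
  rw [hsym, h8] at h2
  exact h2

/-- invariance of a time dependent form along a flow -/
theorem pullback_const {q Y : E × ℝ → E} (hq : ContDiff ℝ ∞ q) (hY : ContDiff ℝ ∞ Y)
    (hd : ∀ x t, HasDerivAt (fun t => q (x, t)) (Y (q (x, t), t)) t)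
    {om : E × ℝ → E →L[ℝ] E →L[ℝ] ℝ} (hω : ContDiff ℝ ∞ om)
    (H : ∀ x s a b, fderiv ℝ om (x, s) (Y (x, s), 1) a b + om (x, s) (fderiv ℝ Y (x, s) (a, 0)) b
      + om (x, s) a (fderiv ℝ Y (x, s) (b, 0)) = 0) (x u v : E) (t : ℝ) :
    om (q (x, t), t) (fderiv ℝ q (x, t) (u, 0)) (fderiv ℝ q (x, t) (v, 0)) =
      om (q (x, 0), 0) (fderiv ℝ q (x, 0) (u, 0)) (fderiv ℝ q (x, 0) (v, 0)) := by
  have hder : ∀ t, HasDerivAt (fun t => om (q (x, t), t) (fderiv ℝ q (x, t) (u, 0))
      (fderiv ℝ q (x, t) (v, 0))) 0 t := by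
    intro t
    have h1 : HasDerivAt (fun t => (q (x, t), t)) (Y (q (x, t), t), (1 : ℝ)) t :=
      (hd x t).prodMk (hasDerivAt_id t)
    have h2 : HasDerivAt (fun t => om (q (x, t), t))
        (fderiv ℝ om (q (x, t), t) (Y (q (x, t), t), 1)) t :=
      HasFDerivAt.comp_hasDerivAt (l := om) t
        ((hω.differentiable (by simp) (q (x, t), t)).hasFDerivAt) h1
    have h3 := (h2.clm_apply (hasDerivAt_var hq hY hd x u t)).clm_apply
      (hasDerivAt_var hq hY hd x v t)
    refine h3.congr_deriv ?_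
    have h4 := H (q (x, t)) t (fderiv ℝ q (x, t) (u, 0)) (fderiv ℝ q (x, t) (v, 0))
    simp only [add_apply]
    linarith
  exact is_const_of_deriv_eq_zero (fun t => (hder t).differentiableAt)
        (fun t => (hder t).deriv) t 0

/-- **Moser's argument** -/
theorem moser {om : E × ℝ → E →L[ℝ] E →L[ℝ] ℝ} (hω : ContDiff ℝ ∞ om)
    (halt : ∀ p u v, om p u v = - om p v u)
    (hcl : ∀ p u v w, fderiv ℝ om p (u, 0) v w + fderiv ℝ om p (v, 0) w u
      + fderiv ℝ om p (w, 0) u v = 0)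
    {μ : E × ℝ → E →L[ℝ] ℝ} (hμ : ContDiff ℝ ∞ μ)
    (hs : ∀ p a b, fderiv ℝ om p (0, 1) a b =
      fderiv ℝ μ p (b, 0) a - fderiv ℝ μ p (a, 0) b)
    (hnd : ∀ p u, u ≠ 0 → ∃ v, om p u v ≠ 0)
    {C : ℝ} (hC : 0 ≤ C)
    (hb : ∀ x s y, (∀ v, om (x, s) y v = μ (x, s) v) → |inner ℝ x y| ≤ C * ‖x‖ ^ 2) :
    ∃ Q : E → ℝ → ℝ → E, ContDiff ℝ ∞ (fun p : (E × ℝ) × ℝ => Q p.1.1 p.1.2 p.2) ∧
      (∀ x a, Q x a 0 = x) ∧
      (∀ x a t, ∃ y, (∀ v, om (Q x a t, a + t) y v = μ (Q x a t, a + t) v) ∧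
        HasDerivAt (fun t => Q x a t) y t) ∧
      (∀ x a t s, Q (Q x a t) (a + t) s = Q x a (t + s)) ∧
      (∀ x u v a t, om (Q x a t, a + t) (fderiv ℝ (fun y => Q y a t) x u)
        (fderiv ℝ (fun y => Q y a t) x v) = om (x, a) u v) := by
  set Y : E × ℝ → E := fun p => ContinuousLinearMap.inverse (om p) (μ p) with hYdef
  have hY : ContDiff ℝ ∞ Y := contDiff_inverse_nondeg hω hnd hμ
  have hYω : ∀ p v, om p (Y p) v = μ p v := fun p v => inverse_apply_nondeg (om p) (hnd p) (μ p) v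
  obtain ⟨Q, hQ, hQ0, hQd, hQa⟩ := exists_td_flow hY hC (fun x s => hb x s _ (hYω (x, s)))
  refine ⟨Q, hQ, hQ0, fun x a t => ⟨_, hYω _, hQd x a t⟩, hQa, ?_⟩
  intro x u v a t
  -- shifted data
  set q : E × ℝ → E := fun p => Q p.1 a p.2 with hq
  have hqs : ContDiff ℝ ∞ q := hQ.comp
    ((contDiff_fst.prodMk contDiff_const).prodMk contDiff_snd :
      ContDiff ℝ ∞ (fun p : E × ℝ => ((p.1, a), p.2)))
  have hsh : ContDiff ℝ ∞ (fun p : E × ℝ => (p.1, a + p.2)) :=
    contDiff_fst.prodMk (contDiff_const.add contDiff_snd)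
  have hshd : ∀ p : E × ℝ, HasFDerivAt (fun p : E × ℝ => (p.1, a + p.2))
      (ContinuousLinearMap.id ℝ (E × ℝ)) p := by
    intro p
    have : HasFDerivAt (fun p : E × ℝ => (p.1, a + p.2)) _ p :=
      (hasFDerivAt_fst (𝕜 := ℝ) (E := E) (F := ℝ) (p := p)).prodMk
        ((hasFDerivAt_snd (𝕜 := ℝ) (E := E) (F := ℝ) (p := p)).const_add a)
    refine this.congr_fderiv ?_
    ext w <;> simp
  have hωs : ContDiff ℝ ∞ (fun p : E × ℝ => om (p.1, a + p.2)) := hω.comp hsh
  have hYs : ContDiff ℝ ∞ (fun p : E × ℝ => Y (p.1, a + p.2)) := hY.comp hsh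
  have hωd : ∀ p : E × ℝ, fderiv ℝ (fun p : E × ℝ => om (p.1, a + p.2)) p =
      fderiv ℝ om (p.1, a + p.2) := by
    intro p
    have := HasFDerivAt.comp (g := om) p
      ((hω.differentiable (by simp) (p.1, a + p.2)).hasFDerivAt) (hshd p)
    exact this.fderiv
  have hYd : ∀ p : E × ℝ, fderiv ℝ (fun p : E × ℝ => Y (p.1, a + p.2)) p =
      fderiv ℝ Y (p.1, a + p.2) := by
    intro p
    have := HasFDerivAt.comp (g := Y) p
      ((hY.differentiable (by simp) (p.1, a + p.2)).hasFDerivAt) (hshd p)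
    exact this.fderiv
  have key := pullback_const (q := q) (Y := fun p => Y (p.1, a + p.2)) hqs hYs
    (fun x t => hQd x a t) (om := fun p => om (p.1, a + p.2)) hωs ?_ x u v t
  · have hq0 : ∀ w, fderiv ℝ q (x, 0) (w, 0) = w := by
      intro w
      have h1 : HasFDerivAt (fun y : E => (y, (0:ℝ))) (ContinuousLinearMap.inl ℝ E ℝ) x :=
        hasFDerivAt_prodMk_left x 0
      have h2 := HasFDerivAt.comp (g := q) x
        ((hqs.differentiable (by simp) (x, 0)).hasFDerivAt) h1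
      have h3 : HasFDerivAt (fun y : E => q (y, 0)) (ContinuousLinearMap.id ℝ E) x := by
        have : (fun y : E => q (y, 0)) = fun y => y := by
          funext y; exact hQ0 y a
        rw [this]
        exact hasFDerivAt_id x
      have h4 := h2.unique h3
      have h5 := congrArg (fun L : E →L[ℝ] E => L w) h4
      simpa using h5
    have hqt : ∀ w, fderiv ℝ q (x, t) (w, 0) = fderiv ℝ (fun y => Q y a t) x w := by
      intro w
      have h1 : HasFDerivAt (fun y : E => (y, (t:ℝ))) (ContinuousLinearMap.inl ℝ E ℝ) x :=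
        hasFDerivAt_prodMk_left x t
      have h2 : HasFDerivAt (fun y => Q y a t) _ x := HasFDerivAt.comp (g := q) x
        ((hqs.differentiable (by simp) (x, t)).hasFDerivAt) h1
      rw [h2.fderiv]
      simp
    rw [hq0, hq0, hqt, hqt] at key
    simp only [hq, hQ0, add_zero] at key
    exact key
  · intro x s c b
    rw [hωd, hYd]
    simp only
    set p : E × ℝ := (x, a + s) with hp
    -- differentiate `om p (Y p) v = μ p v`
    have hdiff : ∀ c b : E, fderiv ℝ om p (c, 0) (Y p) b + om p (fderiv ℝ Y p (c, 0)) b =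
        fderiv ℝ μ p (c, 0) b := by
      intro c b
      have h1 : HasFDerivAt (fun p => om p (Y p) b) _ p :=
        (((hω.differentiable (by simp) p).hasFDerivAt).clm_apply
          ((hY.differentiable (by simp) p).hasFDerivAt)).clm_apply (hasFDerivAt_const b p)
      have h2 : HasFDerivAt (fun p => μ p b) _ p :=
        ((hμ.differentiable (by simp) p).hasFDerivAt).clm_apply (hasFDerivAt_const b p)
      have e : (fun p => om p (Y p) b) = fun p => μ p b := funext fun p => hYω p b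
      rw [e] at h1
      have h3 := h1.unique h2
      have h4 := congrArg (fun L : E × ℝ →L[ℝ] ℝ => L (c, 0)) h3
      simp at h4
      linarith
    have e0 : fderiv ℝ om p (Y p, 1) = fderiv ℝ om p (Y p, 0) + fderiv ℝ om p (0, 1) := by
      rw [← map_add]; simp
    rw [e0]
    simp only [add_apply]
    have h1 := hdiff c b
    have h2 := hdiff b c
    have h3 := hcl p c (Y p) b
    have h4 := hs p c b
    have ha : ∀ w a b, fderiv ℝ om p w a b = - fderiv ℝ om p w b a := by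
      intro w a b
      have hd := (hω.differentiable (by simp) p).hasFDerivAt
      have e1 : HasFDerivAt (fun z => om z a b) _ p :=
        (hd.clm_apply (hasFDerivAt_const a p)).clm_apply (hasFDerivAt_const b p)
      have e2 : HasFDerivAt (fun z => om z b a) _ p :=
        (hd.clm_apply (hasFDerivAt_const b p)).clm_apply (hasFDerivAt_const a p)
      have e3 : (fun z => om z a b) = fun z => - om z b a := funext fun z => halt z a b
      have e4 := e1.fderiv
      rw [e3, e2.fun_neg.fderiv] at e4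
      have e5 := congrArg (fun L : E × ℝ →L[ℝ] ℝ => L w) e4
      simp at e5
      linarith
    have h5 := ha (b, 0) (Y p) c
    have h6 := ha (Y p, 0) c b
    have h7 := halt p c (fderiv ℝ Y p (b, 0))
    have h8 := ha (Y p, 0) b c
    have h9 := ha (b, 0) c (Y p)
    rw [h7]
    linarith

end Pool.Agent.W585
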