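import Mathlib
import Pool.Agent.W585.Moser

/-! Moser's argument for exact forms given by a family of primitives. -/

set_option autoImplicit false
set_option maxSynthPendingDepth 3
set_option linter.unusedSectionVars false
set_option linter.deprecated false

open MeasureTheory Set Filter Topology
open scoped ContDiff Manifold

namespace Pool.Agent.W585

variable {E : Type} [NormedAddCommGroup E] [InnerProductSpace ℝ E] [FiniteDimensional ℝ E]

/-- space exterior derivative of a time dependent one form -/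
noncomputable def dx (l : E × ℝ → E →L[ℝ] ℝ) (p : E × ℝ) (u v : E) : ℝ :=
  fderiv ℝ l p (u, 0) v - fderiv ℝ l p (v, 0) u

theorem moserX {l : E × ℝ → E →L[ℝ] ℝ} (hl : ContDiff ℝ ∞ l)
    (hnd : ∀ p u, u ≠ 0 → ∃ v, dx l p u v ≠ 0) {C : ℝ} (hC : 0 ≤ C)
    (hb : ∀ x s y, (∀ v, dx l (x, s) y v = - fderiv ℝ l (x, s) (0, 1) v) →
      |inner ℝ x y| ≤ C * ‖x‖ ^ 2) :
    ∃ Q : E → ℝ → ℝ → E, ContDiff ℝ ∞ (fun p : (E × ℝ) × ℝ => Q p.1.1 p.1.2 p.2) ∧
      (∀ x a, Q x a 0 = x) ∧
      (∀ x a t, ∃ y, (∀ v, dx l (Q x a t, a + t) y v = - fderiv ℝ l (Q x a t, a + t) (0, 1) v) ∧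
        HasDerivAt (fun t => Q x a t) y t) ∧
      (∀ x a t s, Q (Q x a t) (a + t) s = Q x a (t + s)) ∧
      (∀ x u v a t, dx l (Q x a t, a + t) (fderiv ℝ (fun y => Q y a t) x u)
        (fderiv ℝ (fun y => Q y a t) x v) = dx l (x, a) u v) := by
  have hl' : ContDiff ℝ ∞ (fderiv ℝ l) := hl.fderiv_right (by simp)
  set A : E × ℝ → E →L[ℝ] E →L[ℝ] ℝ := fun p =>
    (fderiv ℝ l p).comp (ContinuousLinearMap.inl ℝ E ℝ) with hA
  have hAs : ContDiff ℝ ∞ A := hl'.clm_comp contDiff_const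
  set om : E × ℝ → E →L[ℝ] E →L[ℝ] ℝ := fun p => A p - (A p).flip with hom
  have hfl : ContDiff ℝ ∞ (fun B : E →L[ℝ] E →L[ℝ] ℝ => B.flip) :=
    (ContinuousLinearMap.flipₗᵢ ℝ E E ℝ).toContinuousLinearEquiv.contDiff
  have homs : ContDiff ℝ ∞ om := hAs.sub (hfl.comp hAs)
  have home : ∀ p u v, om p u v = dx l p u v := by
    intro p u v
    simp [hom, hA, dx]
  set mu : E × ℝ → E →L[ℝ] ℝ := fun p => - fderiv ℝ l p (0, 1) with hmu
  have hmus : ContDiff ℝ ∞ mu := (hl'.clm_apply contDiff_const).neg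
  -- derivatives
  have hD2 : ∀ p, HasFDerivAt (fderiv ℝ l) (fderiv ℝ (fderiv ℝ l) p) p := fun p =>
    (hl'.differentiable (by simp) p).hasFDerivAt
  have hsym : ∀ p w w', fderiv ℝ (fderiv ℝ l) p w w' = fderiv ℝ (fderiv ℝ l) p w' w := by
    intro p w w'
    have := (hl.contDiffAt (x := p)).isSymmSndFDerivAt (by
      simp only [minSmoothness_of_isRCLikeNormedField]
      exact WithTop.coe_le_coe.2 (le_top : (2:ℕ∞) ≤ ⊤))
    exact this.eq _ _
  have hdom : ∀ p w u v, fderiv ℝ om p w u v =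
      fderiv ℝ (fderiv ℝ l) p w (u, 0) v - fderiv ℝ (fderiv ℝ l) p w (v, 0) u := by
    intro p w u v
    have h0 := (homs.differentiable (by simp) p).hasFDerivAt
    have h1 : HasFDerivAt (fun z => om z u v) _ p :=
      (h0.clm_apply (hasFDerivAt_const u p)).clm_apply (hasFDerivAt_const v p)
    have h2 : HasFDerivAt (fun z => fderiv ℝ l z (u, 0) v - fderiv ℝ l z (v, 0) u) _ p :=
      (((hD2 p).clm_apply (hasFDerivAt_const ((u, 0) : E × ℝ) p)).clm_apply
        (hasFDerivAt_const v p)).fun_sub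
        (((hD2 p).clm_apply (hasFDerivAt_const ((v, 0) : E × ℝ) p)).clm_apply
        (hasFDerivAt_const u p))
    have e : (fun z => om z u v) = fun z => fderiv ℝ l z (u, 0) v - fderiv ℝ l z (v, 0) u :=
      funext fun z => home z u v
    rw [e] at h1
    have h3 := congrArg (fun L : E × ℝ →L[ℝ] ℝ => L w) (h1.unique h2)
    simpa using h3
  have hdmu : ∀ p w v, fderiv ℝ mu p w v = - fderiv ℝ (fderiv ℝ l) p w (0, 1) v := by
    intro p w v
    have h1 : HasFDerivAt mu _ p := ((hD2 p).clm_apply (hasFDerivAt_const ((0, 1) : E × ℝ) p)).fun_neg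
    rw [h1.fderiv]
    simp
  have key := moser (om := om) homs ?_ ?_ (μ := mu) hmus ?_ ?_ hC ?_
  · obtain ⟨Q, h1, h2, h3, h4, h5⟩ := key
    refine ⟨Q, h1, h2, ?_, h4, ?_⟩
    · intro x a t
      obtain ⟨y, hy, hy'⟩ := h3 x a t
      refine ⟨y, fun v => ?_, hy'⟩
      rw [← home, hy]
      simp [hmu]
    · intro x u v a t
      have := h5 x u v a t
      rw [home, home] at this
      exact this
  · intro p u v
    rw [home, home, dx, dx]
    ring
  · intro p u v w
    rw [hdom, hdom, hdom, hsym p (v, 0) (u, 0), hsym p (w, 0) (u, 0), hsym p (w, 0) (v, 0)]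
    ring
  · intro p a b
    rw [hdom, hdmu, hdmu, hsym p (0, 1) (a, 0), hsym p (0, 1) (b, 0)]
    ring
  · intro p u hu
    obtain ⟨v, hv⟩ := hnd p u hu
    exact ⟨v, by rw [home]; exact hv⟩
  · intro x s y hy
    refine hb x s y fun v => ?_
    rw [← home, hy]
    simp [hmu]

end Pool.Agent.W585
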