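import Mathlib
import Pool.Agent.W585.MoserX
import Pool.Agent.W585.Good

/-! A polar almost Kähler structure on a Euclidean space is symplectomorphic to the flat one. -/

set_option autoImplicit false
set_option maxSynthPendingDepth 3
set_option linter.unusedSectionVars false
set_option linter.deprecated false

open MeasureTheory Set Filter Topology
open scoped ContDiff Manifold

namespace Pool.Agent.W585

variable {E : Type} [NormedAddCommGroup E] [InnerProductSpace ℝ E] [FiniteDimensional ℝ E]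

/-- dual vector fields -/
theorem exists_dual_field {l m : E → E →L[ℝ] ℝ} (hl : ContDiff ℝ ∞ l) (hm : ContDiff ℝ ∞ m)
    (hnd : ∀ x u, u ≠ 0 → ∃ v, dd l x u v ≠ 0) :
    ∃ Z : E → E, ContDiff ℝ ∞ Z ∧ ∀ x v, dd l x (Z x) v = m x v := by
  have hl' : ContDiff ℝ ∞ (fderiv ℝ l) := hl.fderiv_right (by simp)
  have hfl : ContDiff ℝ ∞ (fun B : E →L[ℝ] E →L[ℝ] ℝ => B.flip) :=
    (ContinuousLinearMap.flipₗᵢ ℝ E E ℝ).toContinuousLinearEquiv.contDiff
  set om : E → E →L[ℝ] E →L[ℝ] ℝ := fun p => fderiv ℝ l p - (fderiv ℝ l p).flip with hom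
  have homs : ContDiff ℝ ∞ om := hl'.sub (hfl.comp hl')
  have home : ∀ p u v, om p u v = dd l p u v := by
    intro p u v
    simp [hom, dd]
  have hnd' : ∀ x u, u ≠ 0 → ∃ v, om x u v ≠ 0 := by
    intro x u hu
    obtain ⟨v, hv⟩ := hnd x u hu
    exact ⟨v, by rw [home]; exact hv⟩
  refine ⟨fun x => ContinuousLinearMap.inverse (om x) (m x),
    contDiff_inverse_nondeg homs hnd' hm, fun x v => ?_⟩
  rw [← home]
  exact inverse_apply_nondeg (om x) (hnd' x) (m x) v

theorem dd_sub_left {l : E → E →L[ℝ] ℝ} (x y z v : E) :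
    dd l x (y - z) v = dd l x y v - dd l x z v := by
  simp [dd]; ring

namespace Kah

variable (K : Kah E)

theorem g_le_of_pair {l : ℝ} {C : ℝ} {x y : E} (h1 : 1 / 2 * K.g x y ≤ l)
    (h2 : l ≤ C * (‖x‖ * Real.sqrt (K.g x y))) (hC : 0 ≤ C) : |inner ℝ x y| ≤ 2 * C * ‖x‖ ^ 2 := by
  set s := Real.sqrt (K.g x y) with hs
  have hs2 : K.g x y = s ^ 2 := (Real.sq_sqrt (K.g_nonneg x y)).symm
  have hs0 : 0 ≤ s := Real.sqrt_nonneg _
  have hsC : s ≤ 2 * C * ‖x‖ := by
    rcases hs0.eq_or_lt with h | h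
    · rw [← h]; positivity
    · have : s * s ≤ 2 * C * ‖x‖ * s := by rw [hs2] at h1; nlinarith
      exact le_of_mul_le_mul_right this h
  have h3 : |inner ℝ x y| ≤ ‖x‖ * s := by
    have h4 := K.abs_le x x (K.J x y)
    rw [K.gauss, K.g_self, K.g_J, Real.sqrt_sq (norm_nonneg x)] at h4
    exact h4
  have := norm_nonneg x
  nlinarith

/-- first deformation -/
theorem stage1 {l : E → E →L[ℝ] ℝ} (hl : ContDiff ℝ ∞ l)
    (ht : ∀ x v, 1 / 2 * K.g x v ≤ dd l x v (K.J x v))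
    (hb : ∀ x v, |l x v| ≤ ‖x‖ * Real.sqrt (K.g x v)) :
    ∃ F G : E → E, ContDiff ℝ ∞ F ∧ ContDiff ℝ ∞ G ∧ (∀ x, G (F x) = x) ∧ (∀ x, F (G x) = x) ∧
      ∀ x u v, K.Ω (F x) (fderiv ℝ F x u) (fderiv ℝ F x v) = dd l x u v := by
  obtain ⟨L, hL0, hL⟩ := smoothTransition_deriv_bound
  set La : E × ℝ → E →L[ℝ] ℝ := fun p =>
    l p.1 + Real.smoothTransition p.2 • (K.prim p.1 - l p.1) with hLa
  have hLas : ContDiff ℝ ∞ La :=
    (hl.comp contDiff_fst).add ((Real.smoothTransition.contDiff.comp contDiff_snd).smul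
      ((K.contDiff_prim.comp contDiff_fst).sub (hl.comp contDiff_fst)))
  have hder : ∀ (x : E) (s : ℝ) (u : E) (τ : ℝ) (v : E), fderiv ℝ La (x, s) (u, τ) v =
      fderiv ℝ l x u v + Real.smoothTransition s * (fderiv ℝ K.prim x u v - fderiv ℝ l x u v) +
        deriv Real.smoothTransition s * τ * (K.prim x v - l x v) := by
    intro x s u τ v
    have h1 : HasFDerivAt (fun p : E × ℝ => l p.1)
        ((fderiv ℝ l x).comp (ContinuousLinearMap.fst ℝ E ℝ)) (x, s) :=
      HasFDerivAt.comp (g := l) (x, s) ((hl.differentiable (by simp) x).hasFDerivAt) hasFDerivAt_fst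
    have h2 : HasFDerivAt (fun p : E × ℝ => K.prim p.1)
        ((fderiv ℝ K.prim x).comp (ContinuousLinearMap.fst ℝ E ℝ)) (x, s) :=
      HasFDerivAt.comp (g := K.prim) (x, s)
        ((K.contDiff_prim.differentiable (by simp) x).hasFDerivAt) hasFDerivAt_fst
    have h3 : HasFDerivAt (fun p : E × ℝ => Real.smoothTransition p.2)
        (deriv Real.smoothTransition s • (ContinuousLinearMap.snd ℝ E ℝ)) (x, s) :=
      HasDerivAt.comp_hasFDerivAt (f := fun p : E × ℝ => p.2) (x, s)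
        (((Real.smoothTransition.contDiff (n := 1)).differentiable (by simp) _).hasDerivAt)
        hasFDerivAt_snd
    have h4 : HasFDerivAt La _ (x, s) := h1.add (h3.smul (h2.sub h1))
    rw [h4.fderiv]
    simp
    ring
  have hdx : ∀ x s u v, dx La (x, s) u v = dd l x u v +
      Real.smoothTransition s * (K.Ω x u v - dd l x u v) := by
    intro x s u v
    rw [dx, hder, hder, ← K.d_prim x u v, dd]
    ring
  have hpos : ∀ x s v, 1 / 2 * K.g x v ≤ dx La (x, s) v (K.J x v) := by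
    intro x s v
    rw [hdx]
    have h1 := ht x v
    have h2 : K.Ω x v (K.J x v) = K.g x v := rfl
    have h3 := K.g_nonneg x v
    have h4 := Real.smoothTransition.nonneg s
    have h5 := Real.smoothTransition.le_one s
    rw [h2]
    nlinarith
  have key := moserX hLas ?_ (C := 2 * (2 * L)) (by positivity) ?_
  · obtain ⟨Q, hQ, hQ0, -, hQa, hQp⟩ := key
    refine ⟨fun x => Q x 0 1, fun x => Q x 1 (-1), ?_, ?_, ?_, ?_, ?_⟩
    · exact hQ.comp ((contDiff_id.prodMk contDiff_const).prodMk contDiff_const :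
        ContDiff ℝ ∞ (fun x : E => ((x, (0:ℝ)), (1:ℝ))))
    · exact hQ.comp ((contDiff_id.prodMk contDiff_const).prodMk contDiff_const :
        ContDiff ℝ ∞ (fun x : E => ((x, (1:ℝ)), (-1:ℝ))))
    · intro x
      have := hQa x 0 1 (-1)
      rw [zero_add, add_neg_cancel, hQ0] at this
      exact this
    · intro x
      have := hQa x 1 (-1) 1
      rw [add_neg_cancel, neg_add_cancel, hQ0] at this
      exact this
    · intro x u v
      have := hQp x u v 0 1
      rw [zero_add, hdx, hdx, Real.smoothTransition.one, Real.smoothTransition.zero] at this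
      linarith
  · rintro ⟨x, s⟩ u hu
    refine ⟨K.J x u, ?_⟩
    have h1 := hpos x s u
    have h2 := K.g_pos (x := x) hu
    linarith
  · intro x s y hy
    refine K.g_le_of_pair (hpos x s y) ?_ (by positivity)
    rw [hy, hder]
    simp only [map_zero, zero_apply, sub_self, mul_zero, add_zero, mul_one, zero_add]
    have h1 := hL s
    have h2 := K.prim_le x (K.J x y)
    have h3 := hb x (K.J x y)
    rw [K.g_J] at h2 h3
    set a := ‖x‖ * Real.sqrt (K.g x y) with ha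
    have ha0 : 0 ≤ a := by positivity
    have h4 : |K.prim x (K.J x y) - l x (K.J x y)| ≤ 2 * a := by
      refine (abs_sub _ _).trans ?_
      linarith
    calc -(deriv Real.smoothTransition s * (K.prim x (K.J x y) - l x (K.J x y)))
        ≤ |deriv Real.smoothTransition s * (K.prim x (K.J x y) - l x (K.J x y))| :=
          neg_le_abs _
      _ ≤ L * (2 * a) := by rw [abs_mul]; gcongr
      _ = 2 * L * a := by ring

/-- second deformation: the Liouville flow -/
theorem stage2 {l : E → E →L[ℝ] ℝ} (hl : ContDiff ℝ ∞ l)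
    (ht : ∀ x v, 1 / 2 * K.g x v ≤ dd l x v (K.J x v))
    (hb : ∀ x v, |l x v| ≤ ‖x‖ * Real.sqrt (K.g x v))
    (hly : ∀ x y, x ≠ 0 → (∀ v, dd l x y v = l x v) → 0 < inner ℝ x y)
    {δ : ℝ} (hδ : 0 < δ) (hn1 : ∀ x, ‖x‖ < δ → ∀ v, l x v = (1 / 2) * K.Ω 0 x v)
    (hn2 : ∀ x, ‖x‖ < δ → ∀ u v, dd l x u v = K.Ω 0 u v) :
    ∃ F G : E → E, ContDiff ℝ ∞ F ∧ ContDiff ℝ ∞ G ∧ (∀ x, G (F x) = x) ∧ (∀ x, F (G x) = x) ∧
      ∀ x u v, dd l (F x) (fderiv ℝ F x u) (fderiv ℝ F x v) = K.Ω 0 u v := by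
  have hnd : ∀ x u, u ≠ 0 → ∃ v, dd l x u v ≠ 0 := by
    intro x u hu
    refine ⟨K.J x u, ?_⟩
    have h1 := ht x u
    have h2 := K.g_pos (x := x) hu
    linarith
  obtain ⟨Z, hZ, hZl⟩ := exists_dual_field hl hl hnd
  have hZu : ∀ x y, (∀ v, dd l x y v = l x v) → y = Z x := by
    intro x y hy
    by_contra hne
    obtain ⟨v, hv⟩ := hnd x (y - Z x) (sub_ne_zero.2 hne)
    apply hv
    rw [dd_sub_left, hy, hZl, sub_self]
  have hZpos : ∀ x, x ≠ 0 → 0 < inner ℝ x (Z x) := fun x hx => hly x _ hx (hZl x)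
  have hZnear : ∀ x, ‖x‖ < δ → Z x = (1 / 2 : ℝ) • x := by
    intro x hx
    refine (hZu x _ fun v => ?_).symm
    rw [hn1 x hx, hn2 x hx]
    simp
  have hZnn : ∀ x, 0 ≤ inner ℝ x (Z x) := by
    intro x
    by_cases hx : x = 0
    · rw [hx]; simp
    · exact (hZpos x hx).le
  -- the flow
  set La : E × ℝ → E →L[ℝ] ℝ := fun p => Real.exp (-p.2) • l p.1 with hLa
  have hLas : ContDiff ℝ ∞ La :=
    (Real.contDiff_exp.comp contDiff_snd.neg).smul (hl.comp contDiff_fst)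
  have hder : ∀ (x : E) (s : ℝ) (u : E) (τ : ℝ) (v : E), fderiv ℝ La (x, s) (u, τ) v =
      Real.exp (-s) * fderiv ℝ l x u v - Real.exp (-s) * τ * l x v := by
    intro x s u τ v
    have h1 : HasFDerivAt (fun p : E × ℝ => l p.1)
        ((fderiv ℝ l x).comp (ContinuousLinearMap.fst ℝ E ℝ)) (x, s) :=
      HasFDerivAt.comp (g := l) (x, s) ((hl.differentiable (by simp) x).hasFDerivAt) hasFDerivAt_fst
    have h2 : HasFDerivAt (fun p : E × ℝ => -p.2) (-(ContinuousLinearMap.snd ℝ E ℝ)) (x, s) :=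
      hasFDerivAt_snd.fun_neg
    have h3 : HasFDerivAt (fun p : E × ℝ => Real.exp (-p.2)) _ (x, s) := h2.exp
    have h4 : HasFDerivAt La _ (x, s) := h3.smul h1
    rw [h4.fderiv]
    simp
    ring
  have hdx : ∀ x s u v, dx La (x, s) u v = Real.exp (-s) * dd l x u v := by
    intro x s u v
    rw [dx, hder, hder, dd]
    ring
  have key := moserX hLas ?_ (C := 2 * 1) (by positivity) ?_
  rotate_left
  · rintro ⟨x, s⟩ u hu
    obtain ⟨v, hv⟩ := hnd x u hu
    exact ⟨v, by rw [hdx]; exact mul_ne_zero (Real.exp_pos _).ne' hv⟩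
  · intro x s y hy
    have hy' : ∀ v, dd l x y v = l x v := by
      intro v
      have h1 := hy v
      rw [hdx, hder] at h1
      simp only [map_zero, zero_apply, mul_zero, mul_one, zero_sub, neg_neg] at h1
      exact mul_left_cancel₀ (Real.exp_pos _).ne' h1
    refine K.g_le_of_pair (ht x y) ?_ (by positivity)
    rw [hy']
    have h3 := hb x (K.J x y)
    rw [K.g_J] at h3
    rw [one_mul]
    exact (le_abs_self _).trans h3
  obtain ⟨Q, hQ, hQ0, hQd, -, hQp⟩ := key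
  set φ : E → ℝ → E := fun x t => Q x 0 t with hφ
  have hφ0 : ∀ x, φ x 0 = x := fun x => hQ0 x 0
  have hφd : ∀ x t, HasDerivAt (φ x) (Z (φ x t)) t := by
    intro x t
    obtain ⟨y, hy, hy'⟩ := hQd x 0 t
    have : y = Z (φ x t) := by
      refine hZu _ _ fun v => ?_
      have h1 := hy v
      rw [zero_add, hdx, hder] at h1
      simp only [map_zero, zero_apply, mul_zero, mul_one, zero_sub, neg_neg] at h1
      exact mul_left_cancel₀ (Real.exp_pos _).ne' h1
    rw [← this]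
    exact hy'
  obtain ⟨hφs, hφa⟩ := flow_smooth hZ hφ0 hφd
  have hφst : ∀ t, ContDiff ℝ ∞ (fun x => φ x t) := fun t =>
    hφs.comp (contDiff_id.prodMk contDiff_const : ContDiff ℝ ∞ (fun x : E => (x, t)))
  have hφp : ∀ x u v t, dd l (φ x t) (fderiv ℝ (fun y => φ y t) x u) (fderiv ℝ (fun y => φ y t) x v)
      = Real.exp t * dd l x u v := by
    intro x u v t
    have h1 := hQp x u v 0 t
    rw [zero_add, hdx, hdx, neg_zero, Real.exp_zero, one_mul] at h1
    rw [← h1, ← mul_assoc, ← Real.exp_add, add_neg_cancel, Real.exp_zero, one_mul]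
  -- backward norm decreasing
  have hsq : ∀ x t, HasDerivAt (fun t => ‖φ x t‖ ^ 2) (2 * inner ℝ (φ x t) (Z (φ x t))) t :=
    fun x t => (hφd x t).norm_sq
  have hmono : ∀ x, Monotone (fun t => ‖φ x t‖ ^ 2) := by
    intro x
    refine monotone_of_hasDerivAt_nonneg (hsq x) fun t => ?_
    have := hZnn (φ x t)
    simp only [Pi.zero_apply]
    positivity
  have hball : ∀ x t, t ≤ 0 → ‖φ x t‖ ≤ ‖x‖ := by
    intro x t ht
    have h1 := hmono x ht
    simp only [hφ0] at h1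
    exact (sq_le_sq₀ (norm_nonneg _) (norm_nonneg _)).1 h1
  have hback : ∀ z, ‖z‖ < δ → ∀ t, 0 ≤ t → φ z (-t) = Real.exp (-t / 2) • z := by
    intro z hz t ht
    have hcd : ∀ s ∈ Icc (0:ℝ) t, HasDerivAt (fun s => Real.exp (s / 2) • φ z (-s)) 0 s := by
      intro s hs
      have h1 : HasDerivAt (fun s => φ z (-s)) (-Z (φ z (-s))) s := by
        have := (hφd z (-s)).scomp s (hasDerivAt_neg s)
        exact (this : HasDerivAt (fun s => φ z (-s)) _ s).congr_deriv (by simp)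
      have h2 : HasDerivAt (fun s : ℝ => Real.exp (s / 2)) (Real.exp (s / 2) * (1 / 2)) s :=
        ((hasDerivAt_id s).div_const 2).exp
      have h3 := h2.smul h1
      refine h3.congr_deriv ?_
      rw [hZnear _ ((hball z (-s) (by linarith [hs.1])).trans_lt hz)]
      rw [smul_neg, smul_smul]
      abel
    have hc := constant_of_has_deriv_right_zero (a := 0) (b := t)
      (f := fun s => Real.exp (s / 2) • φ z (-s))
      (fun s hs => (hcd s hs).continuousAt.continuousWithinAt)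
      (fun s hs => (hcd s ⟨hs.1, hs.2.le⟩).hasDerivWithinAt) t ⟨ht, le_rfl⟩
    simp only [zero_div, Real.exp_zero, neg_zero, hφ0, one_smul] at hc
    have e : Real.exp (-t / 2) • (Real.exp (t / 2) • φ z (-t)) = φ z (-t) := by
      rw [smul_smul, ← Real.exp_add]
      have : -t / 2 + t / 2 = 0 := by ring
      rw [this, Real.exp_zero, one_smul]
    rw [hc] at e
    exact e.symm
  have hforw : ∀ z, ‖z‖ < δ → ∀ t, 0 ≤ t → φ (Real.exp (-t / 2) • z) t = z := by
    intro z hz t ht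
    rw [← hback z hz t ht, ← hφa, neg_add_cancel, hφ0]
  -- entering the ball
  have henter : ∀ x, ∃ k : ℕ, ‖φ x (-(k:ℝ))‖ < δ := by
    intro x
    by_contra hcon
    push Not at hcon
    have hge : ∀ t : ℝ, t ≤ 0 → δ ≤ ‖φ x t‖ := by
      intro t ht
      obtain ⟨k, hk⟩ := exists_nat_ge (-t)
      have h1 := hmono x (show -(k:ℝ) ≤ t by linarith)
      have h2 := (sq_le_sq₀ (norm_nonneg _) (norm_nonneg _)).1 h1
      exact (hcon k).trans h2
    have hproper : ProperSpace E := FiniteDimensional.proper_real E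
    have hcomp : IsCompact (Metric.closedBall (0:E) ‖x‖ ∩ {y | δ ≤ ‖y‖}) :=
      (isCompact_closedBall _ _).inter_right (isClosed_le continuous_const continuous_norm)
    have hne : (Metric.closedBall (0:E) ‖x‖ ∩ {y | δ ≤ ‖y‖}).Nonempty := by
      refine ⟨x, by simp, ?_⟩
      have := hge 0 le_rfl
      rwa [hφ0] at this
    have hcont : Continuous fun y => inner ℝ y (Z y) := continuous_id.inner hZ.continuous
    obtain ⟨y₀, hy₀, hmin⟩ := hcomp.exists_isMinOn hne hcont.continuousOn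
    set m := inner ℝ y₀ (Z y₀) with hm
    have hmpos : 0 < m := by
      apply hZpos
      rintro rfl
      have : δ ≤ ‖(0:E)‖ := hy₀.2
      rw [norm_zero] at this
      linarith
    -- derivative lower bound
    have hd : MonotoneOn (fun t => ‖φ x t‖ ^ 2 - 2 * m * t) (Iic 0) := by
      have hdd : ∀ t, HasDerivAt (fun t => ‖φ x t‖ ^ 2 - 2 * m * t)
          (2 * inner ℝ (φ x t) (Z (φ x t)) - 2 * m) t := by
        intro t
        have := (hsq x t).fun_sub ((hasDerivAt_id t).const_mul (2 * m))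
        simpa using this
      refine monotoneOn_of_deriv_nonneg (convex_Iic 0)
        (fun t _ => (hdd t).continuousAt.continuousWithinAt)
        (fun t _ => (hdd t).differentiableAt.differentiableWithinAt) ?_
      intro t ht
      rw [interior_Iic] at ht
      rw [(hdd t).deriv]
      have hmem : φ x t ∈ Metric.closedBall (0:E) ‖x‖ ∩ {y | δ ≤ ‖y‖} := by
        refine ⟨?_, hge t (le_of_lt ht)⟩
        rw [mem_closedBall_zero_iff]
        exact hball x t (le_of_lt ht)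
      have := hmin hmem
      simp only [mem_setOf_eq] at this
      linarith
    obtain ⟨k, hk⟩ := exists_nat_gt (‖x‖ ^ 2 / (2 * m))
    have h1 := hd (show -(k:ℝ) ∈ Iic (0:ℝ) by simp) (show (0:ℝ) ∈ Iic (0:ℝ) by simp)
      (by simp : -(k:ℝ) ≤ 0)
    simp only [hφ0, mul_zero, sub_zero] at h1
    rw [div_lt_iff₀ (by positivity)] at hk
    nlinarith [sq_nonneg ‖φ x (-(k:ℝ))‖]
  -- the limit maps
  have hexpk : ∀ R : ℝ, ∃ k : ℕ, Real.exp (-(k:ℝ) / 2) * R < δ := by
    intro R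
    obtain ⟨k, hk⟩ := exists_nat_gt (2 * (|R| / δ))
    refine ⟨k, ?_⟩
    have h1 : (k:ℝ) / 2 < Real.exp ((k:ℝ) / 2) :=
      (lt_add_one _).trans_le (Real.add_one_le_exp _)
    have h2 : Real.exp (-(k:ℝ) / 2) = (Real.exp ((k:ℝ) / 2))⁻¹ := by
      rw [← Real.exp_neg]; congr 1; ring
    rw [h2, inv_mul_lt_iff₀ (Real.exp_pos _)]
    have h3 : |R| / δ < (k:ℝ) / 2 := by linarith
    have h4 : |R| < (k:ℝ) / 2 * δ := by rwa [div_lt_iff₀ hδ] at h3
    calc R ≤ |R| := le_abs_self R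
      _ < (k:ℝ) / 2 * δ := h4
      _ ≤ Real.exp ((k:ℝ) / 2) * δ := by gcongr
  choose kk hkk using hexpk
  have hnormexp : ∀ (k : ℕ) (x : E), ‖Real.exp (-(k:ℝ) / 2) • x‖ = Real.exp (-(k:ℝ) / 2) * ‖x‖ := by
    intro k x
    rw [norm_smul, Real.norm_eq_abs, abs_of_pos (Real.exp_pos _)]
  set Ψ : ℕ → E → E := fun k x => φ (Real.exp (-(k:ℝ) / 2) • x) k with hΨ
  have hΨs : ∀ k, ContDiff ℝ ∞ (Ψ k) := fun k =>
    (hφst k).comp (contDiff_const.smul contDiff_id)
  have hΨle : ∀ (k k' : ℕ) (x : E), k ≤ k' → Real.exp (-(k:ℝ) / 2) * ‖x‖ < δ →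
      Ψ k' x = Ψ k x := by
    intro k k' x hkk' hk
    obtain ⟨j, rfl⟩ := Nat.exists_eq_add_of_le hkk'
    have e1 : Real.exp (-((k + j : ℕ):ℝ) / 2) • x =
        Real.exp (-(j:ℝ) / 2) • (Real.exp (-(k:ℝ) / 2) • x) := by
      rw [smul_smul, ← Real.exp_add]
      congr 2
      push_cast
      ring
    have e2 : ((k + j : ℕ):ℝ) = j + k := by push_cast; ring
    show φ (Real.exp (-((k + j : ℕ):ℝ) / 2) • x) ((k + j : ℕ):ℝ) = _
    rw [e1, e2, hφa, hforw _ (by rw [hnormexp]; exact hk) _ (Nat.cast_nonneg j)]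
  have hΨeq : ∀ (k k' : ℕ) (x : E), Real.exp (-(k:ℝ) / 2) * ‖x‖ < δ →
      Real.exp (-(k':ℝ) / 2) * ‖x‖ < δ → Ψ k x = Ψ k' x := by
    intro k k' x hk hk'
    rcases le_total k k' with h | h
    · exact (hΨle k k' x h hk).symm
    · exact hΨle k' k x h hk'
  set F : E → E := fun x => Ψ (kk ‖x‖) x with hF
  have hFeq : ∀ (k : ℕ) x, Real.exp (-(k:ℝ) / 2) * ‖x‖ < δ → F x = Ψ k x := fun k x hk =>
    hΨeq _ _ x (hkk ‖x‖) hk
  have hFloc : ∀ x, F =ᶠ[𝓝 x] Ψ (kk (‖x‖ + 1)) := by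
    intro x
    have : {y : E | ‖y‖ < ‖x‖ + 1} ∈ 𝓝 x :=
      (isOpen_lt continuous_norm continuous_const).mem_nhds (by simp)
    filter_upwards [this] with y hy
    refine hFeq _ y (lt_of_le_of_lt ?_ (hkk (‖x‖ + 1)))
    exact mul_le_mul_of_nonneg_left (le_of_lt hy) (Real.exp_pos _).le
  have hexpk' : ∀ x : E, Real.exp (-(kk (‖x‖ + 1):ℝ) / 2) * ‖x‖ < δ := fun x =>
    lt_of_le_of_lt (mul_le_mul_of_nonneg_left (by linarith) (Real.exp_pos _).le) (hkk (‖x‖ + 1))
  -- inverse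
  choose kb hkb using henter
  have hbk : ∀ (k : ℕ) y, ‖φ y (-(k:ℝ))‖ < δ → F (Real.exp ((k:ℝ) / 2) • φ y (-(k:ℝ))) = y := by
    intro k y hk
    have e1 : Real.exp (-(k:ℝ) / 2) • (Real.exp ((k:ℝ) / 2) • φ y (-(k:ℝ))) = φ y (-(k:ℝ)) := by
      rw [smul_smul, ← Real.exp_add]
      have : -(k:ℝ) / 2 + (k:ℝ) / 2 = 0 := by ring
      rw [this, Real.exp_zero, one_smul]
    rw [hFeq k _ (by rw [← hnormexp, e1]; exact hk)]
    show φ (Real.exp (-(k:ℝ) / 2) • (Real.exp ((k:ℝ) / 2) • φ y (-(k:ℝ)))) k = y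
    rw [e1, ← hφa, neg_add_cancel, hφ0]
  have hFinj : ∀ x (k : ℕ), Real.exp (-(k:ℝ) / 2) * ‖x‖ < δ → φ (F x) (-(k:ℝ)) =
      Real.exp (-(k:ℝ) / 2) • x := by
    intro x k hk
    rw [hFeq k x hk]
    show φ (φ (Real.exp (-(k:ℝ) / 2) • x) k) (-(k:ℝ)) = _
    rw [← hφa, add_neg_cancel, hφ0]
  have hGval : ∀ (y : E) (k : ℕ), ‖φ y (-(k:ℝ))‖ < δ →
      ∀ x, F x = y → x = Real.exp ((k:ℝ) / 2) • φ y (-(k:ℝ)) := by
    intro y k hk x hx
    -- pick `j ≥ k` good for `x`
    set j := max k (kk ‖x‖) with hj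
    have hj1 : Real.exp (-(j:ℝ) / 2) * ‖x‖ < δ := by
      refine lt_of_le_of_lt ?_ (hkk ‖x‖)
      have : (kk ‖x‖ : ℝ) ≤ j := by exact_mod_cast le_max_right _ _
      gcongr
    have h1 := hFinj x j hj1
    rw [hx] at h1
    have hkj : (k:ℝ) ≤ j := by exact_mod_cast le_max_left _ _
    have h2 : φ y (-(j:ℝ)) = Real.exp (-((j:ℝ) - k) / 2) • φ y (-(k:ℝ)) := by
      have : -(j:ℝ) = -(k:ℝ) + -((j:ℝ) - k) := by ring
      rw [this, hφa, hback _ hk _ (by linarith)]
    rw [h2] at h1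
    have h3 : x = Real.exp ((j:ℝ) / 2) • (Real.exp (-(j:ℝ) / 2) • x) := by
      rw [smul_smul, ← Real.exp_add]
      have : (j:ℝ) / 2 + -(j:ℝ) / 2 = 0 := by ring
      rw [this, Real.exp_zero, one_smul]
    rw [h3, ← h1, smul_smul, ← Real.exp_add]
    congr 2
    ring
  set G : E → E := fun y => Real.exp ((kb y:ℝ) / 2) • φ y (-(kb y:ℝ)) with hG
  have hFG : ∀ y, F (G y) = y := fun y => hbk (kb y) y (hkb y)
  have hGF : ∀ x, G (F x) = x := fun x => (hGval (F x) (kb (F x)) (hkb (F x)) x rfl).symm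
  refine ⟨F, G, ?_, ?_, hGF, hFG, ?_⟩
  · rw [contDiff_iff_contDiffAt]
    intro x
    exact ((hΨs _).contDiffAt).congr_of_eventuallyEq (hFloc x)
  · rw [contDiff_iff_contDiffAt]
    intro y
    have hs : ContDiff ℝ ∞ (fun z => Real.exp ((kb y:ℝ) / 2) • φ z (-(kb y:ℝ))) :=
      contDiff_const.smul (hφst _)
    refine hs.contDiffAt.congr_of_eventuallyEq ?_
    have : {z : E | ‖φ z (-(kb y:ℝ))‖ < δ} ∈ 𝓝 y :=
      (isOpen_lt ((hφst _).continuous.norm) continuous_const).mem_nhds (hkb y)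
    filter_upwards [this] with z hz
    exact hGval z (kb y) hz (G z) (hFG z)
  · intro x u v
    set k := kk (‖x‖ + 1) with hk
    have hkx := hexpk' x
    rw [← hk] at hkx
    set c := Real.exp (-(k:ℝ) / 2) with hc
    have h1 : ∀ w, fderiv ℝ F x w = fderiv ℝ (fun y => φ y k) (c • x) (c • w) := by
      intro w
      rw [(hFloc x).fderiv_eq]
      have h2 : HasFDerivAt (fun y : E => c • y) (c • ContinuousLinearMap.id ℝ E) x :=
        (hasFDerivAt_id x).const_smul c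
      have h3 : HasFDerivAt (Ψ k) _ x := HasFDerivAt.comp (g := fun y => φ y k) x
        (((hφst k).differentiable (by simp) (c • x)).hasFDerivAt) h2
      rw [h3.fderiv]
      simp
    rw [h1, h1, hFeq k x hkx]
    show dd l (φ (c • x) k) _ _ = _
    rw [hφp, hn2 _ (by rw [hc, hnormexp]; exact hkx)]
    simp only [map_smul, smul_apply, smul_eq_mul]
    rw [hc]
    have : Real.exp (k:ℝ) * (Real.exp (-(k:ℝ) / 2) * (Real.exp (-(k:ℝ) / 2) * K.Ω 0 u v)) =
        (Real.exp (k:ℝ) * Real.exp (-(k:ℝ) / 2) * Real.exp (-(k:ℝ) / 2)) * K.Ω 0 u v := by ring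
    rw [this, ← Real.exp_add, ← Real.exp_add]
    have : (k:ℝ) + -(k:ℝ) / 2 + -(k:ℝ) / 2 = 0 := by ring
    rw [this, Real.exp_zero, one_mul]

/-- **Part A.** A polar almost Kähler structure is globally symplectomorphic to the constant one. -/
theorem partA : ∃ F G : E → E, ContDiff ℝ ∞ F ∧ ContDiff ℝ ∞ G ∧ (∀ x, G (F x) = x) ∧
    (∀ x, F (G x) = x) ∧
      ∀ x u v, K.Ω (F x) (fderiv ℝ F x u) (fderiv ℝ F x v) = K.Ω 0 u v := by
  obtain ⟨L, hL0, hL⟩ := smoothTransition_deriv_bound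
  obtain ⟨ρ, hρ, hρ'⟩ := K.exists_rho L hL0
  have hl := K.contDiff_lam (ρ / 2)
  have ht := K.taming hL hρ hρ'
  have hb := K.lam_le (ρ / 2)
  obtain ⟨F₁, G₁, a1, a2, a3, a4, a5⟩ := K.stage1 hl ht hb
  obtain ⟨F₂, G₂, b1, b2, b3, b4, b5⟩ := K.stage2 hl ht hb
    (fun x y hx h => K.lyapunov hL hρ hρ' hx h) (half_pos hρ)
    (fun x hx v => K.lam_near (half_pos hρ) hx.le v)
    (fun x hx u v => K.dd_lam_near (half_pos hρ) hx u v)
  refine ⟨F₁ ∘ F₂, G₂ ∘ G₁, a1.comp b1, b2.comp a2, ?_, ?_, ?_⟩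
  · intro x; simp [a3, b3]
  · intro x; simp [a4, b4]
  · intro x u v
    have h1 : ∀ w, fderiv ℝ (F₁ ∘ F₂) x w = fderiv ℝ F₁ (F₂ x) (fderiv ℝ F₂ x w) := by
      intro w
      rw [fderiv_comp x (a1.differentiable (by simp) _) (b1.differentiable (by simp) _)]
      rfl
    rw [h1, h1]
    show K.Ω (F₁ (F₂ x)) _ _ = _
    rw [a5, b5]

end Kah

end Pool.Agent.W585
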