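import Mathlib
import Pool.Agent.W585.Exp4
import Pool.Agent.W585.Lin
import Pool.Agent.W585.PartA
import Pool.Agent.H660R4.Final

/-! The pulled back almost Kähler structure. -/

set_option autoImplicit false
set_option maxSynthPendingDepth 3
set_option linter.unusedSectionVars false
set_option linter.deprecated false
set_option linter.unusedSimpArgs false

open Set Filter Topology Metric
open scoped ContDiff Manifold

namespace Pool.Agent.W585

open Pool.Agent.H660R3 Pool.Agent.H660R4

variable {n : ℕ} {M : Type*} [TopologicalSpace M] [ChartedSpace (EE n) M]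
  [IsManifold 𝓘(ℝ, EE n) ∞ M] (w : SymplecticForm n M) (J : AlmostComplex n M)

theorem wlin2 (p : M) (u : EE n) : IsLinearMap ℝ fun v => w.val p u v := by
  constructor
  · intro a b
    rw [w.alternating, w.alternating p u a, w.alternating p u b, (w.linear p u).map_add]
    ring
  · intro k a
    rw [w.alternating, w.alternating p u a, (w.linear p u).map_smul]
    simp

theorem coordForm_eq' (a : M) (y u v : EE n) : coordForm w.val a y u v =
    w.val ((chartAt (EE n) a).symm y) (Jc a ((chartAt (EE n) a).symm y) y u)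
      (Jc a ((chartAt (EE n) a).symm y) y v) := rfl

theorem coordEndo_eq' (a : M) (y v : EE n) : coordEndo J.val a y v =
    Jc ((chartAt (EE n) a).symm y) a (chartAt (EE n) ((chartAt (EE n) a).symm y)
      ((chartAt (EE n) a).symm y))
      (J.val ((chartAt (EE n) a).symm y) (Jc a ((chartAt (EE n) a).symm y) y v)) := rfl

/-- the symplectic form in a chart, bundled -/
noncomputable def PW (a : M) (y : EE n) : EE n →L[ℝ] EE n →L[ℝ] ℝ :=
  clm2 (LinearMap.mk₂ ℝ (coordForm w.val a y)
    (fun u u' v => by simp only [coordForm_eq', map_add]; exact (w.linear _ _).map_add _ _)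
    (fun k u v => by simp only [coordForm_eq', map_smul]; exact (w.linear _ _).map_smul _ _)
    (fun u v v' => by simp only [coordForm_eq', map_add]; exact (wlin2 w _ _).map_add _ _)
    (fun k u v => by simp only [coordForm_eq', map_smul]; exact (wlin2 w _ _).map_smul _ _))

theorem PW_apply (a : M) (y u v : EE n) : PW w a y u v = coordForm w.val a y u v := rfl

/-- the almost complex structure in a chart, bundled -/
noncomputable def PJ (a : M) (y : EE n) : EE n →L[ℝ] EE n :=
  LinearMap.toContinuousLinearMap (IsLinearMap.mk' (coordEndo J.val a y) (by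
    constructor
    · intro u v
      simp only [coordEndo_eq', map_add]
      rw [(J.linear _).map_add, map_add]
    · intro k u
      simp only [coordEndo_eq', map_smul]
      rw [(J.linear _).map_smul, map_smul]))

theorem PJ_apply (a : M) (y v : EE n) : PJ J a y v = coordEndo J.val a y v := rfl

theorem PW_smooth (a : M) : ContDiffOn ℝ ∞ (PW w a) (chartAt (EE n) a).target :=
  contDiffOn_clm_apply.2 fun u => contDiffOn_clm_apply.2 fun v => w.smooth a u v

theorem PJ_smooth (a : M) : ContDiffOn ℝ ∞ (PJ J a) (chartAt (EE n) a).target :=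
  contDiffOn_clm_apply.2 fun u => J.smooth a u

theorem PW_alt (a : M) (y u v : EE n) : PW w a y u v = - PW w a y v u := by
  rw [PW_apply, PW_apply, coordForm_eq', coordForm_eq']
  exact w.alternating _ _ _

theorem PJ_sq {a : M} {y : EE n} (hy : y ∈ (chartAt (EE n) a).target) (v : EE n) :
    PJ J a y (PJ J a y v) = -v := by
  obtain ⟨h1, h2⟩ := J_props hy
  rw [PJ_apply, PJ_apply, coordEndo_eq', coordEndo_eq', h2, J.square, map_neg, h1]

theorem PWJ {a : M} {y : EE n} (hy : y ∈ (chartAt (EE n) a).target) (u v : EE n) :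
    PW w a y u (PJ J a y v) = w.val ((chartAt (EE n) a).symm y)
      (Jc a ((chartAt (EE n) a).symm y) y u)
      (J.val ((chartAt (EE n) a).symm y) (Jc a ((chartAt (EE n) a).symm y) y v)) := by
  obtain ⟨h1, h2⟩ := J_props hy
  rw [PW_apply, PJ_apply, coordEndo_eq', coordForm_eq', h2]

theorem PWJ2 {a : M} {y : EE n} (hy : y ∈ (chartAt (EE n) a).target) (hJ : IsCompatible w J)
    (u v : EE n) : PW w a y (PJ J a y u) (PJ J a y v) = PW w a y u v := by
  obtain ⟨h1, h2⟩ := J_props hy
  rw [PW_apply, PW_apply, PJ_apply, PJ_apply, coordEndo_eq', coordEndo_eq', coordForm_eq',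
    coordForm_eq', h2, h2, hJ.1]

theorem PWJ_pos {a : M} {y : EE n} (hy : y ∈ (chartAt (EE n) a).target) (hJ : IsCompatible w J)
    {v : EE n} (hv : v ≠ 0) : 0 < PW w a y v (PJ J a y v) := by
  rw [PWJ w J hy]
  apply hJ.2
  intro h
  obtain ⟨h1, h2⟩ := J_props hy
  have := h1 v
  rw [h, map_zero] at this
  exact hv this.symm

theorem PW_change {a b p : M} (ha : p ∈ (chartAt (EE n) a).source)
    (hb : p ∈ (chartAt (EE n) b).source) (u v : EE n) :
    PW w a (chartAt (EE n) a p) u v =
      PW w b (chartAt (EE n) b p) (Jc a b (chartAt (EE n) a p) u)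
        (Jc a b (chartAt (EE n) a p) v) := by
  rw [PW_apply, PW_apply, coordForm_eq', coordForm_eq', (chartAt (EE n) a).left_inv ha,
    (chartAt (EE n) b).left_inv hb]
  have h := Jc_comp (E := EE n) ha hb (mem_chart_source (EE n) p)
  have h1 : ∀ x, Jc b p (chartAt (EE n) b p) (Jc a b (chartAt (EE n) a p) x) =
      Jc a p (chartAt (EE n) a p) x :=
    fun x => congrArg (fun L : EE n →L[ℝ] EE n => L x) h
  rw [h1, h1]

theorem PJ_change {a b p : M} (ha : p ∈ (chartAt (EE n) a).source)
    (hb : p ∈ (chartAt (EE n) b).source) (v : EE n) :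
    Jc a b (chartAt (EE n) a p) (PJ J a (chartAt (EE n) a p) v) =
      PJ J b (chartAt (EE n) b p) (Jc a b (chartAt (EE n) a p) v) := by
  rw [PJ_apply, PJ_apply, coordEndo_eq', coordEndo_eq', (chartAt (EE n) a).left_inv ha,
    (chartAt (EE n) b).left_inv hb]
  have h := Jc_comp (E := EE n) ha hb (mem_chart_source (EE n) p)
  have h1 : ∀ x, Jc b p (chartAt (EE n) b p) (Jc a b (chartAt (EE n) a p) x) =
      Jc a p (chartAt (EE n) a p) x :=
    fun x => congrArg (fun L : EE n →L[ℝ] EE n => L x) h
  have h' := Jc_comp (E := EE n) (mem_chart_source (EE n) p) ha hb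
  have h2 : ∀ x, Jc a b (chartAt (EE n) a p) (Jc p a (chartAt (EE n) p p) x) =
      Jc p b (chartAt (EE n) p p) x :=
    fun x => congrArg (fun L : EE n →L[ℝ] EE n => L x) h'
  rw [h1, h2]

theorem PW_diffAt {a : M} {y : EE n} (hy : y ∈ (chartAt (EE n) a).target) :
    DifferentiableAt ℝ (PW w a) y :=
  ((PW_smooth w a).contDiffAt ((chartAt (EE n) a).open_target.mem_nhds hy)).differentiableAt
    (by norm_num)

theorem dPW_apply {a : M} {y : EE n} (hy : y ∈ (chartAt (EE n) a).target) (u v x : EE n) :
    dirD (fun z => coordForm w.val a z v x) y u = fderiv ℝ (PW w a) y u v x := by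
  have h := (PW_diffAt w hy).hasFDerivAt
  have h1 := (h.clm_apply (hasFDerivAt_const v y)).clm_apply (hasFDerivAt_const x y)
  have h2 : fderiv ℝ (fun z => PW w a z v x) y = _ := h1.fderiv
  show fderiv ℝ (fun z => PW w a z v x) y u = _
  rw [h2]
  simp

theorem PW_closed {a : M} {y : EE n} (hy : y ∈ (chartAt (EE n) a).target) (u v x : EE n) :
    fderiv ℝ (PW w a) y u v x + fderiv ℝ (PW w a) y v x u + fderiv ℝ (PW w a) y x u v = 0 := by
  have := w.closed a y hy u v x
  rw [dPW_apply w hy, dPW_apply w hy, dPW_apply w hy] at this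
  exact this

theorem PW_self (p : M) (u v : EE n) : PW w p (chartAt (EE n) p p) u v = w.val p u v := by
  rw [PW_apply, coordForm_eq', (chartAt (EE n) p).left_inv (mem_chart_source (EE n) p),
    Jc_self (mem_chart_source (EE n) p)]
  rfl

/-! ### the Riemannian structure -/

variable (hJ : IsCompatible w J)

theorem PG_eq {a : M} {y : EE n} (hy : y ∈ (chartAt (EE n) a).target) (u v : EE n) :
    PG (compatMetric w J hJ) a y u v = PW w a y u (PJ J a y v) := by
  rw [PWJ w J hy]
  rfl

theorem curv_dep (Γ : EE n → EE n →L[ℝ] EE n →L[ℝ] EE n) (y v : EE n) (k : ℝ) :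
    curv Γ y (k • v) v v = 0 := by
  simp only [curv, map_smul, smul_apply]
  rw [← smul_sub, add_sub_assoc, ← smul_sub, sub_self, sub_self, smul_zero, add_zero]

theorem riem_of (hK : NonposCurved (compatMetric w J hJ)) : Riem (toLC (compatMetric w J hJ)) where
  sym a y u v := PG_symm _ a y u v
  pos a y hy v hv := by
    show 0 < PG (compatMetric w J hJ) a y v v
    rw [PG_eq w J hJ hy]
    exact PWJ_pos w J hy hJ hv
  smG a := PG_smooth _ a
  npc a y hy u v := by
    show PG (compatMetric w J hJ) a y (curv (PΓ (compatMetric w J hJ) a) y u v v) u ≤ 0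
    by_cases hli : LinearIndependent ℝ ![u, v]
    · have h1 := hK a y hy u v hli
      rw [secCurv, riem_eq _ hy] at h1
      have hv : v ≠ 0 := by
        have := hli.ne_zero 1
        simpa using this
      have hpos : ∀ x : EE n, x ≠ 0 → 0 < PG (compatMetric w J hJ) a y x x := by
        intro x hx
        rw [PG_eq w J hJ hy]
        exact PWJ_pos w J hy hJ hx
      have hvv := hpos v hv
      set G := PG (compatMetric w J hJ) a y with hG
      have hz : G v v • u - G u v • v ≠ 0 := by
        intro h0
        have h2 := (LinearIndependent.pair_iff.1 hli) (G v v) (-(G u v)) (by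
          rw [neg_smul, ← sub_eq_add_neg]; exact h0)
        exact hvv.ne' h2.1
      have h3 := hpos _ hz
      have e : G (G v v • u - G u v • v) (G v v • u - G u v • v) =
          G v v * (G u u * G v v - G u v ^ 2) := by
        simp only [map_sub, map_smul, sub_apply, smul_apply, smul_eq_mul]
        rw [show G v u = G u v from PG_symm _ a y v u]
        ring
      rw [e] at h3
      have h4 : 0 < G u u * G v v - G u v ^ 2 := (mul_pos_iff_of_pos_left hvv).1 h3
      have h5 : G (curv (PΓ (compatMetric w J hJ) a) y u v v) u / (G u u * G v v - G u v ^ 2) ≤ 0 :=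
        h1
      rw [div_le_iff₀ h4, zero_mul] at h5
      exact h5
    · rw [LinearIndependent.pair_iff] at hli
      push Not at hli
      obtain ⟨s, t, hst, hst'⟩ := hli
      by_cases hs : s = 0
      · have ht : t ≠ 0 := hst' hs
        rw [hs, zero_smul, zero_add] at hst
        have hv : v = 0 := (smul_eq_zero.1 hst).resolve_left ht
        rw [hv]
        simp [curv]
      · have hu : u = (-(s⁻¹ * t)) • v := by
          have h1 : u = s⁻¹ • (s • u) := by rw [smul_smul, inv_mul_cancel₀ hs, one_smul]
          rw [h1, eq_neg_of_add_eq_zero_left hst, smul_neg, smul_smul, neg_smul]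
        rw [hu, curv_dep]
        simp

theorem gc_all (hc : GeodesicallyComplete (compatMetric w J hJ)) (p : M) (v : EE n) :
    GC (toLC (compatMetric w J hJ)) p v := by
  by_cases hv : v = 0
  · refine ⟨fun _ => (p, ContinuousLinearMap.toSpanSingleton ℝ v), rfl,
      fun t _ => ⟨continuousAt_const, ?_⟩⟩
    refine (hasDerivAt_const t _).congr_deriv ?_
    subst hv
    simp only [co, vel]
    refine Prod.ext ?_ ?_
    · simp
    · ext
      simp
  · obtain ⟨γ, h1, h2, h3⟩ := hc p v hv trivial
    exact gc_of_geodesic _ h1 h2 h3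

end Pool.Agent.W585
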