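import Mathlib
import Pool.Agent.W585.Pull

/-! The main theorem. -/

set_option autoImplicit false
set_option maxSynthPendingDepth 3
set_option linter.unusedSectionVars false
set_option linter.deprecated false
set_option linter.unusedSimpArgs false

open Set Filter Topology Metric
open scoped ContDiff Manifold

namespace Pool.Agent.W585

open Pool.Agent.H660R3 Pool.Agent.H660R4

variable {n : ℕ} {M : Type*} [TopologicalSpace M] [ChartedSpace (EE n) M]
  [IsManifold 𝓘(ℝ, EE n) ∞ M] [T2Space M] (w : SymplecticForm n M) (J : AlmostComplex n M)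
  (hJ : IsCompatible w J) {p : M} {V : EE n → ℝ → M × (ℝ →L[ℝ] EE n)}
  (hV0 : ∀ v, V v 0 = (p, ContinuousLinearMap.toSpanSingleton ℝ v))
  (hV : ∀ v, FG (toLC (compatMetric w J hJ)) (1 : ℝ) (V v) univ)
  (hR : Riem (toLC (compatMetric w J hJ))) (A : EE n ≃L[ℝ] EE n)

/-- the exponential map in a chart, in the linear coordinates `A` -/
noncomputable def pa (V : EE n → ℝ → M × (ℝ →L[ℝ] EE n)) (A : EE n ≃L[ℝ] EE n) (a : M)
    (x : EE n) : EE n := psi V a (A x)

/-- its differential -/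
noncomputable def Da (V : EE n → ℝ → M × (ℝ →L[ℝ] EE n)) (A : EE n ≃L[ℝ] EE n) (a : M)
    (x : EE n) : EE n →L[ℝ] EE n := (fderiv ℝ (psi V a) (A x)).comp (A : EE n →L[ℝ] EE n)

/-- the pulled back form -/
noncomputable def Om (V : EE n → ℝ → M × (ℝ →L[ℝ] EE n)) (A : EE n ≃L[ℝ] EE n) (x : EE n) :
    EE n →L[ℝ] EE n →L[ℝ] ℝ :=
  (PW w (expm V (A x)) (pa V A (expm V (A x)) x)).bilinearComp (Da V A (expm V (A x)) x)
    (Da V A (expm V (A x)) x)

/-- the pulled back almost complex structure -/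
noncomputable def JJ (V : EE n → ℝ → M × (ℝ →L[ℝ] EE n)) (A : EE n ≃L[ℝ] EE n) (x : EE n) :
    EE n →L[ℝ] EE n :=
  (ContinuousLinearMap.inverse (Da V A (expm V (A x)) x)).comp
    ((PJ J (expm V (A x)) (pa V A (expm V (A x)) x)).comp (Da V A (expm V (A x)) x))

variable {A}

include hV0 hV in
theorem pa_smooth {a : M} {x : EE n} (ha : expm V (A x) ∈ (chartAt (EE n) a).source) :
    ContDiffAt ℝ ∞ (pa V A a) x :=
  ContDiffAt.comp (g := psi V a) x (contDiffAt_psi _ hV0 hV ha) A.contDiff.contDiffAt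

include hV0 hV in
theorem pa_deriv {a : M} {x : EE n} (ha : expm V (A x) ∈ (chartAt (EE n) a).source) :
    HasFDerivAt (pa V A a) (Da V A a x) x :=
  HasFDerivAt.comp (g := psi V a) x
    ((contDiffAt_psi _ hV0 hV ha).differentiableAt (by norm_num)).hasFDerivAt A.hasFDerivAt

include hV0 hV in
theorem ev_src {a : M} {x : EE n} (ha : expm V (A x) ∈ (chartAt (EE n) a).source) :
    ∀ᶠ z in 𝓝 x, expm V (A z) ∈ (chartAt (EE n) a).source :=
  A.continuous.continuousAt.eventually (ev_source _ hV0 hV (A x) ha)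

include hV0 hV in
theorem Da_smooth {a : M} {x : EE n} (ha : expm V (A x) ∈ (chartAt (EE n) a).source) :
    ContDiffAt ℝ ∞ (Da V A a) x := by
  have h1 : ContDiffAt ℝ ∞ (fderiv ℝ (pa V A a)) x :=
    (pa_smooth w J hJ hV0 hV ha).fderiv_right (by norm_num)
  refine h1.congr_of_eventuallyEq ?_
  filter_upwards [ev_src w J hJ hV0 hV ha] with z hz
  exact (pa_deriv w J hJ hV0 hV hz).fderiv.symm

include hV0 hV in
theorem Da_symm {a : M} {x : EE n} (ha : expm V (A x) ∈ (chartAt (EE n) a).source) (u v : EE n) :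
    fderiv ℝ (Da V A a) x u v = fderiv ℝ (Da V A a) x v u := by
  have hev : Da V A a =ᶠ[𝓝 x] fderiv ℝ (pa V A a) := by
    filter_upwards [ev_src w J hJ hV0 hV ha] with z hz
    exact (pa_deriv w J hJ hV0 hV hz).fderiv.symm
  rw [hev.fderiv_eq]
  have := (pa_smooth w J hJ hV0 hV ha).isSymmSndFDerivAt (by
      simp only [minSmoothness_of_isRCLikeNormedField]
      exact WithTop.coe_le_coe.2 (le_top : (2:ℕ∞) ≤ ⊤))
  exact this.eq _ _

include hV0 hV in
theorem Da_change {a b : M} {x : EE n} (ha : expm V (A x) ∈ (chartAt (EE n) a).source)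
    (hb : expm V (A x) ∈ (chartAt (EE n) b).source) (u : EE n) :
    Da V A b x u = Jc a b (pa V A a x) (Da V A a x u) := by
  have h := psi_change _ hV0 hV ha hb
  simp only [Da, h]
  rfl

theorem pa_mem {a : M} {x : EE n} (ha : expm V (A x) ∈ (chartAt (EE n) a).source) :
    pa V A a x ∈ (chartAt (EE n) a).target := (chartAt (EE n) a).map_source ha

include hV0 hV in
theorem Om_chart {a : M} {x : EE n} (ha : expm V (A x) ∈ (chartAt (EE n) a).source) (u v : EE n) :
    Om w V A x u v = PW w a (pa V A a x) (Da V A a x u) (Da V A a x v) := by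
  have hb : expm V (A x) ∈ (chartAt (EE n) (expm V (A x))).source := mem_chart_source (EE n) _
  have h1 := PW_change w (a := a) (b := expm V (A x)) ha hb (Da V A a x u) (Da V A a x v)
  have h2 : ∀ u, Jc a (expm V (A x)) (chartAt (EE n) a (expm V (A x))) (Da V A a x u) =
      Da V A (expm V (A x)) x u := fun u => (Da_change w J hJ hV0 hV ha hb u).symm
  rw [h2, h2] at h1
  exact h1.symm

include hV0 hV hR in
theorem Da_inj {a : M} {x : EE n} (ha : expm V (A x) ∈ (chartAt (EE n) a).source) {u : EE n}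
    (h : Da V A a x u = 0) : u = 0 := by
  have h1 : A u = 0 := fderiv_psi_inj _ hV0 hV hR ha h
  exact (map_eq_zero_iff A A.injective).1 h1

include hV0 hV hR in
theorem exists_Da_equiv {a : M} {x : EE n} (ha : expm V (A x) ∈ (chartAt (EE n) a).source) :
    ∃ e : EE n ≃L[ℝ] EE n, (e : EE n →L[ℝ] EE n) = Da V A a x := by
  obtain ⟨e, he⟩ := exists_psi_equiv _ hV0 hV hR ha
  exact ⟨A.trans e, by rw [Da, ← he]; rfl⟩

include hV0 hV hR in
theorem Da_inverse {a : M} {x : EE n} (ha : expm V (A x) ∈ (chartAt (EE n) a).source) (u : EE n) :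
    Da V A a x (ContinuousLinearMap.inverse (Da V A a x) u) = u := by
  obtain ⟨e, he⟩ := exists_Da_equiv w J hJ hV0 hV hR ha
  rw [← he, ContinuousLinearMap.inverse_equiv]
  simp

include hV0 hV hR in
theorem JJ_spec {a : M} {x : EE n} (ha : expm V (A x) ∈ (chartAt (EE n) a).source) (u : EE n) :
    Da V A a x (JJ J V A x u) = PJ J a (pa V A a x) (Da V A a x u) := by
  have hb : expm V (A x) ∈ (chartAt (EE n) (expm V (A x))).source := mem_chart_source (EE n) _
  have h0 : Da V A (expm V (A x)) x (JJ J V A x u) =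
      PJ J (expm V (A x)) (pa V A (expm V (A x)) x) (Da V A (expm V (A x)) x u) := by
    rw [JJ]
    exact Da_inverse w J hJ hV0 hV hR hb _
  rw [Da_change w J hJ hV0 hV hb ha, h0, Da_change w J hJ hV0 hV hb ha u]
  exact PJ_change J hb ha _

include hV0 hV hR in
theorem JJ_chart {a : M} {x : EE n} (ha : expm V (A x) ∈ (chartAt (EE n) a).source) (u : EE n) :
    JJ J V A x u = ContinuousLinearMap.inverse (Da V A a x)
      (PJ J a (pa V A a x) (Da V A a x u)) := by
  rw [← sub_eq_zero]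
  apply Da_inj w J hJ hV0 hV hR ha
  rw [map_sub, JJ_spec w J hJ hV0 hV hR ha, Da_inverse w J hJ hV0 hV hR ha, sub_self]

include hV0 hV in
theorem Om_smooth : ContDiff ℝ ∞ (Om w V A) := by
  refine contDiff_clm_apply_iff.2 fun u => contDiff_clm_apply_iff.2 fun v => ?_
  rw [contDiff_iff_contDiffAt]
  intro x
  set a := expm V (A x) with ha
  have hx : expm V (A x) ∈ (chartAt (EE n) a).source := mem_chart_source (EE n) _
  have h1 := pa_smooth w J hJ hV0 hV hx
  have h2 := Da_smooth w J hJ hV0 hV hx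
  have h3 : ContDiffAt ℝ ∞ (PW w a) (pa V A a x) :=
    (PW_smooth w a).contDiffAt ((chartAt (EE n) a).open_target.mem_nhds (pa_mem hx))
  have h4 : ContDiffAt ℝ ∞ (fun z => PW w a (pa V A a z)) x :=
    ContDiffAt.comp (g := PW w a) x h3 h1
  have h5 := (h4.clm_apply (h2.clm_apply (contDiffAt_const (c := u)))).clm_apply
    (h2.clm_apply (contDiffAt_const (c := v)))
  refine h5.congr_of_eventuallyEq ?_
  filter_upwards [ev_src w J hJ hV0 hV hx] with z hz
  exact Om_chart w J hJ hV0 hV hz u v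

include hV0 hV hR in
theorem JJ_smooth : ContDiff ℝ ∞ (JJ J V A) := by
  have hcomp : CompleteSpace (EE n) := inferInstance
  refine contDiff_clm_apply_iff.2 fun u => ?_
  rw [contDiff_iff_contDiffAt]
  intro x
  set a := expm V (A x) with ha
  have hx : expm V (A x) ∈ (chartAt (EE n) a).source := mem_chart_source (EE n) _
  have h1 := pa_smooth w J hJ hV0 hV hx
  have h2 := Da_smooth w J hJ hV0 hV hx
  have h3 : ContDiffAt ℝ ∞ (PJ J a) (pa V A a x) :=
    (PJ_smooth J a).contDiffAt ((chartAt (EE n) a).open_target.mem_nhds (pa_mem hx))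
  have h4 : ContDiffAt ℝ ∞ (fun z => PJ J a (pa V A a z)) x :=
    ContDiffAt.comp (g := PJ J a) x h3 h1
  obtain ⟨e, he⟩ := exists_Da_equiv w J hJ hV0 hV hR hx
  have h5 : ContDiffAt ℝ ∞ ContinuousLinearMap.inverse (Da V A a x) := by
    rw [← he]
    exact contDiffAt_map_inverse e
  have h6 : ContDiffAt ℝ ∞ (fun z => ContinuousLinearMap.inverse (Da V A a z)) x :=
    ContDiffAt.comp (g := ContinuousLinearMap.inverse) x h5 h2
  have h7 := h6.clm_apply (h4.clm_apply (h2.clm_apply (contDiffAt_const (c := u))))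
  refine h7.congr_of_eventuallyEq ?_
  filter_upwards [ev_src w J hJ hV0 hV hx] with z hz
  exact JJ_chart w J hJ hV0 hV hR hz u

include hV0 hV in
theorem Om_deriv {a : M} {x : EE n} (ha : expm V (A x) ∈ (chartAt (EE n) a).source) (u v x' : EE n) :
    fderiv ℝ (Om w V A) x u v x' =
      fderiv ℝ (PW w a) (pa V A a x) (Da V A a x u) (Da V A a x v) (Da V A a x x') +
      PW w a (pa V A a x) (fderiv ℝ (Da V A a) x u v) (Da V A a x x') +
      PW w a (pa V A a x) (Da V A a x v) (fderiv ℝ (Da V A a) x u x') := by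
  have h0 := ((Om_smooth w J hJ hV0 hV (A := A)).differentiable (by simp) x).hasFDerivAt
  have h1 : HasFDerivAt (fun z => Om w V A z v x') _ x :=
    (h0.clm_apply (hasFDerivAt_const v x)).clm_apply (hasFDerivAt_const x' x)
  have hD := ((Da_smooth w J hJ hV0 hV ha).differentiableAt (by norm_num)).hasFDerivAt
  have hW : HasFDerivAt (fun z => PW w a (pa V A a z)) _ x :=
    HasFDerivAt.comp (g := PW w a) x (PW_diffAt w (pa_mem ha)).hasFDerivAt
      (pa_deriv w J hJ hV0 hV ha)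
  have h2 := (hW.clm_apply (hD.clm_apply (hasFDerivAt_const v x))).clm_apply
    (hD.clm_apply (hasFDerivAt_const x' x))
  have hev : (fun z => Om w V A z v x') =ᶠ[𝓝 x] fun z =>
      PW w a (pa V A a z) (Da V A a z v) (Da V A a z x') := by
    filter_upwards [ev_src w J hJ hV0 hV ha] with z hz
    exact Om_chart w J hJ hV0 hV hz v x'
  have h3 := (h1.congr_of_eventuallyEq hev.symm).unique h2
  have h4 := congrArg (fun L : EE n →L[ℝ] ℝ => L u) h3
  simp at h4
  rw [h4]
  ring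

include hV0 hV in
theorem Om_closed (x u v x' : EE n) :
    fderiv ℝ (Om w V A) x u v x' + fderiv ℝ (Om w V A) x v x' u +
      fderiv ℝ (Om w V A) x x' u v = 0 := by
  set a := expm V (A x) with ha
  have hx : expm V (A x) ∈ (chartAt (EE n) a).source := mem_chart_source (EE n) _
  rw [Om_deriv w J hJ hV0 hV hx, Om_deriv w J hJ hV0 hV hx, Om_deriv w J hJ hV0 hV hx]
  have h1 := PW_closed w (pa_mem hx) (Da V A a x u) (Da V A a x v) (Da V A a x x')
  have s1 := Da_symm w J hJ hV0 hV hx v u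
  have s2 := Da_symm w J hJ hV0 hV hx x' u
  have s3 := Da_symm w J hJ hV0 hV hx x' v
  rw [s1, s2, s3]
  have a1 := PW_alt w a (pa V A a x) (Da V A a x x') (fderiv ℝ (Da V A a) x u v)
  have a2 := PW_alt w a (pa V A a x) (Da V A a x v) (fderiv ℝ (Da V A a) x u x')
  have a3 := PW_alt w a (pa V A a x) (Da V A a x u) (fderiv ℝ (Da V A a) x v x')
  linarith

/-- the almost Kähler structure in exponential coordinates -/
noncomputable def kah
    (hA : ∀ u v, (toLC (compatMetric w J hJ)).g p (A u) (A v) = inner ℝ u v) : Kah (EE n) where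
  Ω := Om w V A
  J := JJ J V A
  hΩ := Om_smooth w J hJ hV0 hV
  hJ := JJ_smooth w J hJ hV0 hV hR
  alt x u v := by
    have hx : expm V (A x) ∈ (chartAt (EE n) (expm V (A x))).source := mem_chart_source (EE n) _
    rw [Om_chart w J hJ hV0 hV hx, Om_chart w J hJ hV0 hV hx]
    exact PW_alt w _ _ _ _
  closed := Om_closed w J hJ hV0 hV
  sq x v := by
    have hx : expm V (A x) ∈ (chartAt (EE n) (expm V (A x))).source := mem_chart_source (EE n) _
    rw [← sub_eq_zero]
    apply Da_inj w J hJ hV0 hV hR hx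
    rw [map_sub, JJ_spec w J hJ hV0 hV hR hx, JJ_spec w J hJ hV0 hV hR hx, PJ_sq J (pa_mem hx),
      map_neg, sub_self]
  comp x u v := by
    have hx : expm V (A x) ∈ (chartAt (EE n) (expm V (A x))).source := mem_chart_source (EE n) _
    rw [Om_chart w J hJ hV0 hV hx, Om_chart w J hJ hV0 hV hx, JJ_spec w J hJ hV0 hV hR hx,
      JJ_spec w J hJ hV0 hV hR hx, PWJ2 w J (pa_mem hx) hJ]
  pos x v hv := by
    have hx : expm V (A x) ∈ (chartAt (EE n) (expm V (A x))).source := mem_chart_source (EE n) _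
    rw [Om_chart w J hJ hV0 hV hx, JJ_spec w J hJ hV0 hV hR hx]
    apply PWJ_pos w J (pa_mem hx) hJ
    intro h
    exact hv (Da_inj w J hJ hV0 hV hR hx h)
  gauss x v := by
    have hx : expm V (A x) ∈ (chartAt (EE n) (expm V (A x))).source := mem_chart_source (EE n) _
    rw [Om_chart w J hJ hV0 hV hx, JJ_spec w J hJ hV0 hV hR hx, ← PG_eq w J hJ (pa_mem hx),
      ← hA x v, ← gauss_lemma _ hV0 hV hR]
    rfl
  mono x v := by
    have e : (fun y => Om w V A y v (JJ J V A y v)) = fun y =>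
        GG (toLC (compatMetric w J hJ)) V (A y) (A v) (A v) := by
      funext y
      have hy : expm V (A y) ∈ (chartAt (EE n) (expm V (A y))).source := mem_chart_source (EE n) _
      rw [Om_chart w J hJ hV0 hV hy, JJ_spec w J hJ hV0 hV hR hy, ← PG_eq w J hJ (pa_mem hy)]
      rfl
    rw [e]
    have h1 : HasFDerivAt (fun y => GG (toLC (compatMetric w J hJ)) V (A y) (A v) (A v)) _ x :=
      HasFDerivAt.comp (g := fun z => GG (toLC (compatMetric w J hJ)) V z (A v) (A v)) x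
        ((contDiff_GG _ hV0 hV hR (A v) (A v)).differentiable (by simp) (A x)).hasFDerivAt
        A.hasFDerivAt
    rw [h1.fderiv]
    exact GG_mono _ hV0 hV hR (A x) (A v)

include hV0 hV in
theorem Om_zero (u v : EE n) : Om w V A 0 u v = w.val p (A u) (A v) := by
  have h0 : expm V (A 0) = p := by rw [map_zero]; exact expm_zero' _ hV0 hV
  have hx : expm V (A 0) ∈ (chartAt (EE n) p).source := by
    rw [h0]; exact mem_chart_source (EE n) p
  rw [Om_chart w J hJ hV0 hV hx]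
  have h1 : pa V A p 0 = chartAt (EE n) p p := by
    rw [pa, psi, h0]
  have h2 : ∀ u, Da V A p 0 u = A u := by
    intro u
    rw [Da, map_zero]
    exact fderiv_psi_zero _ hV0 hV (A u)
  rw [h1, h2, h2, PW_self]

theorem mfderiv_eq {Φ : EE n → M} (hΦ : ContMDiff 𝓘(ℝ, EE n) 𝓘(ℝ, EE n) ∞ Φ) (x : EE n) :
    mfderiv 𝓘(ℝ, EE n) 𝓘(ℝ, EE n) Φ x =
      fderiv ℝ (fun z => chartAt (EE n) (Φ x) (Φ z)) x := by
  have h1 : MDifferentiableAt 𝓘(ℝ, EE n) 𝓘(ℝ, EE n) Φ x :=
    (hΦ x).mdifferentiableAt (by simp)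
  rw [mfderiv, if_pos h1]
  simp only [writtenInExtChartAt, mfld_simps, fderivWithin_univ]
  rfl

include hV0 hV hR in
/-- **Main theorem** for given exponential map. -/
theorem main_aux [SimplyConnectedSpace M]
    (hA : ∀ u v, (toLC (compatMetric w J hJ)).g p (A u) (A v) = inner ℝ u v)
    (hA' : ∀ u v, w.val p (A u) (A v) = stdForm n u v) :
    ∃ φ : Diffeomorph 𝓘(ℝ, EE n) 𝓘(ℝ, EE n) M (EE n) ∞, ∀ q u v,
      stdForm n (mfderiv 𝓘(ℝ, EE n) 𝓘(ℝ, EE n) φ q u) (mfderiv 𝓘(ℝ, EE n) 𝓘(ℝ, EE n) φ q v) =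
        w.val q u v := by
  obtain ⟨F, G, hF, hG, hGF, hFG, hsymp⟩ := (kah w J hJ hV0 hV hR hA).partA
  have hbij := expm_bijective _ hV0 hV hR
  set L : M → EE n := fun q => (Equiv.ofBijective _ hbij).symm q with hL
  have hL1 : ∀ x, L (expm V x) = x := fun x => (Equiv.ofBijective _ hbij).symm_apply_apply x
  have hL2 : ∀ q, expm V (L q) = q := fun q => (Equiv.ofBijective _ hbij).apply_symm_apply q
  have hLs := expm_inv_smooth _ hV0 hV hR hL1
  set Φ : EE n → M := fun x => expm V (A (F x)) with hΦ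
  have hΦs : ContMDiff 𝓘(ℝ, EE n) 𝓘(ℝ, EE n) ∞ Φ :=
    (contMDiff_expm _ hV0 hV).comp (A.contDiff.comp hF).contMDiff
  have hinvs : ContMDiff 𝓘(ℝ, EE n) 𝓘(ℝ, EE n) ∞ (fun q => G (A.symm (L q))) :=
    ContMDiff.comp (g := fun z => G (A.symm z)) (hG.comp A.symm.contDiff).contMDiff hLs
  set φ : Diffeomorph 𝓘(ℝ, EE n) 𝓘(ℝ, EE n) M (EE n) ∞ :=
    { toFun := fun q => G (A.symm (L q))
      invFun := Φ
      left_inv := fun q => by simp only [hΦ]; rw [hFG, A.apply_symm_apply, hL2]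
      right_inv := fun x => by simp only [hΦ]; rw [hL1, A.symm_apply_apply, hGF]
      contMDiff_toFun := hinvs
      contMDiff_invFun := hΦs } with hφ
  have hφ1 : ∀ q, Φ (φ q) = q := fun q => φ.left_inv q
  -- `Φ` is symplectic
  have hΦsymp : ∀ x a b, w.val (Φ x) (mfderiv 𝓘(ℝ, EE n) 𝓘(ℝ, EE n) Φ x a)
      (mfderiv 𝓘(ℝ, EE n) 𝓘(ℝ, EE n) Φ x b) = stdForm n a b := by
    intro x a b
    have hx : expm V (A (F x)) ∈ (chartAt (EE n) (Φ x)).source := mem_chart_source (EE n) _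
    have h1 : ∀ a, mfderiv 𝓘(ℝ, EE n) 𝓘(ℝ, EE n) Φ x a =
        Da V A (Φ x) (F x) (fderiv ℝ F x a) := by
      intro a
      rw [mfderiv_eq hΦs]
      have h2 : HasFDerivAt (fun z => chartAt (EE n) (Φ x) (Φ z)) _ x :=
        HasFDerivAt.comp (g := pa V A (Φ x)) x (pa_deriv w J hJ hV0 hV hx)
          (hF.differentiable (by simp) x).hasFDerivAt
      rw [h2.fderiv]
      rfl
    rw [h1, h1, ← PW_self w (Φ x)]
    have h3 := hsymp x a b
    have h4 : (kah w J hJ hV0 hV hR hA).Ω = Om w V A := rfl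
    rw [h4, Om_chart w J hJ hV0 hV hx, Om_zero w J hJ hV0 hV, hA'] at h3
    exact h3
  refine ⟨φ, fun q u v => ?_⟩
  have hd1 : MDifferentiableAt 𝓘(ℝ, EE n) 𝓘(ℝ, EE n) φ q :=
    (φ.contMDiff q).mdifferentiableAt (by simp)
  have hd2 : MDifferentiableAt 𝓘(ℝ, EE n) 𝓘(ℝ, EE n) Φ (φ q) :=
    (hΦs _).mdifferentiableAt (by simp)
  have hcomp : ∀ u, mfderiv 𝓘(ℝ, EE n) 𝓘(ℝ, EE n) Φ (φ q)
      (mfderiv 𝓘(ℝ, EE n) 𝓘(ℝ, EE n) φ q u) = u := by
    intro u
    have h5 := mfderiv_comp q hd2 hd1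
    have h6 : Φ ∘ φ = id := funext hφ1
    rw [h6, mfderiv_id] at h5
    exact (congrArg (fun L : EE n →L[ℝ] EE n => L u) h5).symm
  have h7 := hΦsymp (φ q) (mfderiv 𝓘(ℝ, EE n) 𝓘(ℝ, EE n) φ q u)
    (mfderiv 𝓘(ℝ, EE n) 𝓘(ℝ, EE n) φ q v)
  rw [hcomp, hcomp, hφ1] at h7
  exact h7.symm

/-- **Main theorem.** -/
theorem main [SimplyConnectedSpace M]
    (hc : GeodesicallyComplete (compatMetric w J hJ)) (hK : NonposCurved (compatMetric w J hJ)) :
    ∃ φ : Diffeomorph 𝓘(ℝ, EE n) 𝓘(ℝ, EE n) M (EE n) ∞, ∀ q u v,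
      stdForm n (mfderiv 𝓘(ℝ, EE n) 𝓘(ℝ, EE n) φ q u) (mfderiv 𝓘(ℝ, EE n) 𝓘(ℝ, EE n) φ q v) =
        w.val q u v := by
  obtain ⟨p⟩ : Nonempty M := inferInstance
  have hR := riem_of w J hJ hK
  choose V hV0 hV using gc_all w J hJ hc p
  have hy := mem_chart_target (EE n) p
  obtain ⟨A, hA1, hA2⟩ := exists_unitary (PW w p (chartAt (EE n) p p))
    (PJ J p (chartAt (EE n) p p)) (PW_alt w p _) (PJ_sq J hy) (PWJ2 w J hy hJ)
    (fun v hv => PWJ_pos w J hy hJ hv)
  refine main_aux w J hJ hV0 hV hR (A := A) ?_ ?_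
  · intro u v
    rw [← hA1 u v, ← PG_eq w J hJ hy]
    rfl
  · intro u v
    rw [← PW_self w p, hA2]

theorem differential_eq {φ : M → EE n} (hφ : ContMDiff 𝓘(ℝ, EE n) 𝓘(ℝ, EE n) ∞ φ) (q : M)
    (u : EE n) : differential φ q u = mfderiv 𝓘(ℝ, EE n) 𝓘(ℝ, EE n) φ q u := by
  have h1 : MDifferentiableAt 𝓘(ℝ, EE n) 𝓘(ℝ, EE n) φ q :=
    (hφ q).mdifferentiableAt (by simp)
  rw [mfderiv, if_pos h1]
  simp only [writtenInExtChartAt, mfld_simps, fderivWithin_univ]
  rfl

/-- **Main theorem**, final form. -/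
theorem main' [SimplyConnectedSpace M]
    (hc : GeodesicallyComplete (compatMetric w J hJ)) (hK : NonposCurved (compatMetric w J hJ)) :
    ∃ φ : M → EE n, IsSymplectomorphism w φ := by
  obtain ⟨φ, hφ⟩ := main w J hJ hc hK
  refine ⟨φ, ⟨φ.contMDiff, φ.symm, φ.symm.contMDiff, fun p => φ.symm_apply_apply p,
    fun x => φ.apply_symm_apply x⟩, fun q u v => ?_⟩
  rw [differential_eq φ.contMDiff, differential_eq φ.contMDiff]
  exact hφ q u v

end Pool.Agent.W585
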