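import Pool.Agent.W982.TA.Grid

/-! Gluing of tiles: no crossings. -/

set_option autoImplicit false

namespace Pool.Agent.W982.TA

namespace H585F4

theorem dt_tr (o a b c : Pt) : dt (a + o) (b + o) (c + o) = dt a b c := by
  simp only [dt, Prod.fst_add, Prod.snd_add]; ring

theorem pc_tr (o a b c d : Pt) : PCross (a + o) (b + o) (c + o) (d + o) ↔ PCross a b c d := by
  simp only [PCross, dt_tr]

theorem pc_symm {a b c d : Pt} (h : PCross a b c d) : PCross c d a b := ⟨h.2, h.1⟩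

theorem sepX (h3 : TaskF3) (q v q' v' : Pt) (h : q.1 + |v.1| ≤ q'.1 - |v'.1|) :
    ¬ PCross (q - v) (q + v) (q' - v') (q' + v') := by
  have h1 := neg_abs_le v.1
  have h2 := le_abs_self v.1
  have h4 := neg_abs_le v'.1
  have h5 := le_abs_self v'.1
  apply (h3 _ _ _ _ (q.1 + |v.1|)).1
  · rw [Prod.fst_sub]; omega
  · rw [Prod.fst_add]; omega
  · rw [Prod.fst_sub]; omega
  · rw [Prod.fst_add]; omega

theorem sepY (h3 : TaskF3) (q v q' v' : Pt) (h : q.2 + |v.2| ≤ q'.2 - |v'.2|) :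
    ¬ PCross (q - v) (q + v) (q' - v') (q' + v') := by
  have h1 := neg_abs_le v.2
  have h2 := le_abs_self v.2
  have h4 := neg_abs_le v'.2
  have h5 := le_abs_self v'.2
  apply (h3 _ _ _ _ (q.2 + |v.2|)).2
  · rw [Prod.snd_sub]; omega
  · rw [Prod.snd_add]; omega
  · rw [Prod.snd_sub]; omega
  · rw [Prod.snd_add]; omega

theorem par (q q' v : Pt) : ¬ PCross (q - v) (q + v) (q' - v) (q' + v) := by
  intro h
  have h1 := h.1
  have e : dt (q - v) (q + v) (q' + v) = dt (q - v) (q + v) (q' - v) := by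
    simp only [dt, Prod.fst_add, Prod.snd_add, Prod.fst_sub, Prod.snd_sub]; ring
  rw [e] at h1
  exact absurd h1 (not_lt.2 (mul_self_nonneg _))

theorem rowR {t y : ℕ} (h : hrR t y = true) :
    y = 19 ∨ y = 20 ∨ y = 23 ∨ y = 24 ∨ y = 41 ∨ y = 42 := by
  unfold hrR at h
  split_ifs at h <;> simp only [decide_eq_true_eq] at h <;> omega

theorem rowL {t y : ℕ} (h : hrL t y = true) :
    y = 19 ∨ y = 20 ∨ y = 23 ∨ y = 24 ∨ y = 41 ∨ y = 42 := by
  unfold hrL at h
  split_ifs at h <;> simp only [decide_eq_true_eq] at h <;> omega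

theorem colT {t x : ℕ} (h : vcT t x = true) :
    x = 4 ∨ x = 5 ∨ x = 15 ∨ x = 16 ∨ x = 25 ∨ x = 26 := by
  unfold vcT at h
  split_ifs at h <;> simp only [decide_eq_true_eq] at h <;> omega

theorem colB {t x : ℕ} (h : vcB t x = true) :
    x = 4 ∨ x = 5 ∨ x = 15 ∨ x = 16 ∨ x = 25 ∨ x = 26 := by
  unfold vcB at h
  split_ifs at h <;> simp only [decide_eq_true_eq] at h <;> omega

theorem hs_eq {t s y y' : ℕ} (h : 41 ≤ y ↔ 41 ≤ y') : hs t s y = hs t s y' := by
  unfold hs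
  simp only [h]

theorem vt_eq {t s x x' : ℕ} (h : 25 ≤ x ↔ 25 ≤ x') : vt t s x = vt t s x' := by
  unfold vt
  simp only [h]

theorem abs1 (b : Bool) : |(if b = true then (1 : ℤ) else -1)| = 1 := by cases b <;> simp

theorem abs2 (b : Bool) : |(if b = true then (2 : ℤ) else -2)| = 2 := by cases b <;> simp

structure Cell (t s x y : ℕ) (v : Pt) : Prop where
  r : (x : ℤ) + |v.1| ≤ 63 ∨ (x = 63 ∧ hrR t y = true ∧ v = (if hs t s y then 1 else -1, 2))
  l : 0 ≤ (x : ℤ) - |v.1| ∨ (x = 0 ∧ hrL t y = true ∧ v = (if hs t s y then 1 else -1, 2))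
  u : (y : ℤ) + |v.2| ≤ 61 ∨ (y = 61 ∧ vcT t x = true ∧ v = (if vt t s x then 2 else -2, 1))
  b : 0 ≤ (y : ℤ) - |v.2| ∨ (y = 0 ∧ vcB t x = true ∧ v = (if vb t s x then 2 else -2, 1))

theorem cell {t s x y : ℕ} {v : Pt}
    (h : InBox x y v ∨ HPort t s x y v ∨ VPort t s x y v) : Cell t s x y v := by
  rcases h with ⟨h1, h2, h3, h4⟩ | ⟨⟨rfl, h1⟩ | ⟨rfl, h1⟩, h2⟩ | ⟨rfl, h1, h2⟩ | ⟨rfl, h1, h2⟩
  · exact ⟨Or.inl h2, Or.inl h1, Or.inl h4, Or.inl h3⟩
  · have ha : |v.1| = 1 := by rw [h2]; exact abs1 _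
    have hb : |v.2| = 2 := by rw [h2]; rfl
    have := rowL h1
    exact ⟨Or.inl (by rw [ha]; norm_num), Or.inr ⟨rfl, h1, h2⟩, Or.inl (by omega),
      Or.inl (by omega)⟩
  · have ha : |v.1| = 1 := by rw [h2]; exact abs1 _
    have hb : |v.2| = 2 := by rw [h2]; rfl
    have := rowR h1
    exact ⟨Or.inr ⟨rfl, h1, h2⟩, Or.inl (by rw [ha]; norm_num), Or.inl (by omega),
      Or.inl (by omega)⟩
  · have ha : |v.1| = 2 := by rw [h2]; exact abs2 _
    have hb : |v.2| = 1 := by rw [h2]; rfl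
    have := colT h1
    exact ⟨Or.inl (by omega), Or.inl (by omega), Or.inr ⟨rfl, h1, h2⟩,
      Or.inl (by rw [hb]; norm_num)⟩
  · have ha : |v.1| = 2 := by rw [h2]; exact abs2 _
    have hb : |v.2| = 1 := by rw [h2]; rfl
    have := colB h1
    exact ⟨Or.inl (by omega), Or.inl (by omega), Or.inl (by rw [hb]; norm_num),
      Or.inr ⟨rfl, h1, h2⟩⟩

section

variable {R C : ℕ} {ty st : ℕ → ℕ → ℕ} {P : ℕ → List ℕ} {f : ℕ → ℕ → ℕ → ℕ → Pt} {M : Finset Pt}
  {e : Pt → Pt}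

/-- different columns of tiles -/
theorem horiz (h3 : TaskF3) (hG : GridOK R C ty st P f M e) {i j i' j' x y x' y' : ℕ}
    (hi : i < R) (hj' : j' < C) (hjj : j < j') (v v' : Pt)
    (hv : Cell (ty i j) (st i j) x y v) (hv' : Cell (ty i' j') (st i' j') x' y' v') :
    ¬ PCross (((64 * (j : ℤ) + x, 62 * (i : ℤ) + y) : Pt) - v)
      (((64 * (j : ℤ) + x, 62 * (i : ℤ) + y) : Pt) + v)
      (((64 * (j' : ℤ) + x', 62 * (i' : ℤ) + y') : Pt) - v')
      (((64 * (j' : ℤ) + x', 62 * (i' : ℤ) + y') : Pt) + v') := by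
  by_cases hsep : 64 * (j : ℤ) + x + |v.1| ≤ 64 * (j' : ℤ) + x' - |v'.1|
  · exact sepX h3 _ _ _ _ hsep
  rcases hv.r with h1 | ⟨hx, h1, hv1⟩
  · rcases hv'.l with h2 | ⟨hx', h2, hv1'⟩
    · exfalso; apply hsep; omega
    · have ha : |v'.1| = 1 := by rw [hv1']; exact abs1 _
      exfalso; apply hsep; omega
  have ha : |v.1| = 1 := by rw [hv1]; exact abs1 _
  rcases hv'.l with h2 | ⟨hx', h2, hv1'⟩
  · exfalso; apply hsep; omega
  have ha' : |v'.1| = 1 := by rw [hv1']; exact abs1 _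
  have hb : |v.2| = 2 := by rw [hv1]; rfl
  have hb' : |v'.2| = 2 := by rw [hv1']; rfl
  have hj1 : j' = j + 1 := by omega
  subst hj1
  have hy := rowR h1
  have hy' := rowL h2
  by_cases hY : 62 * (i : ℤ) + y + |v.2| ≤ 62 * (i' : ℤ) + y' - |v'.2|
  · exact sepY h3 _ _ _ _ hY
  by_cases hY' : 62 * (i' : ℤ) + y' + |v'.2| ≤ 62 * (i : ℤ) + y - |v.2|
  · intro hc
    exact sepY h3 _ _ _ _ hY' (pc_symm hc)
  have hii : i' = i := by omega
  subst hii
  have hyy : 41 ≤ y ↔ 41 ≤ y' := by omega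
  have hc := hG.hc i' hi j hj' y'
  have h5 : hrR (ty i' j) y' = true := by rw [hc.1]; exact h2
  have h6 := hc.2 h5
  have hvv : v' = v := by
    rw [hv1', hv1, ← h6, hs_eq hyy]
  rw [hvv]
  exact par _ _ _

/-- the same column of tiles -/
theorem vert (h3 : TaskF3) (hG : GridOK R C ty st P f M e) {i j i' x y x' y' : ℕ}
    (hi' : i' < R) (hj : j < C) (hii : i < i') (v v' : Pt)
    (hv : Cell (ty i j) (st i j) x y v) (hv' : Cell (ty i' j) (st i' j) x' y' v') :
    ¬ PCross (((64 * (j : ℤ) + x, 62 * (i : ℤ) + y) : Pt) - v)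
      (((64 * (j : ℤ) + x, 62 * (i : ℤ) + y) : Pt) + v)
      (((64 * (j : ℤ) + x', 62 * (i' : ℤ) + y') : Pt) - v')
      (((64 * (j : ℤ) + x', 62 * (i' : ℤ) + y') : Pt) + v') := by
  by_cases hsep : 62 * (i : ℤ) + y + |v.2| ≤ 62 * (i' : ℤ) + y' - |v'.2|
  · exact sepY h3 _ _ _ _ hsep
  rcases hv.u with h1 | ⟨hx, h1, hv1⟩
  · rcases hv'.b with h2 | ⟨hx', h2, hv1'⟩
    · exfalso; apply hsep; omega
    · have ha : |v'.2| = 1 := by rw [hv1']; rfl
      exfalso; apply hsep; omega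
  have ha : |v.2| = 1 := by rw [hv1]; rfl
  rcases hv'.b with h2 | ⟨hx', h2, hv1'⟩
  · exfalso; apply hsep; omega
  have ha' : |v'.2| = 1 := by rw [hv1']; rfl
  have hb : |v.1| = 2 := by rw [hv1]; exact abs2 _
  have hb' : |v'.1| = 2 := by rw [hv1']; exact abs2 _
  have hi1 : i' = i + 1 := by omega
  subst hi1
  have hy := colT h1
  have hy' := colB h2
  by_cases hY : 64 * (j : ℤ) + x + |v.1| ≤ 64 * (j : ℤ) + x' - |v'.1|
  · exact sepX h3 _ _ _ _ hY
  by_cases hY' : 64 * (j : ℤ) + x' + |v'.1| ≤ 64 * (j : ℤ) + x - |v.1|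
  · intro hc
    exact sepX h3 _ _ _ _ hY' (pc_symm hc)
  have hyy : 25 ≤ x ↔ 25 ≤ x' := by omega
  have hc := hG.vc i hi' j hj x'
  have h5 : vcT (ty i j) x' = true := by rw [hc.1]; exact h2
  have h6 := hc.2 h5
  have hvv : v' = v := by
    rw [hv1', hv1, ← h6, vt_eq hyy]
  rw [hvv]
  exact par _ _ _

end

end H585F4

open H585F4 in
theorem f4 (h3 : TaskF3) : TaskF4 := by
  intro R C ty st P f M e hG q hq q' hq' hne
  obtain ⟨i, hi, j, hj, x, hx, y, hy, hm, rfl⟩ := (hG.mem q).1 hq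
  obtain ⟨i', hi', j', hj', x', hx', y', hy', hm', rfl⟩ := (hG.mem q').1 hq'
  rw [hG.val i hi j hj x hx y hy, hG.val i' hi' j' hj' x' hx' y' hy']
  have hc := cell ((hG.loc i hi j hj).edge x y hm)
  have hc' := cell ((hG.loc i' hi' j' hj').edge x' y' hm')
  rcases lt_trichotomy j j' with hjj | hjj | hjj
  · exact horiz h3 hG hi hj' hjj _ _ hc hc'
  · subst hjj
    rcases lt_trichotomy i i' with hii | hii | hii
    · exact vert h3 hG hi' hj hii _ _ hc hc'
    · subst hii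
      have hxy : (x, y) ≠ (x', y') := by
        intro h
        rw [Prod.mk.injEq] at h
        apply hne
        rw [h.1, h.2]
      have hd := (hG.loc i hi j hj).disj x y x' y' hm hm' hxy
      intro hcr
      apply hd
      rw [← pc_tr (64 * (j : ℤ), 62 * (i : ℤ))]
      have e1 : en1 (f i j) x y + (64 * (j : ℤ), 62 * (i : ℤ)) =
          ((64 * (j : ℤ) + x, 62 * (i : ℤ) + y) : Pt) - f i j x y := by
        ext
        · simp only [en1, Prod.fst_add, Prod.fst_sub]; ring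
        · simp only [en1, Prod.snd_add, Prod.snd_sub]; ring
      have e2 : en2 (f i j) x y + (64 * (j : ℤ), 62 * (i : ℤ)) =
          ((64 * (j : ℤ) + x, 62 * (i : ℤ) + y) : Pt) + f i j x y := by
        ext
        · simp only [en2, Prod.fst_add]; ring
        · simp only [en2, Prod.snd_add]; ring
      have e3 : en1 (f i j) x' y' + (64 * (j : ℤ), 62 * (i : ℤ)) =
          ((64 * (j : ℤ) + x', 62 * (i : ℤ) + y') : Pt) - f i j x' y' := by
        ext
        · simp only [en1, Prod.fst_add, Prod.fst_sub]; ring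
        · simp only [en1, Prod.snd_add, Prod.snd_sub]; ring
      have e4 : en2 (f i j) x' y' + (64 * (j : ℤ), 62 * (i : ℤ)) =
          ((64 * (j : ℤ) + x', 62 * (i : ℤ) + y') : Pt) + f i j x' y' := by
        ext
        · simp only [en2, Prod.fst_add]; ring
        · simp only [en2, Prod.snd_add]; ring
      rw [e1, e2, e3, e4]
      exact hcr
    · intro hcr
      exact vert h3 hG hi hj hii _ _ hc' hc (pc_symm hcr)
  · intro hcr
    exact horiz h3 hG hi' hj hjj _ _ hc' hc (pc_symm hcr)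

end Pool.Agent.W982.TA
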