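import Pool.Agent.W982.TA.Stm

/-!
# Project TA: a point of an edge sees a point on the left (TA-G6)
-/

set_option autoImplicit false

namespace Pool.Agent.W982.TA

namespace G6W585

/-- the determinant of two vectors -/
def cr (u v : ℝ × ℝ) : ℝ := u.1 * v.2 - u.2 * v.1

theorem mo (u v w : ℝ × ℝ) :
    w ∈ openSegment ℝ u v ↔ ∃ t : ℝ, 0 < t ∧ t < 1 ∧ w = u + t • (v - u) := by
  rw [openSegment_eq_image']
  constructor
  · rintro ⟨t, ⟨h1, h2⟩, rfl⟩
    exact ⟨t, h1, h2, rfl⟩
  · rintro ⟨t, h1, h2, rfl⟩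
    exact ⟨t, ⟨h1, h2⟩, rfl⟩

theorem ms (u v w : ℝ × ℝ) :
    w ∈ segment ℝ u v ↔ ∃ t : ℝ, 0 ≤ t ∧ t ≤ 1 ∧ w = u + t • (v - u) := by
  rw [segment_eq_image']
  constructor
  · rintro ⟨t, ⟨h1, h2⟩, rfl⟩
    exact ⟨t, h1, h2, rfl⟩
  · rintro ⟨t, h1, h2, rfl⟩
    exact ⟨t, ⟨h1, h2⟩, rfl⟩

/-- the height over the line `ab` -/
def ht (a b : Pt) (w : ℝ × ℝ) : ℝ := cr (emb b - emb a) (w - emb a)

theorem ht_emb (a b s : Pt) : ht a b (emb s) = (dt a b s : ℝ) := by
  simp only [ht, cr, dt, emb, Prod.fst_sub, Prod.snd_sub]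
  push_cast
  ring

theorem ht_aff (a b : Pt) (u v : ℝ × ℝ) (t : ℝ) :
    ht a b (u + t • (v - u)) = ht a b u + t * (ht a b v - ht a b u) := by
  simp only [ht, cr, Prod.fst_sub, Prod.snd_sub, Prod.fst_add, Prod.snd_add, Prod.smul_fst,
    Prod.smul_snd, smul_eq_mul]
  ring

theorem ht_oseg (a b : Pt) (z : ℝ × ℝ) (hz : z ∈ oseg a b) : ht a b z = 0 := by
  obtain ⟨t, -, -, rfl⟩ := (mo _ _ _).1 hz
  simp only [ht, cr, Prod.fst_sub, Prod.snd_sub, Prod.fst_add, Prod.snd_add, Prod.smul_fst,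
    Prod.smul_snd, smul_eq_mul]
  ring

theorem oseg_congr {p q p' q' : Pt} (h : s(p, q) = s(p', q')) : oseg p q = oseg p' q' := by
  rcases Sym2.eq_iff.1 h with ⟨rfl, rfl⟩ | ⟨rfl, rfl⟩
  · rfl
  · exact openSegment_symm _ _ _

/-- affine coordinates -/
theorem exists_coords (z x p : ℝ × ℝ) (hD : cr (x - z) (p - z) ≠ 0) :
    ∃ α β : ℝ × ℝ → ℝ, (∀ w, w = z + α w • (x - z) + β w • (p - z)) ∧
      (∀ u v (t : ℝ), α (u + t • (v - u)) = α u + t * (α v - α u)) ∧
      (∀ u v (t : ℝ), β (u + t • (v - u)) = β u + t * (β v - β u)) ∧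
      α z = 0 ∧ β z = 0 ∧ α x = 1 ∧ β x = 0 ∧ α p = 0 ∧ β p = 1 ∧ Continuous α ∧ Continuous β := by
  refine ⟨fun w => cr (w - z) (p - z) / cr (x - z) (p - z),
    fun w => cr (x - z) (w - z) / cr (x - z) (p - z), ?_, ?_, ?_, ?_, ?_, ?_, ?_, ?_, ?_, ?_, ?_⟩
  · intro w
    have e1 : w.1 - z.1 = (cr (w - z) (p - z) * (x.1 - z.1) + cr (x - z) (w - z) * (p.1 - z.1)) /
        cr (x - z) (p - z) := by
      rw [eq_div_iff hD]
      simp only [cr, Prod.fst_sub, Prod.snd_sub]
      ring
    have e2 : w.2 - z.2 = (cr (w - z) (p - z) * (x.2 - z.2) + cr (x - z) (w - z) * (p.2 - z.2)) /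
        cr (x - z) (p - z) := by
      rw [eq_div_iff hD]
      simp only [cr, Prod.fst_sub, Prod.snd_sub]
      ring
    refine Prod.ext ?_ ?_
    · simp only [Prod.fst_sub, Prod.fst_add, Prod.smul_fst, smul_eq_mul]
      have : w.1 = z.1 + (w.1 - z.1) := by ring
      rw [this, e1]
      ring
    · simp only [Prod.snd_sub, Prod.snd_add, Prod.smul_snd, smul_eq_mul]
      have : w.2 = z.2 + (w.2 - z.2) := by ring
      rw [this, e2]
      ring
  · intro u v t
    simp only [cr, Prod.fst_sub, Prod.snd_sub, Prod.fst_add, Prod.snd_add, Prod.smul_fst,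
      Prod.smul_snd, smul_eq_mul]
    ring
  · intro u v t
    simp only [cr, Prod.fst_sub, Prod.snd_sub, Prod.fst_add, Prod.snd_add, Prod.smul_fst,
      Prod.smul_snd, smul_eq_mul]
    ring
  · simp [cr]
  · simp [cr]
  · exact div_self hD
  · have : cr (x - z) (x - z) = 0 := by simp only [cr]; ring
    simp [this]
  · have : cr (p - z) (p - z) = 0 := by simp only [cr]; ring
    simp [this]
  · exact div_self hD
  · unfold cr
    fun_prop
  · unfold cr
    fun_prop

theorem ht_coords (a b : Pt) (z x p : ℝ × ℝ) (α β : ℝ) (hz : ht a b z = 0) :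
    ht a b (z + α • (x - z) + β • (p - z)) = α * ht a b x + β * ht a b p := by
  have e : ht a b (z + α • (x - z) + β • (p - z)) =
      (1 - α - β) * ht a b z + α * ht a b x + β * ht a b p := by
    simp only [ht, cr, Prod.fst_sub, Prod.snd_sub, Prod.fst_add, Prod.snd_add, Prod.smul_fst,
      Prod.smul_snd, smul_eq_mul]
    ring
  rw [e, hz]
  ring

/-- the edge which is hit is not collinear with the ray -/
theorem no_col (S : Finset Pt) (T : Set (Sym2 Pt)) (a b : Pt) (z x : ℝ × ℝ)
    (C2 : ∀ κ : ℝ, 0 < κ → κ < 1 → ∀ p q, s(p, q) ∈ T → s(p, q) ≠ s(a, b) →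
      z + κ • (x - z) ∉ segment ℝ (emb p) (emb q))
    (p p' : Pt) (hf : s(p, p') ∈ T) (hne : s(p, p') ≠ s(a, b)) (hxf : x ∈ oseg p p') (l : ℝ)
    (hl : l < 1) : emb p ≠ z + l • (x - z) := by
  intro hp
  obtain ⟨m, m0, m1, hx⟩ := (mo _ _ _).1 hxf
  have k0 : 0 < max ((1 + l) / 2) (1 / 2) := lt_of_lt_of_le (by norm_num) (le_max_right _ _)
  have k1 : max ((1 + l) / 2) (1 / 2) < 1 := max_lt (by linarith) (by norm_num)
  have k2 : l < max ((1 + l) / 2) (1 / 2) := lt_of_lt_of_le (by linarith) (le_max_left _ _)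
  obtain ⟨κ, hκ⟩ : ∃ κ, κ = max ((1 + l) / 2) (1 / 2) := ⟨_, rfl⟩
  rw [← hκ] at k0 k1 k2
  refine C2 κ k0 k1 p p' hf hne ((ms _ _ _).2 ⟨m * (κ - l) / (1 - l), ?_, ?_, ?_⟩)
  · exact div_nonneg (mul_nonneg m0.le (by linarith)) (by linarith)
  · rw [div_le_one (by linarith)]
    nlinarith
  · have h1l : (1 - l) ≠ 0 := by linarith
    have e1 := congrArg Prod.fst hx
    have e2 := congrArg Prod.snd hx
    have e3 := congrArg Prod.fst hp
    have e4 := congrArg Prod.snd hp
    simp only [Prod.fst_sub, Prod.snd_sub, Prod.fst_add, Prod.snd_add, Prod.smul_fst,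
      Prod.smul_snd, smul_eq_mul] at e1 e2 e3 e4
    -- m * (p' - p) = x - p = (1 - l) * (x - z)
    have f1 : m * ((emb p').1 - (emb p).1) = (1 - l) * (x.1 - z.1) := by linarith
    have f2 : m * ((emb p').2 - (emb p).2) = (1 - l) * (x.2 - z.2) := by linarith
    refine Prod.ext ?_ ?_
    · simp only [Prod.fst_sub, Prod.fst_add, Prod.smul_fst, smul_eq_mul]
      have : m * (κ - l) / (1 - l) * ((emb p').1 - (emb p).1) = (κ - l) * (x.1 - z.1) := by
        rw [show m * (κ - l) / (1 - l) * ((emb p').1 - (emb p).1) =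
          (κ - l) * (m * ((emb p').1 - (emb p).1)) / (1 - l) by ring, f1]
        field_simp
      rw [this, e3]
      ring
    · simp only [Prod.snd_sub, Prod.snd_add, Prod.smul_snd, smul_eq_mul]
      have : m * (κ - l) / (1 - l) * ((emb p').2 - (emb p).2) = (κ - l) * (x.2 - z.2) := by
        rw [show m * (κ - l) / (1 - l) * ((emb p').2 - (emb p).2) =
          (κ - l) * (m * ((emb p').2 - (emb p).2)) / (1 - l) by ring, f2]
        field_simp
      rw [this, e4]
      ring

theorem col_of_cr (X P : ℝ × ℝ) (hX : X ≠ 0) (h : cr X P = 0) : ∃ l : ℝ, P = l • X := by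
  by_cases h1 : X.1 = 0
  · have h2 : X.2 ≠ 0 := fun h2 => hX (Prod.ext h1 h2)
    refine ⟨P.2 / X.2, Prod.ext ?_ ?_⟩
    · simp only [cr, h1, zero_mul, zero_sub, neg_eq_zero, mul_eq_zero] at h
      simp [h1, h.resolve_left h2]
    · simp only [Prod.smul_snd, smul_eq_mul]
      field_simp
  · refine ⟨P.1 / X.1, Prod.ext ?_ ?_⟩
    · simp only [Prod.smul_fst, smul_eq_mul]
      field_simp
    · simp only [Prod.smul_snd, smul_eq_mul]
      rw [div_mul_eq_mul_div, eq_div_iff h1]
      unfold cr at h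
      linarith

/-- the choice of the point -/
theorem choice (S : Finset Pt) (α β : Pt → ℝ) (p : Pt) (hp : p ∈ S) (h1 : 0 ≤ α p) (h2 : 0 ≤ β p)
    (h3 : α p + β p ≤ 1)
    (hpos : ∀ r ∈ S, 0 ≤ α r → 0 ≤ β r → α r + β r ≤ 1 → 0 < β r) :
    ∃ s ∈ S, 0 ≤ α s ∧ 0 < β s ∧ α s + β s ≤ 1 ∧
      (∀ r ∈ S, 0 ≤ α r → 0 ≤ β r → α r + β r ≤ 1 → α r * β s ≤ α s * β r) ∧
      ∀ r ∈ S, 0 ≤ α r → 0 ≤ β r → α r + β r ≤ 1 → α r * β s = α s * β r → β s ≤ β r := by
  classical
  obtain ⟨W, hW⟩ : ∃ W : Finset Pt, ∀ r, r ∈ W ↔ r ∈ S ∧ 0 ≤ α r ∧ 0 ≤ β r ∧ α r + β r ≤ 1 :=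
    ⟨S.filter (fun r => 0 ≤ α r ∧ 0 ≤ β r ∧ α r + β r ≤ 1), fun r => by simp⟩
  obtain ⟨s1, hs1, hm1⟩ := W.exists_max_image (fun r => α r / β r) ⟨p, (hW p).2 ⟨hp, h1, h2, h3⟩⟩
  obtain ⟨s, hs, hm⟩ := (W.filter (fun r => α r / β r = α s1 / β s1)).exists_min_image β
    ⟨s1, by simp [hs1]⟩
  rw [Finset.mem_filter] at hs
  obtain ⟨hsW, hse⟩ := hs
  obtain ⟨hsS, hs2, hs3, hs4⟩ := (hW s).1 hsW
  have hsp := hpos s hsS hs2 hs3 hs4
  refine ⟨s, hsS, hs2, hsp, hs4, ?_, ?_⟩
  · intro r hr r1 r2 r3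
    have hrp := hpos r hr r1 r2 r3
    have h := hm1 r ((hW r).2 ⟨hr, r1, r2, r3⟩)
    rw [← hse, div_le_div_iff₀ hrp hsp] at h
    exact h
  · intro r hr r1 r2 r3 r4
    have hrp := hpos r hr r1 r2 r3
    refine hm r ?_
    rw [Finset.mem_filter]
    refine ⟨(hW r).2 ⟨hr, r1, r2, r3⟩, ?_⟩
    rw [← hse, div_eq_div_iff hrp.ne' hsp.ne']
    exact r4

theorem step2 (S : Finset Pt) (T : Set (Sym2 Pt)) (hT : IsTriangulation S T) (a b : Pt)
    (hab : s(a, b) ∈ T) (z : ℝ × ℝ) (hz : z ∈ oseg a b) (x : ℝ × ℝ) (hx : 0 < ht a b x)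
    (C1 : ∀ κ : ℝ, 0 < κ → κ < 1 → ∀ r ∈ S, emb r ≠ z + κ • (x - z))
    (C2 : ∀ κ : ℝ, 0 < κ → κ < 1 → ∀ p q, s(p, q) ∈ T → s(p, q) ≠ s(a, b) →
      z + κ • (x - z) ∉ segment ℝ (emb p) (emb q))
    (p p' : Pt) (hf : s(p, p') ∈ T) (hxf : x ∈ oseg p p') (hp : 0 < ht a b (emb p)) :
    ∃ c ∈ S, 0 < dt a b c ∧ Sees S T z c := by
  have hz0 := ht_oseg a b z hz
  have hzS : ∀ r ∈ S, emb r ≠ z := fun r hr h => (hT.seg a b hab).2.2.2 r hr (h ▸ hz)
  have hxS : ∀ r ∈ S, emb r ≠ x := fun r hr h => (hT.seg p p' hf).2.2.2 r hr (h ▸ hxf)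
  have habf : ∀ q q' : Pt, ∀ w ∈ oseg q q', 0 < ht a b w → s(q, q') ≠ s(a, b) := by
    intro q q' w hw hw0 he
    rw [oseg_congr he] at hw
    rw [ht_oseg a b w hw] at hw0
    exact lt_irrefl _ hw0
  have hfne := habf p p' x hxf hx
  have hXne : x - z ≠ 0 := by
    intro h
    rw [sub_eq_zero.1 h, hz0] at hx
    exact lt_irrefl _ hx
  have hpS : p ∈ S := (hT.seg p p' hf).1
  -- not collinear
  have hD : cr (x - z) (emb p - z) ≠ 0 := by
    intro hD
    obtain ⟨l, hl⟩ := col_of_cr _ _ hXne hD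
    have hl' : emb p = z + l • (x - z) := by rw [← hl]; abel
    rcases lt_trichotomy l 1 with h | h | h
    · exact no_col S T a b z x C2 p p' hf hfne hxf l h hl'
    · rw [h, one_smul, add_sub_cancel] at hl'
      exact hxS p hpS hl'
    · obtain ⟨m, m0, m1, hm⟩ := (mo _ _ _).1 hxf
      have hf' : s(p', p) ∈ T := by rw [Sym2.eq_swap]; exact hf
      have hfne' : s(p', p) ≠ s(a, b) := by rw [Sym2.eq_swap]; exact hfne
      have hxf' : x ∈ oseg p' p := by
        unfold oseg
        rw [openSegment_symm]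
        exact hxf
      have hl2 : l + (1 - l) / m < 1 := by
        have : (1 - l) / m < 1 - l := by
          rw [div_lt_iff₀ m0]
          nlinarith
        linarith
      refine no_col S T a b z x C2 p' p hf' hfne' hxf' (l + (1 - l) / m) hl2 ?_
      have e1 := congrArg Prod.fst hm
      have e2 := congrArg Prod.snd hm
      have e3 := congrArg Prod.fst hl'
      have e4 := congrArg Prod.snd hl'
      simp only [Prod.fst_sub, Prod.snd_sub, Prod.fst_add, Prod.snd_add, Prod.smul_fst,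
        Prod.smul_snd, smul_eq_mul] at e1 e2 e3 e4
      have f1 : m * ((emb p').1 - (emb p).1) = (1 - l) * (x.1 - z.1) := by linarith
      have f2 : m * ((emb p').2 - (emb p).2) = (1 - l) * (x.2 - z.2) := by linarith
      refine Prod.ext ?_ ?_
      · simp only [Prod.fst_sub, Prod.fst_add, Prod.smul_fst, smul_eq_mul]
        have : (emb p').1 - (emb p).1 = (1 - l) / m * (x.1 - z.1) := by
          rw [div_mul_eq_mul_div, eq_div_iff m0.ne']
          linarith
        rw [add_mul]
        linarith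
      · simp only [Prod.snd_sub, Prod.snd_add, Prod.smul_snd, smul_eq_mul]
        have : (emb p').2 - (emb p).2 = (1 - l) / m * (x.2 - z.2) := by
          rw [div_mul_eq_mul_div, eq_div_iff m0.ne']
          linarith
        rw [add_mul]
        linarith
  obtain ⟨α, β, hw, αa, βa, αz, βz, αx, βx, αp, βp, αc, βc⟩ := exists_coords z x (emb p) hD
  have hht : ∀ w, ht a b w = α w * ht a b x + β w * ht a b (emb p) := by
    intro w
    conv_lhs => rw [hw w]
    exact ht_coords a b z x (emb p) (α w) (β w) hz0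
  -- points of the edge `p p'`
  obtain ⟨m, m0, m1, hm⟩ := (mo _ _ _).1 hxf
  have hsum' : α (emb p') + β (emb p') = 1 := by
    have e1 := αa (emb p) (emb p') m
    have e2 := βa (emb p) (emb p') m
    rw [← hm, αx, αp] at e1
    rw [← hm, βx, βp] at e2
    have e3 : m * (α (emb p') + β (emb p')) = m * 1 := by linarith
    exact mul_left_cancel₀ m0.ne' e3
  have hsum : ∀ w ∈ oseg p p', α w + β w = 1 := by
    intro w hw'
    obtain ⟨t, t0, t1, rfl⟩ := (mo _ _ _).1 hw'
    rw [αa, βa, αp, βp]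
    linear_combination t * hsum'
  have hpart : ∀ w, α w + β w = 1 → 0 ≤ β w → 0 < α w → w ∈ oseg p p' := by
    intro w h1 h2 h3
    refine (mo _ _ _).2 ⟨m * α w, mul_pos m0 h3, ?_, ?_⟩
    · nlinarith
    · have e1 : w = emb p + α w • (x - emb p) := by
        have e2 := hw w
        have e3 : β w = 1 - α w := by linarith
        rw [e3] at e2
        conv_lhs => rw [e2]
        refine Prod.ext ?_ ?_
        · simp only [Prod.fst_sub, Prod.fst_add, Prod.smul_fst, smul_eq_mul]
          ring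
        · simp only [Prod.snd_sub, Prod.snd_add, Prod.smul_snd, smul_eq_mul]
          ring
      have e4 : x - emb p = m • (emb p' - emb p) := by
        rw [hm]
        abel
      rw [e4, smul_smul, mul_comm] at e1
      exact e1
  -- the choice of `s`
  obtain ⟨s, hsS, s1, s2, s3, s4, s5⟩ := choice S (fun r => α (emb r)) (fun r => β (emb r)) p hpS
    (by rw [αp]) (by rw [βp]; exact zero_le_one) (by rw [αp, βp]; norm_num) (by
      intro r hr h1 h2 h3
      rcases h2.lt_or_eq with h | h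
      · exact h
      · exfalso
        have e1 := hw (emb r)
        rw [← h, zero_smul, add_zero] at e1
        have h3' : α (emb r) ≤ 1 := by
          have h3'' : α (emb r) + β (emb r) ≤ 1 := h3
          rw [← h] at h3''
          linarith
        rcases h1.lt_or_eq with g | g
        · rcases h3'.lt_or_eq with k | k
          · exact C1 _ g k r hr e1
          · rw [k, one_smul, add_sub_cancel] at e1
            exact hxS r hr e1
        · rw [← g, zero_smul, add_zero] at e1
          exact hzS r hr e1)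
  have hsh : 0 < ht a b (emb s) := by
    rw [hht]
    have := mul_nonneg s1 hx.le
    have := mul_pos s2 hp
    linarith
  refine ⟨s, hsS, ?_, ?_, ?_⟩
  · rw [ht_emb] at hsh
    exact_mod_cast hsh
  swap
  -- no point of `S` on the segment
  · intro r hr hrs
    obtain ⟨t, t0, t1, ht'⟩ := (mo _ _ _).1 hrs
    have e1 : α (emb r) = t * α (emb s) := by
      rw [ht', αa, αz]
      ring
    have e2 : β (emb r) = t * β (emb s) := by
      rw [ht', βa, βz]
      ring
    have h5 := s5 r hr (by rw [e1]; positivity) (by rw [e2]; positivity) (by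
      rw [e1, e2]
      nlinarith) (by rw [e1, e2]; ring)
    rw [e2] at h5
    nlinarith
  have noS : ∀ r ∈ S, ∀ t : ℝ, 0 < t → t < 1 → emb r ≠ z + t • (emb s - z) := by
    intro r hr t t0 t1 ht'
    have e1 : α (emb r) = t * α (emb s) := by
      rw [ht', αa, αz]
      ring
    have e2 : β (emb r) = t * β (emb s) := by
      rw [ht', βa, βz]
      ring
    have h5 := s5 r hr (by rw [e1]; positivity) (by rw [e2]; positivity) (by
      rw [e1, e2]
      nlinarith) (by rw [e1, e2]; ring)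
    rw [e2] at h5
    nlinarith
  -- main claim: one side
  have main1 : ∀ g g' : Pt, s(g, g') ∈ T → ∀ τ t : ℝ, 0 < τ → τ < 1 → 0 < t → t < 1 →
      z + τ • (emb s - z) = emb g + t • (emb g' - emb g) →
      0 < α (emb g) * β (emb s) - β (emb g) * α (emb s) → False := by
    intro g g' hg τ t τ0 τ1 t0 t1 hy hψ
    obtain ⟨y, hyd⟩ : ∃ y, y = z + τ • (emb s - z) := ⟨_, rfl⟩
    have hgS : g ∈ S := (hT.seg g g' hg).1
    have ay : α y = τ * α (emb s) := by rw [hyd, αa, αz]; ring
    have bY : β y = τ * β (emb s) := by rw [hyd, βa, βz]; ring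
    have hyh : 0 < ht a b y := by
      rw [hyd, ht_aff, hz0]
      have := mul_pos τ0 hsh
      linarith
    rw [← hyd] at hy
    have hyg : y ∈ oseg g g' := (mo _ _ _).2 ⟨t, t0, t1, hy⟩
    have hgab := habf g g' y hyg hyh
    have hylt : α y + β y < 1 := by
      rw [ay, bY]
      nlinarith
    have hgf : s(g, g') ≠ s(p, p') := by
      intro he
      rw [oseg_congr he] at hyg
      rw [hsum y hyg] at hylt
      exact lt_irrefl _ hylt
    -- intermediate value
    have hcont : Continuous fun u : ℝ =>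
        min (β (y + u • (emb g - y))) (1 - α (y + u • (emb g - y)) - β (y + u • (emb g - y))) := by
      fun_prop
    have hm0 : 0 < min (β (y + (0 : ℝ) • (emb g - y)))
        (1 - α (y + (0 : ℝ) • (emb g - y)) - β (y + (0 : ℝ) • (emb g - y))) := by
      rw [zero_smul, add_zero]
      refine lt_min ?_ (by linarith)
      rw [bY]
      positivity
    have hm1 : min (β (y + (1 : ℝ) • (emb g - y)))
        (1 - α (y + (1 : ℝ) • (emb g - y)) - β (y + (1 : ℝ) • (emb g - y))) ≤ 0 := by
      rw [one_smul, add_sub_cancel]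
      by_contra hcon
      rw [not_le, lt_min_iff] at hcon
      obtain ⟨c1, c2⟩ := hcon
      have c3 : 0 < α (emb g) := by
        by_contra hc
        push Not at hc
        have := mul_nonneg c1.le s1
        have := mul_nonneg_of_nonpos_of_nonpos hc (neg_nonpos.2 s2.le)
        linarith
      have := s4 g hgS c3.le c1.le (by linarith)
      linarith
    obtain ⟨u, hu, hum⟩ := intermediate_value_Icc' (zero_le_one (α := ℝ)) hcont.continuousOn
      ⟨hm1, hm0.le⟩
    simp only at hum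
    have hu0 : u ≠ 0 := by
      intro h
      rw [h] at hum
      rw [hum] at hm0
      exact lt_irrefl _ hm0
    have hu0' : 0 < u := lt_of_le_of_ne hu.1 (Ne.symm hu0)
    obtain ⟨w, hwd⟩ : ∃ w, w = y + u • (emb g - y) := ⟨_, rfl⟩
    rw [← hwd] at hum
    have aw : α w = α y + u * (α (emb g) - α y) := by rw [hwd, αa]
    have bw : β w = β y + u * (β (emb g) - β y) := by rw [hwd, βa]
    have hψw : 0 < α w * β (emb s) - β w * α (emb s) := by
      have e : α w * β (emb s) - β w * α (emb s) =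
          u * (α (emb g) * β (emb s) - β (emb g) * α (emb s)) := by
        rw [aw, bw, ay, bY]
        ring
      rw [e]
      exact mul_pos hu0' hψ
    have hβw : 0 ≤ β w := by rw [← hum]; exact min_le_left _ _
    have hαβw : 0 ≤ 1 - α w - β w := by rw [← hum]; exact min_le_right _ _
    have hαw : 0 < α w := by
      by_contra hc
      push Not at hc
      have := mul_nonneg hβw s1
      have := mul_nonneg_of_nonpos_of_nonpos hc (neg_nonpos.2 s2.le)
      linarith
    have hwg : w ∈ oseg g g' ∨ w = emb g := by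
      rcases hu.2.lt_or_eq with h | h
      · left
        refine (mo _ _ _).2 ⟨t * (1 - u), mul_pos t0 (by linarith), by nlinarith, ?_⟩
        rw [hwd, hy]
        refine Prod.ext ?_ ?_
        · simp only [Prod.fst_sub, Prod.fst_add, Prod.smul_fst, smul_eq_mul]
          ring
        · simp only [Prod.snd_sub, Prod.snd_add, Prod.smul_snd, smul_eq_mul]
          ring
      · right
        rw [hwd, h, one_smul, add_sub_cancel]
    -- points of the edge `p p'`
    have fin1 : α w + β w = 1 → False := by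
      intro h
      have h1 := hpart w h hβw hαw
      rcases hwg with h2 | h2
      · exact Set.disjoint_left.1 (hT.noncross g g' p p' hg hf hgf) h2 h1
      · rw [h2] at h1
        exact (hT.seg p p' hf).2.2.2 g hgS h1
    rcases min_choice (β w) (1 - α w - β w) with h | h
    · have hb0 : β w = 0 := by rw [← h, hum]
      have e1 := hw w
      rw [hb0, zero_smul, add_zero] at e1
      have ha1 : α w < 1 := by
        rcases lt_or_ge (α w) 1 with k | k
        · exact k
        · exfalso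
          exact fin1 (by linarith)
      rcases hwg with h2 | h2
      · refine C2 (α w) hαw ha1 g g' hg hgab ?_
        rw [← e1]
        exact openSegment_subset_segment _ _ _ h2
      · refine C1 (α w) hαw ha1 g hgS ?_
        rw [← e1, h2]
    · exact fin1 (by linarith)
  -- the collinear case
  have main2 : ∀ g g' : Pt, s(g, g') ∈ T → ∀ τ t : ℝ, 0 < τ → τ < 1 → 0 < t → t < 1 →
      z + τ • (emb s - z) = emb g + t • (emb g' - emb g) →
      α (emb g) * β (emb s) - β (emb g) * α (emb s) = 0 →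
      α (emb g') * β (emb s) - β (emb g') * α (emb s) = 0 →
      β (emb g) ≤ β (emb g') → False := by
    intro g g' hg τ t τ0 τ1 t0 t1 hy h1 h2 hle
    have hgS : g ∈ S := (hT.seg g g' hg).1
    have hyh : 0 < ht a b (z + τ • (emb s - z)) := by
      rw [ht_aff, hz0]
      have := mul_pos τ0 hsh
      linarith
    have hgab := habf g g' (z + τ • (emb s - z)) ((mo _ _ _).2 ⟨t, t0, t1, hy⟩) hyh
    have hb : τ * β (emb s) = β (emb g) + t * (β (emb g') - β (emb g)) := by
      have e1 := congrArg β hy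
      rw [βa, βa, βz] at e1
      linarith
    have par : ∀ q : Pt, α (emb q) * β (emb s) - β (emb q) * α (emb s) = 0 →
        emb q = z + (β (emb q) / β (emb s)) • (emb s - z) := by
      intro q hq
      have e1 := hw (emb q)
      have e2 := hw (emb s)
      have e3 : α (emb q) = β (emb q) / β (emb s) * α (emb s) := by
        rw [div_mul_eq_mul_div, eq_div_iff s2.ne']
        linarith
      have e4 : β (emb q) = β (emb q) / β (emb s) * β (emb s) := by
        field_simp
      have e5 : emb s - z = α (emb s) • (x - z) + β (emb s) • (emb p - z) := by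
        conv_lhs => rw [e2]
        abel
      rw [e5, smul_add, smul_smul, smul_smul, ← e3, ← e4, ← add_assoc]
      exact e1
    have hg1 := par g h1
    have hg2 := par g' h2
    have hlt : β (emb g) < β (emb s) := by
      nlinarith
    have hge : 0 < β (emb g') := by
      have : 0 < τ * β (emb s) := mul_pos τ0 s2
      nlinarith
    rcases lt_trichotomy (β (emb g)) 0 with h | h | h
    · -- `z` is in the edge
      have hz' : z ∈ oseg g g' := by
        refine (mo _ _ _).2 ⟨-β (emb g) / (β (emb g') - β (emb g)), ?_, ?_, ?_⟩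
        · exact div_pos (by linarith) (by linarith)
        · rw [div_lt_one (by linarith)]
          linarith
        · have hd : β (emb g') - β (emb g) ≠ 0 := by
            have : 0 < β (emb g') - β (emb g) := by linarith
            exact this.ne'
          have e3 : emb g' - emb g = ((β (emb g') - β (emb g)) / β (emb s)) • (emb s - z) := by
            conv_lhs => rw [hg1, hg2]
            rw [sub_div, sub_smul]
            abel
          rw [e3, smul_smul]
          have e4 : -β (emb g) / (β (emb g') - β (emb g)) * ((β (emb g') - β (emb g)) / β (emb s)) =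
              -(β (emb g) / β (emb s)) := by
            field_simp
          rw [e4]
          conv_rhs => rw [hg1]
          rw [neg_smul]
          simp only [βa, βz]
          refine Prod.ext ?_ ?_
          · simp only [Prod.fst_sub, Prod.fst_add, Prod.smul_fst, smul_eq_mul, Prod.fst_neg]
            field_simp
            ring
          · simp only [Prod.snd_sub, Prod.snd_add, Prod.smul_snd, smul_eq_mul, Prod.snd_neg]
            field_simp
            ring
      exact Set.disjoint_left.1 (hT.noncross g g' a b hg hab hgab) hz' hz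
    · rw [h, zero_div, zero_smul, add_zero] at hg1
      exact hzS g hgS hg1
    · exact noS g hgS _ (div_pos h s2) (by rw [div_lt_one s2]; exact hlt) hg1
  -- conclusion
  intro g g' hg
  rw [Set.disjoint_left]
  intro y hy1 hy2
  obtain ⟨τ, τ0, τ1, e1⟩ := (mo _ _ _).1 hy1
  obtain ⟨t, t0, t1, e2⟩ := (mo _ _ _).1 hy2
  have hy : z + τ • (emb s - z) = emb g + t • (emb g' - emb g) := by rw [← e1, e2]
  have hg' : s(g', g) ∈ T := by rw [Sym2.eq_swap]; exact hg
  have hy' : z + τ • (emb s - z) = emb g' + (1 - t) • (emb g - emb g') := by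
    rw [hy]
    refine Prod.ext ?_ ?_
    · simp only [Prod.fst_sub, Prod.fst_add, Prod.smul_fst, smul_eq_mul]
      ring
    · simp only [Prod.snd_sub, Prod.snd_add, Prod.smul_snd, smul_eq_mul]
      ring
  have hψ : (1 - t) * (α (emb g) * β (emb s) - β (emb g) * α (emb s)) +
      t * (α (emb g') * β (emb s) - β (emb g') * α (emb s)) = 0 := by
    have f1 := congrArg α hy
    have f2 := congrArg β hy
    rw [αa, αa, αz] at f1
    rw [βa, βa, βz] at f2
    linear_combination (-β (emb s)) * f1 + α (emb s) * f2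
  rcases lt_trichotomy (α (emb g) * β (emb s) - β (emb g) * α (emb s)) 0 with h | h | h
  · have h2 : 0 < α (emb g') * β (emb s) - β (emb g') * α (emb s) := by
      by_contra hc
      push Not at hc
      have := mul_neg_of_pos_of_neg (sub_pos.2 t1) h
      have := mul_nonpos_of_nonneg_of_nonpos t0.le hc
      linarith
    exact main1 g' g hg' τ (1 - t) τ0 τ1 (by linarith) (by linarith) hy' h2
  · have h2 : α (emb g') * β (emb s) - β (emb g') * α (emb s) = 0 := by
      rw [h, mul_zero, zero_add] at hψ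
      exact (mul_eq_zero.1 hψ).resolve_left t0.ne'
    rcases le_total (β (emb g)) (β (emb g')) with k | k
    · exact main2 g g' hg τ t τ0 τ1 t0 t1 hy h h2 k
    · exact main2 g' g hg' τ (1 - t) τ0 τ1 (by linarith) (by linarith) hy' h2 h k
  · exact main1 g g' hg τ t τ0 τ1 t0 t1 hy h

theorem closed_segment (u v : ℝ × ℝ) : IsClosed (segment ℝ u v) := by
  rw [segment_eq_image']
  exact (isCompact_Icc.image (by fun_prop)).isClosed

end G6W585

open G6W585 in
/-- TA-G6 -/
theorem g6 : TaskG6 := by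
  classical
  intro S T hT a b hab z hz hex
  obtain ⟨s0, hs0, hs0h⟩ := hex
  have hz0 := ht_oseg a b z hz
  have hs0h' : 0 < ht a b (emb s0) := by
    rw [ht_emb]
    exact_mod_cast hs0h
  have hzS : ∀ r ∈ S, emb r ≠ z := fun r hr h => (hT.seg a b hab).2.2.2 r hr (h ▸ hz)
  obtain ⟨F, hF⟩ : ∃ F : Finset (Pt × Pt), ∀ e, e ∈ F ↔
      (e.1 ∈ S ∧ e.2 ∈ S) ∧ s(e.1, e.2) ∈ T ∧ s(e.1, e.2) ≠ s(a, b) :=
    ⟨(S ×ˢ S).filter (fun e => s(e.1, e.2) ∈ T ∧ s(e.1, e.2) ≠ s(a, b)), fun e => by simp⟩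
  obtain ⟨K, hK⟩ : ∃ K : Set (ℝ × ℝ), K = (emb '' (S : Set Pt)) ∪
      ⋃ e ∈ F, segment ℝ (emb e.1) (emb e.2) := ⟨_, rfl⟩
  have hKc : IsClosed K := by
    rw [hK]
    refine IsClosed.union ((S.finite_toSet.image _).isClosed) ?_
    exact F.finite_toSet.isClosed_biUnion fun e _ => closed_segment _ _
  have hKS : ∀ r ∈ S, emb r ∈ K := fun r hr => by
    rw [hK]
    exact Or.inl ⟨r, hr, rfl⟩
  have hKe : ∀ p q : Pt, s(p, q) ∈ T → s(p, q) ≠ s(a, b) → segment ℝ (emb p) (emb q) ⊆ K := by
    intro p q h1 h2 w hw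
    rw [hK]
    right
    simp only [Set.mem_iUnion]
    exact ⟨(p, q), (hF _).2 ⟨⟨(hT.seg p q h1).1, (hT.seg p q h1).2.1⟩, h1, h2⟩, hw⟩
  have hzK : z ∉ K := by
    rw [hK]
    rintro (⟨r, hr, h⟩ | h)
    · exact hzS r hr h
    · simp only [Set.mem_iUnion] at h
      obtain ⟨e, he, hw⟩ := h
      obtain ⟨⟨e1, e2⟩, e3, e4⟩ := (hF e).1 he
      have hne1 : z ≠ emb e.1 := fun h => hzS _ e1 h.symm
      have hne2 : z ≠ emb e.2 := fun h => hzS _ e2 h.symm
      have hzo : z ∈ oseg e.1 e.2 := mem_openSegment_of_ne_left_right hne1.symm hne2.symm hw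
      exact Set.disjoint_left.1 (hT.noncross _ _ a b e3 hab e4) hzo hz
  obtain ⟨τs, hτ⟩ : ∃ A : Set ℝ, A = Set.Icc 0 1 ∩ (fun t : ℝ => z + t • (emb s0 - z)) ⁻¹' K :=
    ⟨_, rfl⟩
  have hcpt : IsCompact τs := by
    rw [hτ]
    exact isCompact_Icc.inter_right (hKc.preimage (by fun_prop))
  have hne : τs.Nonempty := by
    refine ⟨1, ?_⟩
    rw [hτ]
    refine ⟨⟨zero_le_one, le_rfl⟩, ?_⟩
    show z + (1 : ℝ) • (emb s0 - z) ∈ K
    rw [one_smul, add_sub_cancel]
    exact hKS s0 hs0
  obtain ⟨t0, ht0, hmin⟩ := hcpt.exists_isLeast hne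
  rw [hτ] at ht0
  obtain ⟨⟨ht0a, ht0b⟩, ht0K⟩ := ht0
  have ht0K' : z + t0 • (emb s0 - z) ∈ K := ht0K
  have ht0pos : 0 < t0 := by
    rcases ht0a.lt_or_eq with h | h
    · exact h
    · exfalso
      rw [← h, zero_smul, add_zero] at ht0K'
      exact hzK ht0K'
  obtain ⟨x, hx⟩ : ∃ x, x = z + t0 • (emb s0 - z) := ⟨_, rfl⟩
  rw [← hx] at ht0K'
  have hxh : 0 < ht a b x := by
    rw [hx, ht_aff, hz0]
    have := mul_pos ht0pos hs0h'
    linarith
  have hclear : ∀ κ : ℝ, 0 < κ → κ < 1 → z + κ • (x - z) ∉ K := by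
    intro κ k0 k1 hk
    have e1 : z + κ • (x - z) = z + (κ * t0) • (emb s0 - z) := by
      rw [hx, add_sub_cancel_left, smul_smul]
    rw [e1] at hk
    have : κ * t0 ∈ τs := by
      rw [hτ]
      exact ⟨⟨by positivity, by nlinarith⟩, hk⟩
    have := hmin this
    nlinarith
  have C1 : ∀ κ : ℝ, 0 < κ → κ < 1 → ∀ r ∈ S, emb r ≠ z + κ • (x - z) := by
    intro κ k0 k1 r hr h
    exact hclear κ k0 k1 (h ▸ hKS r hr)
  have C2 : ∀ κ : ℝ, 0 < κ → κ < 1 → ∀ p q, s(p, q) ∈ T → s(p, q) ≠ s(a, b) →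
      z + κ • (x - z) ∉ segment ℝ (emb p) (emb q) := by
    intro κ k0 k1 p q h1 h2 h3
    exact hclear κ k0 k1 (hKe p q h1 h2 h3)
  by_cases hxS : ∃ r ∈ S, emb r = x
  · obtain ⟨r, hr, hrx⟩ := hxS
    refine ⟨r, hr, ?_, ?_, ?_⟩
    · rw [← hrx, ht_emb] at hxh
      exact_mod_cast hxh
    · intro p q hpq
      rw [Set.disjoint_left]
      intro w hw1 hw2
      obtain ⟨κ, k0, k1, e1⟩ := (mo _ _ _).1 hw1
      rw [hrx] at e1
      by_cases he : s(p, q) = s(a, b)
      · rw [oseg_congr he] at hw2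
        have h1 := ht_oseg a b w hw2
        rw [e1, ht_aff, hz0] at h1
        have := mul_pos k0 hxh
        linarith
      · refine C2 κ k0 k1 p q hpq he ?_
        rw [← e1]
        exact openSegment_subset_segment _ _ _ hw2
    · intro r' hr' h
      obtain ⟨κ, k0, k1, e1⟩ := (mo _ _ _).1 h
      rw [hrx] at e1
      exact C1 κ k0 k1 r' hr' e1
  · push Not at hxS
    rw [hK] at ht0K'
    rcases ht0K' with ⟨r, hr, h⟩ | h
    · exact absurd h (hxS r hr)
    · simp only [Set.mem_iUnion] at h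
      obtain ⟨e, he, hw⟩ := h
      obtain ⟨⟨e1, e2⟩, e3, e4⟩ := (hF e).1 he
      have hxo : x ∈ oseg e.1 e.2 :=
        mem_openSegment_of_ne_left_right (hxS _ e1) (hxS _ e2) hw
      rcases lt_or_ge 0 (ht a b (emb e.1)) with h1 | h1
      · exact step2 S T hT a b hab z hz x hxh C1 C2 e.1 e.2 e3 hxo h1
      · have h2 : 0 < ht a b (emb e.2) := by
          by_contra hc
          push Not at hc
          obtain ⟨t, t0', t1', ht'⟩ := (mo _ _ _).1 hxo
          rw [ht', ht_aff] at hxh
          nlinarith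
        refine step2 S T hT a b hab z hz x hxh C1 C2 e.2 e.1 (by rw [Sym2.eq_swap]; exact e3) ?_ h2
        unfold oseg
        rw [openSegment_symm]
        exact hxo

end Pool.Agent.W982.TA
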